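import Pool.Agent.J6H39.RS.Stm

set_option autoImplicit false

/-!
# Project RS, module ARA: the mean density in short intervals
-/

namespace Pool.Agent.J6H39.RS

open MeasureTheory Filter Finset
open scoped Topology

namespace ARAaux

theorem W_pos (x : ℕ) : 0 < W x := by
  unfold W
  apply Finset.prod_pos
  intro p hp
  rw [Finset.mem_filter] at hp
  have hp2 : (2 : ℝ) ≤ (p : ℝ) := by exact_mod_cast hp.2.two_le
  have : (p : ℝ)⁻¹ ≤ 1 / 2 := by
    rw [inv_le_comm₀ (by linarith) (by norm_num)]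
    linarith
  apply inv_pos.mpr
  linarith

theorem W_succ_le (x : ℕ) : W (x + 1) ≤ (x : ℝ) + 1 := by
  induction x with
  | zero =>
    unfold W
    have : (Finset.Icc 1 (0 + 1)).filter Nat.Prime = ∅ := by decide
    rw [this]
    simp
  | succ x ih =>
    have hsplit : Finset.Icc 1 (x + 1 + 1) = insert (x + 1 + 1) (Finset.Icc 1 (x + 1)) := by
      ext m
      simp only [Finset.mem_Icc, Finset.mem_insert]
      omega
    unfold W at ih ⊢
    rw [hsplit, Finset.filter_insert]
    have hpos : 0 < ∏ q ∈ (Finset.Icc 1 (x + 1)).filter Nat.Prime, (1 - (q : ℝ)⁻¹)⁻¹ := W_pos (x + 1)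
    split_ifs with hp
    · rw [Finset.prod_insert (by simp)]
      have hx : (0 : ℝ) < (x : ℝ) + 1 := by positivity
      have e : (1 - (((x + 1 + 1 : ℕ) : ℝ))⁻¹)⁻¹ = ((x : ℝ) + 2) / ((x : ℝ) + 1) := by
        push_cast
        rw [← one_div]
        field_simp
        ring
      rw [e]
      calc ((x : ℝ) + 2) / ((x : ℝ) + 1) * ∏ q ∈ (Finset.Icc 1 (x + 1)).filter Nat.Prime, (1 - (q : ℝ)⁻¹)⁻¹
          ≤ ((x : ℝ) + 2) / ((x : ℝ) + 1) * ((x : ℝ) + 1) := by
            apply mul_le_mul_of_nonneg_left ih (by positivity)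
        _ = (x : ℝ) + 2 := by field_simp
        _ = ((x + 1 : ℕ) : ℝ) + 1 := by push_cast; ring
    · push_cast
      linarith

theorem W_le (x : ℕ) : W x ≤ (x : ℝ) + 1 := by
  rcases x with _ | x
  · unfold W
    simp
  · have := W_succ_le x
    push_cast
    linarith

/-- the level sets of a monotone function in an interval are intervals -/
theorem level (z : ℕ → ℕ) (hz : Monotone z) (n g v : ℕ) :
    ∃ a L : ℕ, (Ioc n (n + g)).filter (fun m => z m = v) = Ioc a (a + L) := by
  rcases ((Ioc n (n + g)).filter (fun m => z m = v)).eq_empty_or_nonempty with h | h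
  · exact ⟨0, 0, by rw [h]; simp⟩
  · set s := (Ioc n (n + g)).filter (fun m => z m = v) with hs
    have h1 := s.min'_mem h
    have h2 := s.max'_mem h
    have h1' := Finset.mem_filter.mp h1
    have h2' := Finset.mem_filter.mp h2
    rw [Finset.mem_Ioc] at h1' h2'
    have h12 : s.min' h ≤ s.max' h := s.min'_le _ h2
    refine ⟨s.min' h - 1, s.max' h + 1 - s.min' h, ?_⟩
    ext m
    rw [Finset.mem_Ioc]
    constructor
    · intro hm
      have ha := s.min'_le m hm
      have hb := s.le_max' m hm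
      have hpos : 1 ≤ s.min' h := by omega
      constructor <;> omega
    · rintro ⟨hm1, hm2⟩
      have hpos : 1 ≤ s.min' h := by omega
      have ha : s.min' h ≤ m := by omega
      have hb : m ≤ s.max' h := by omega
      refine Finset.mem_filter.mpr ⟨Finset.mem_Ioc.mpr ⟨by omega, by omega⟩, ?_⟩
      apply le_antisymm
      · exact (hz hb).trans h2'.2.le
      · exact h1'.2.symm.le.trans (hz ha)

open Classical in
/-- the sum of `W (z m)` over the rough `m` -/
theorem F_bound (δ : ℝ) (C : ℕ)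
    (hC : ∀ z a L : ℕ, |(rgh z a L : ℝ) - L / W z| ≤ δ * (L / W z) + C * ((z : ℝ) + 1) ^ C)
    (z : ℕ → ℕ) (hz : Monotone z) (n g : ℕ) :
    |∑ m ∈ Ioc n (n + g), (if Rough z m then W (z m) else 0) - g| ≤
      δ * g + C * ((z (n + g) : ℝ) + 1) ^ (C + 2) := by
  set Z := z (n + g) with hZ
  have hmaps : ∀ m ∈ Ioc n (n + g), z m ∈ Finset.range (Z + 1) := by
    intro m hm
    rw [Finset.mem_Ioc] at hm
    rw [Finset.mem_range]
    have := hz hm.2
    omega
  rw [← Finset.sum_fiberwise_of_maps_to hmaps]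
  have hcard : (g : ℝ) = ∑ v ∈ Finset.range (Z + 1), (((Ioc n (n + g)).filter (fun m => z m = v)).card : ℝ) := by
    have := Finset.card_eq_sum_card_fiberwise hmaps
    rw [Nat.card_Ioc] at this
    have e : n + g - n = g := by omega
    rw [e] at this
    exact_mod_cast this
  have key : ∀ v ∈ Finset.range (Z + 1),
      |∑ m ∈ (Ioc n (n + g)).filter (fun m => z m = v), (if Rough z m then W (z m) else 0) -
        (((Ioc n (n + g)).filter (fun m => z m = v)).card : ℝ)| ≤
        δ * (((Ioc n (n + g)).filter (fun m => z m = v)).card : ℝ) + C * ((Z : ℝ) + 1) ^ (C + 1) := by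
    intro v hv
    rw [Finset.mem_range] at hv
    obtain ⟨a, L, haL⟩ := level z hz n g v
    have hval : ∑ m ∈ (Ioc n (n + g)).filter (fun m => z m = v), (if Rough z m then W (z m) else 0) =
        (rgh v a L : ℝ) * W v := by
      have h1 : ∑ m ∈ (Ioc n (n + g)).filter (fun m => z m = v), (if Rough z m then W (z m) else 0) =
          ∑ m ∈ (Ioc n (n + g)).filter (fun m => z m = v),
            (if (∀ q : ℕ, q.Prime → q ≤ v → ¬ q ∣ m) then W v else 0) := by
        apply Finset.sum_congr rfl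
        intro m hm
        rw [Finset.mem_filter] at hm
        unfold Rough
        rw [hm.2]
      rw [h1, haL, ← Finset.sum_filter, Finset.sum_const, nsmul_eq_mul]
      unfold rgh
      congr!
    have hcL : (((Ioc n (n + g)).filter (fun m => z m = v)).card : ℝ) = L := by
      rw [haL, Nat.card_Ioc]
      have e : a + L - a = L := by omega
      rw [e]
    rw [hval, hcL]
    have hW := W_pos v
    have hb := hC v a L
    have hWv : W v ≤ (Z : ℝ) + 1 := by
      refine (W_le v).trans ?_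
      have : (v : ℝ) ≤ (Z : ℝ) := by exact_mod_cast (by omega : v ≤ Z)
      linarith
    have e1 : (rgh v a L : ℝ) * W v - L = ((rgh v a L : ℝ) - L / W v) * W v := by
      field_simp
    rw [e1, abs_mul, abs_of_pos hW]
    have hv1 : ((v : ℝ) + 1) ^ C ≤ ((Z : ℝ) + 1) ^ C := by
      apply pow_le_pow_left₀ (by positivity)
      have : (v : ℝ) ≤ (Z : ℝ) := by exact_mod_cast (by omega : v ≤ Z)
      linarith
    calc |(rgh v a L : ℝ) - L / W v| * W v ≤ (δ * (L / W v) + C * ((v : ℝ) + 1) ^ C) * W v :=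
          mul_le_mul_of_nonneg_right hb hW.le
      _ = δ * L + C * ((v : ℝ) + 1) ^ C * W v := by field_simp
      _ ≤ δ * L + C * ((Z : ℝ) + 1) ^ C * ((Z : ℝ) + 1) := by
          have : (C : ℝ) * ((v : ℝ) + 1) ^ C * W v ≤ C * ((Z : ℝ) + 1) ^ C * ((Z : ℝ) + 1) := by
            apply mul_le_mul _ hWv hW.le (by positivity)
            exact mul_le_mul_of_nonneg_left hv1 (by positivity)
          linarith
      _ = δ * L + C * ((Z : ℝ) + 1) ^ (C + 1) := by ring
  calc |∑ v ∈ Finset.range (Z + 1), ∑ m ∈ (Ioc n (n + g)).filter (fun m => z m = v),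
        (if Rough z m then W (z m) else 0) - g|
      = |∑ v ∈ Finset.range (Z + 1), (∑ m ∈ (Ioc n (n + g)).filter (fun m => z m = v),
        (if Rough z m then W (z m) else 0) - (((Ioc n (n + g)).filter (fun m => z m = v)).card : ℝ))| := by
        rw [Finset.sum_sub_distrib, ← hcard]
    _ ≤ ∑ v ∈ Finset.range (Z + 1), |∑ m ∈ (Ioc n (n + g)).filter (fun m => z m = v),
        (if Rough z m then W (z m) else 0) - (((Ioc n (n + g)).filter (fun m => z m = v)).card : ℝ)| :=
        Finset.abs_sum_le_sum_abs _ _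
    _ ≤ ∑ v ∈ Finset.range (Z + 1), (δ * (((Ioc n (n + g)).filter (fun m => z m = v)).card : ℝ) +
        C * ((Z : ℝ) + 1) ^ (C + 1)) := Finset.sum_le_sum key
    _ = δ * g + C * ((Z : ℝ) + 1) ^ (C + 2) := by
        rw [Finset.sum_add_distrib, ← Finset.mul_sum, ← hcard, Finset.sum_const, Finset.card_range,
          nsmul_eq_mul]
        push_cast
        ring

/-- the end of a short interval is not much larger than its beginning -/
theorem end_le (c2 : ℝ) : ∀ᶠ n : ℕ in atTop, ∀ g : ℕ, (g : ℝ) ≤ c2 * Real.log n ^ 2 → (g : ℝ) ≤ n := by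
  have h1 : ∀ᶠ x : ℝ in atTop, ‖Real.log x ^ 2‖ ≤ (1 / (|c2| + 1) : ℝ) * ‖x‖ :=
    (Real.isLittleO_pow_log_id_atTop (n := 2)).bound (by positivity)
  filter_upwards [tendsto_natCast_atTop_atTop.eventually h1] with n hn g hg
  rw [Real.norm_of_nonneg (by positivity), Real.norm_of_nonneg (by positivity)] at hn
  have hc : c2 * Real.log n ^ 2 ≤ (|c2| + 1) * Real.log n ^ 2 := by
    apply mul_le_mul_of_nonneg_right _ (by positivity)
    linarith [le_abs_self c2]
  have h2 : (|c2| + 1) * Real.log n ^ 2 ≤ (|c2| + 1) * (1 / (|c2| + 1) * n) :=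
    mul_le_mul_of_nonneg_left hn (by positivity)
  have h3 : (|c2| + 1) * (1 / (|c2| + 1) * (n : ℝ)) = n := by
    field_simp
  linarith

end ARAaux

open ARAaux in
open Classical in
theorem t_ARA (h : S_FLI) : S_ARA := by
  intro z hz hsm c1 c2 η hc1 hc2 hη
  obtain ⟨δ, hδ0, hδη, hδ8⟩ : ∃ δ : ℝ, 0 < δ ∧ 3 * δ ≤ η ∧ δ ≤ 1 / 8 :=
    ⟨min (η / 3) (1 / 8), by positivity, by linarith [min_le_left (η / 3) (1 / 8 : ℝ)], min_le_right _ _⟩
  obtain ⟨C, hC⟩ := h δ hδ0
  have hlog : Tendsto (fun n : ℕ => Real.log n) atTop atTop :=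
    Real.tendsto_log_atTop.comp tendsto_natCast_atTop_atTop
  have hsmall := hsm (((C + 2 : ℕ) : ℝ)⁻¹) (by positivity)
  have hsmall2 : ∀ᶠ n : ℕ in atTop, ∀ N : ℕ, n ≤ N → (z N : ℝ) ≤ Real.log N ^ (((C + 2 : ℕ) : ℝ)⁻¹) :=
    eventually_forall_ge_atTop.mpr hsmall
  filter_upwards [end_le c2, hsmall2, hlog.eventually (eventually_ge_atTop (Real.log 2 / δ)),
    hlog.eventually (eventually_ge_atTop (1 : ℝ)),
    hlog.eventually (eventually_ge_atTop (C * 2 ^ (C + 3) / (δ * c1))), eventually_ge_atTop 2]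
    with n hA hB hl1 hl2 hl3 hn2 g hg1 hg2
  have hgn := hA g hg2
  have hn0 : (0 : ℝ) < n := by exact_mod_cast (by omega : 0 < n)
  have hL : 0 < Real.log n := by linarith
  have hlog2 : Real.log ((n : ℝ) + g) ≤ (1 + δ) * Real.log n := by
    have h1 : Real.log ((n : ℝ) + g) ≤ Real.log (2 * n) := by
      apply Real.log_le_log (by positivity)
      linarith
    rw [Real.log_mul (by norm_num) hn0.ne'] at h1
    have h2 : Real.log 2 ≤ δ * Real.log n := by
      rw [div_le_iff₀ hδ0] at hl1
      linarith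
    linarith
  have hZ : (C : ℝ) * ((z (n + g) : ℝ) + 1) ^ (C + 2) ≤ δ * g := by
    have h1 := hB (n + g) (by omega)
    have h2 : Real.log ((n + g : ℕ) : ℝ) ≤ 2 * Real.log n := by
      push_cast
      have : (1 + δ) * Real.log n ≤ 2 * Real.log n := by
        apply mul_le_mul_of_nonneg_right _ hL.le
        linarith
      linarith
    have h0 : 0 ≤ Real.log ((n + g : ℕ) : ℝ) := Real.log_natCast_nonneg _
    have h3 : (z (n + g) : ℝ) ≤ (2 * Real.log n) ^ (((C + 2 : ℕ) : ℝ)⁻¹) :=
      h1.trans (Real.rpow_le_rpow h0 h2 (by positivity))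
    have h4 : (1 : ℝ) ≤ (2 * Real.log n) ^ (((C + 2 : ℕ) : ℝ)⁻¹) :=
      Real.one_le_rpow (by linarith) (by positivity)
    have h5 : ((z (n + g) : ℝ) + 1) ^ (C + 2) ≤ (2 * (2 * Real.log n) ^ (((C + 2 : ℕ) : ℝ)⁻¹)) ^ (C + 2) := by
      apply pow_le_pow_left₀ (by positivity)
      linarith
    rw [mul_pow, Real.rpow_inv_natCast_pow (by positivity) (by omega)] at h5
    rw [div_le_iff₀ (by positivity)] at hl3
    calc (C : ℝ) * ((z (n + g) : ℝ) + 1) ^ (C + 2) ≤ C * (2 ^ (C + 2) * (2 * Real.log n)) :=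
          mul_le_mul_of_nonneg_left h5 (by positivity)
      _ = (C * 2 ^ (C + 3)) * Real.log n := by ring
      _ ≤ (Real.log n * (δ * c1)) * Real.log n := mul_le_mul_of_nonneg_right hl3 hL.le
      _ = δ * (c1 * Real.log n ^ 2) := by ring
      _ ≤ δ * g := mul_le_mul_of_nonneg_left hg1 hδ0.le
  have hF := F_bound δ C hC z hz n g
  set F : ℝ := ∑ m ∈ Ioc n (n + g), (if Rough z m then W (z m) else 0) with hFdef
  have hF2 : |F - g| ≤ 2 * δ * g := by linarith
  have hF3 := abs_le.mp hF2
  have hg0 : (0 : ℝ) ≤ g := Nat.cast_nonneg g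
  have hup : ∑ m ∈ Ioc n (n + g), w z m ≤ F / Real.log n := by
    rw [hFdef, Finset.sum_div]
    apply Finset.sum_le_sum
    intro m hm
    rw [Finset.mem_Ioc] at hm
    unfold w
    split_ifs with hr
    · apply div_le_div_of_nonneg_left (W_pos _).le hL
      apply Real.log_le_log hn0
      exact_mod_cast hm.1.le
    · simp
  have hlow : F / ((1 + δ) * Real.log n) ≤ ∑ m ∈ Ioc n (n + g), w z m := by
    rw [hFdef, Finset.sum_div]
    apply Finset.sum_le_sum
    intro m hm
    rw [Finset.mem_Ioc] at hm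
    unfold w
    split_ifs with hr
    · have hm0 : (0 : ℝ) < m := by exact_mod_cast (by omega : 0 < m)
      have hm1 : 0 < Real.log m := by
        apply Real.log_pos
        exact_mod_cast (by omega : 1 < m)
      apply div_le_div_of_nonneg_left (W_pos _).le hm1
      refine le_trans ?_ hlog2
      apply Real.log_le_log hm0
      exact_mod_cast hm.2
    · simp
  have hq : 0 ≤ (g : ℝ) / Real.log n := by positivity
  rw [abs_le]
  constructor
  · have h1 : (1 - 3 * δ) * (g / Real.log n) ≤ F / ((1 + δ) * Real.log n) := by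
      rw [le_div_iff₀ (by positivity)]
      have e : (1 - 3 * δ) * (g / Real.log n) * ((1 + δ) * Real.log n) = (1 - 3 * δ) * (1 + δ) * g := by
        field_simp
      rw [e]
      nlinarith [mul_nonneg (mul_nonneg hδ0.le hδ0.le) hg0]
    nlinarith [mul_le_mul_of_nonneg_right hδη hq]
  · have h1 : F / Real.log n ≤ (1 + 2 * δ) * (g / Real.log n) := by
      rw [div_le_iff₀ hL]
      have e : (1 + 2 * δ) * (g / Real.log n) * Real.log n = (1 + 2 * δ) * g := by
        field_simp
      rw [e]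
      linarith
    nlinarith [mul_le_mul_of_nonneg_right hδη hq, mul_nonneg hδ0.le hq]

end Pool.Agent.J6H39.RS
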