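import Pool.Agent.J6H39.RS.Stm2

set_option autoImplicit false

/-!
# Project RS, module ARB (helper48): block equidistribution and choice of good intervals
-/

namespace Pool.Agent.J6H39.RS

open MeasureTheory Filter Finset
open scoped Topology

namespace ARBaux

lemma cnt_le (Q M i s0 : ℕ) (hM : 0 < M) (hQM : Nat.Coprime Q M) :
    ((Ico s0 (s0 + M)).filter (fun s => Nat.Coprime M (Q * s + i))).card ≤ M.totient := by
  rw [Nat.totient_eq_card_coprime]
  apply Finset.card_le_card_of_injOn (fun s => (Q * s + i) % M)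
  · intro s hs
    rw [Finset.mem_coe, mem_filter] at hs
    rw [Finset.mem_coe, mem_filter, Finset.mem_range]
    refine ⟨Nat.mod_lt _ hM, ?_⟩
    change Nat.gcd M ((Q * s + i) % M) = 1
    rw [Nat.gcd_comm, ← Nat.gcd_rec]
    exact hs.2
  · intro s hs s' hs' h
    rw [Finset.mem_coe, mem_filter, mem_Ico] at hs hs'
    have h1 : Q * s + i ≡ Q * s' + i [MOD M] := h
    have h2 : Q * s ≡ Q * s' [MOD M] := Nat.ModEq.add_right_cancel' i h1
    have h3 : s ≡ s' [MOD M] := Nat.ModEq.cancel_left_of_coprime (by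
      rw [Nat.gcd_comm]
      exact hQM) h2
    refine Nat.ModEq.eq_of_abs_lt h3 ?_
    rw [abs_lt]
    omega

open Classical in
lemma avg (P : Finset ℕ) (hP : ∀ p ∈ P, p.Prime) (v g s0 : ℕ) :
    ∃ s ∈ Ico s0 (s0 + ∏ p ∈ ((Icc 1 v).filter Nat.Prime) \ P, p),
      (((Icc 1 g).filter (fun i => (∀ q : ℕ, q.Prime → q ≤ v → ¬ q ∣ (∏ p ∈ P, p) * s + i) ∧
        ∀ p ∈ P, ¬ p ∣ (∏ p ∈ P, p) * s + i)).card : ℝ) ≤
        (((Icc 1 g).filter (fun i => ∀ p ∈ P, ¬ p ∣ i)).card : ℝ) *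
          ∏ p ∈ ((Icc 1 v).filter Nat.Prime) \ P, (1 - (p : ℝ)⁻¹) := by
  obtain ⟨R, hR⟩ : ∃ R, R = ((Icc 1 v).filter Nat.Prime) \ P := ⟨_, rfl⟩
  have hRp : ∀ p ∈ R, p.Prime ∧ p ≤ v ∧ p ∉ P := by
    intro p hp
    rw [hR, Finset.mem_sdiff, mem_filter, mem_Icc] at hp
    exact ⟨hp.1.2, hp.1.1.2, hp.2⟩
  obtain ⟨M, hM⟩ : ∃ M, M = ∏ p ∈ R, p := ⟨_, rfl⟩
  obtain ⟨Q, hQ⟩ : ∃ Q, Q = ∏ p ∈ P, p := ⟨_, rfl⟩
  have hM0 : 0 < M := by
    rw [hM]
    exact Finset.prod_pos (fun p hp => (hRp p hp).1.pos)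
  have hcop : Nat.Coprime Q M := by
    rw [hQ, hM]
    exact Nat.Coprime.prod_left (fun p hp => Nat.Coprime.prod_right (fun q hq =>
      (Nat.coprime_primes (hP p hp) (hRp q hq).1).2 (by
        rintro rfl
        exact (hRp p hq).2.2 hp)))
  have htot : (M.totient : ℝ) = M * ∏ p ∈ R, (1 - (p : ℝ)⁻¹) := by
    have h1 := Nat.totient_eq_mul_prod_factors M
    have h2 : M.primeFactors = R := by
      rw [hM]
      exact Nat.primeFactors_prod (fun p hp => (hRp p hp).1)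
    rw [h2] at h1
    have h3 := congrArg (fun x : ℚ => (x : ℝ)) h1
    push_cast at h3
    exact h3
  rw [← hR, ← hM, ← hQ]
  obtain ⟨G, hG⟩ : ∃ G, G = (Icc 1 g).filter (fun i => ∀ p ∈ P, ¬ p ∣ i) := ⟨_, rfl⟩
  rw [← hG]
  have h1 : ∑ s ∈ Ico s0 (s0 + M), ((Icc 1 g).filter (fun i =>
      (∀ q : ℕ, q.Prime → q ≤ v → ¬ q ∣ Q * s + i) ∧ ∀ p ∈ P, ¬ p ∣ Q * s + i)).card ≤
      ∑ i ∈ G, M.totient := by
    calc ∑ s ∈ Ico s0 (s0 + M), ((Icc 1 g).filter (fun i =>
          (∀ q : ℕ, q.Prime → q ≤ v → ¬ q ∣ Q * s + i) ∧ ∀ p ∈ P, ¬ p ∣ Q * s + i)).card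
        ≤ ∑ s ∈ Ico s0 (s0 + M), ∑ i ∈ G, (if Nat.Coprime M (Q * s + i) then 1 else 0) := by
          apply Finset.sum_le_sum
          intro s _
          rw [← Finset.card_filter]
          apply Finset.card_le_card
          intro i hi
          rw [mem_filter] at hi
          rw [mem_filter, hG, mem_filter]
          refine ⟨⟨hi.1, fun p hp hd => ?_⟩, ?_⟩
          · apply hi.2.2 p hp
            refine dvd_add (Dvd.dvd.mul_right ?_ s) hd
            rw [hQ]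
            exact Finset.dvd_prod_of_mem _ hp
          · rw [hM]
            exact Nat.Coprime.prod_left (fun p hp =>
              ((hRp p hp).1.coprime_iff_not_dvd).2 (hi.2.1 p (hRp p hp).1 (hRp p hp).2.1))
      _ = ∑ i ∈ G, ∑ s ∈ Ico s0 (s0 + M), (if Nat.Coprime M (Q * s + i) then 1 else 0) :=
          Finset.sum_comm
      _ ≤ ∑ i ∈ G, M.totient := by
          apply Finset.sum_le_sum
          intro i _
          rw [← Finset.card_filter]
          exact cnt_le Q M i s0 hM0 hcop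
  apply Finset.exists_le_of_sum_le
  · exact ⟨s0, by rw [mem_Ico]; omega⟩
  · rw [Finset.sum_const, Nat.card_Ico, nsmul_eq_mul]
    have h2 : ((∑ s ∈ Ico s0 (s0 + M), ((Icc 1 g).filter (fun i =>
      (∀ q : ℕ, q.Prime → q ≤ v → ¬ q ∣ Q * s + i) ∧ ∀ p ∈ P, ¬ p ∣ Q * s + i)).card : ℕ) : ℝ) ≤
      ((∑ i ∈ G, M.totient : ℕ) : ℝ) := by exact_mod_cast h1
    rw [Finset.sum_const, smul_eq_mul] at h2
    push_cast at h2
    rw [htot] at h2
    have e1 : s0 + M - s0 = M := by omega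
    rw [e1]
    refine h2.trans (le_of_eq ?_)
    ring

lemma one_sub_inv_pos (q : ℕ) (hq : q.Prime) : (0 : ℝ) < 1 - (q : ℝ)⁻¹ := by
  have h1 : (1 : ℝ) < q := by exact_mod_cast hq.one_lt
  have := inv_lt_one_of_one_lt₀ h1
  linarith

lemma W_pos (v : ℕ) : 0 < W v := by
  unfold W
  apply Finset.prod_pos
  intro q hq
  rw [mem_filter] at hq
  exact inv_pos.2 (one_sub_inv_pos q hq.2)

open Classical in
lemma block (P : Finset ℕ) (hP : ∀ p ∈ P, p.Prime) (z : ℕ → ℕ) (hz : Monotone z) (T0 D V g : ℕ)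
    (κ : ℝ) (hκ : 0 ≤ κ) (hT : 2 ≤ T0) (hD : 2 * 4 ^ V + g ≤ D) (hV : z T0 ≤ V)
    (hc : z (T0 + D) = z T0) (hPv : ∀ p ∈ P, p ≤ z T0)
    (hI : (((Icc 1 g).filter (fun h => ∀ p ∈ P, ¬ p ∣ h)).card : ℝ) ≤
      κ * g * ∏ p ∈ P, (1 - (p : ℝ)⁻¹)) :
    ∃ a, T0 ≤ a ∧ a + g ≤ T0 + D ∧ ∑ m ∈ Ioc a (a + g), w z m ≤ κ * (g / Real.log T0) := by
  obtain ⟨v, hv⟩ : ∃ v, v = z T0 := ⟨_, rfl⟩
  rw [← hv] at hV hc hPv
  obtain ⟨all, hall⟩ : ∃ all, all = (Icc 1 v).filter Nat.Prime := ⟨_, rfl⟩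
  have hPall : P ⊆ all := by
    intro p hp
    rw [hall, mem_filter, mem_Icc]
    exact ⟨⟨(hP p hp).pos, hPv p hp⟩, hP p hp⟩
  obtain ⟨Q, hQ⟩ : ∃ Q, Q = ∏ p ∈ P, p := ⟨_, rfl⟩
  have hQ0 : 0 < Q := by
    rw [hQ]
    exact Finset.prod_pos (fun p hp => (hP p hp).pos)
  obtain ⟨s, hs, hcard⟩ := avg P hP v g (T0 / Q + 1)
  rw [← hall] at hs hcard
  rw [← hQ] at hcard
  obtain ⟨M, hM⟩ : ∃ M, M = ∏ p ∈ all \ P, p := ⟨_, rfl⟩
  have hM0 : 0 < M := by
    rw [hM]
    refine Finset.prod_pos (fun p hp => ?_)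
    rw [Finset.mem_sdiff, hall, mem_filter] at hp
    exact hp.1.2.pos
  have hMQ : M * Q ≤ 4 ^ V := by
    have h1 : M * Q = ∏ p ∈ all, p := by
      rw [hM, hQ]
      exact Finset.prod_sdiff hPall
    have h2 : ∏ p ∈ all, p = primorial v := by
      unfold primorial
      apply Finset.prod_congr _ (fun _ _ => rfl)
      rw [hall]
      ext p
      rw [mem_filter, mem_filter, mem_Icc, mem_range]
      constructor
      · rintro ⟨h3, h4⟩
        exact ⟨by omega, h4⟩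
      · rintro ⟨h3, h4⟩
        exact ⟨⟨h4.pos, by omega⟩, h4⟩
    rw [h1, h2]
    exact (primorial_le_four_pow v).trans (Nat.pow_le_pow_right (by norm_num) hV)
  rw [← hM, mem_Ico] at hs
  have hQle : Q ≤ 4 ^ V := le_trans (Nat.le_mul_of_pos_left Q hM0) hMQ
  have ha1 : T0 ≤ Q * s := by
    have h1 := Nat.lt_mul_div_succ T0 hQ0
    have h2 : Q * (T0 / Q + 1) ≤ Q * s := Nat.mul_le_mul_left _ hs.1
    omega
  have ha2 : Q * s + g ≤ T0 + D := by
    have h1 : Q * s ≤ Q * (T0 / Q + 1 + M) := Nat.mul_le_mul_left _ hs.2.le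
    have h2 : Q * (T0 / Q + 1 + M) = Q * (T0 / Q) + Q + M * Q := by ring
    have h3 := Nat.mul_div_le T0 Q
    omega
  refine ⟨Q * s, ha1, ha2, ?_⟩
  have hT0 : (2 : ℝ) ≤ T0 := by exact_mod_cast hT
  have hlog : 0 < Real.log T0 := Real.log_pos (by linarith)
  have hWv := W_pos v
  have hzc : ∀ m ∈ Ioc (Q * s) (Q * s + g), z m = v := by
    intro m hm
    rw [mem_Ioc] at hm
    have h1 := hz (show T0 ≤ m by omega)
    have h2 := hz (show m ≤ T0 + D by omega)
    omega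
  have hsum : ∑ m ∈ Ioc (Q * s) (Q * s + g), w z m ≤
      (((Ioc (Q * s) (Q * s + g)).filter (fun m => Rough z m)).card : ℝ) * (W v / Real.log T0) := by
    unfold w
    rw [← Finset.sum_filter, ← nsmul_eq_mul]
    apply Finset.sum_le_card_nsmul
    intro m hm
    rw [mem_filter] at hm
    rw [hzc m hm.1]
    rw [mem_Ioc] at hm
    have h1 : (T0 : ℝ) ≤ m := by
      have : T0 ≤ m := by omega
      exact_mod_cast this
    exact div_le_div_of_nonneg_left hWv.le hlog (Real.log_le_log (by linarith) h1)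
  have hcard2 : ((Ioc (Q * s) (Q * s + g)).filter (fun m => Rough z m)).card ≤
      ((Icc 1 g).filter (fun i => (∀ q : ℕ, q.Prime → q ≤ v → ¬ q ∣ Q * s + i) ∧
        ∀ p ∈ P, ¬ p ∣ Q * s + i)).card := by
    apply Finset.card_le_card_of_injOn (fun m => m - Q * s)
    · intro m hm
      rw [Finset.mem_coe, mem_filter] at hm
      have hzm := hzc m hm.1
      rw [mem_Ioc] at hm
      simp only
      rw [Finset.mem_coe, mem_filter, mem_Icc]
      have e : Q * s + (m - Q * s) = m := by omega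
      rw [e]
      have h5 : ∀ q : ℕ, q.Prime → q ≤ v → ¬ q ∣ m := by
        intro q hq hqv
        exact hm.2 q hq (by rw [hzm]; exact hqv)
      exact ⟨⟨by omega, by omega⟩, h5, fun p hp => h5 p (hP p hp) (hPv p hp)⟩
    · intro m hm m' hm' h
      rw [Finset.mem_coe, mem_filter, mem_Ioc] at hm hm'
      simp only at h
      omega
  have hprod : (∏ p ∈ all \ P, (1 - (p : ℝ)⁻¹)) * ∏ p ∈ P, (1 - (p : ℝ)⁻¹) = (W v)⁻¹ := by
    rw [Finset.prod_sdiff hPall]
    unfold W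
    rw [Finset.prod_inv_distrib, inv_inv, hall]
  have hpos : 0 ≤ ∏ p ∈ all \ P, (1 - (p : ℝ)⁻¹) := by
    apply Finset.prod_nonneg
    intro p hp
    rw [Finset.mem_sdiff, hall, mem_filter] at hp
    exact (one_sub_inv_pos p hp.1.2).le
  have h6 : (((Ioc (Q * s) (Q * s + g)).filter (fun m => Rough z m)).card : ℝ) ≤ κ * g * (W v)⁻¹ := by
    calc (((Ioc (Q * s) (Q * s + g)).filter (fun m => Rough z m)).card : ℝ)
        ≤ (((Icc 1 g).filter (fun i => (∀ q : ℕ, q.Prime → q ≤ v → ¬ q ∣ Q * s + i) ∧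
            ∀ p ∈ P, ¬ p ∣ Q * s + i)).card : ℝ) := by exact_mod_cast hcard2
      _ ≤ _ := hcard
      _ ≤ (κ * g * ∏ p ∈ P, (1 - (p : ℝ)⁻¹)) * ∏ p ∈ all \ P, (1 - (p : ℝ)⁻¹) :=
          mul_le_mul_of_nonneg_right hI hpos
      _ = κ * g * (W v)⁻¹ := by
          rw [← hprod]
          ring
  refine hsum.trans ?_
  calc (((Ioc (Q * s) (Q * s + g)).filter (fun m => Rough z m)).card : ℝ) * (W v / Real.log T0)
      ≤ κ * g * (W v)⁻¹ * (W v / Real.log T0) :=
        mul_le_mul_of_nonneg_right h6 (div_nonneg hWv.le hlog.le)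
    _ = κ * (g / Real.log T0) := by
        field_simp

open Classical in
lemma bad (z : ℕ → ℕ) (hz : Monotone z) (D t0 t1 : ℕ) (h : t0 ≤ t1) :
    ((Ico t0 t1).filter (fun t => ¬ z ((t + 1) * D) = z (t * D))).card + z (t0 * D) ≤
      z (t1 * D) := by
  induction t1, h using Nat.le_induction with
  | base => simp
  | succ n hn ih =>
    rw [Finset.card_filter, Finset.sum_Ico_succ_top hn, ← Finset.card_filter]
    have h1 : z (n * D) ≤ z ((n + 1) * D) := hz (Nat.mul_le_mul_right _ (Nat.le_succ n))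
    split_ifs with h2
    · omega
    · omega

/-! ### asymptotics -/

lemma evA (ε b : ℝ) (hε : 0 < ε) (hb : 0 < b) :
    ∀ᶠ y : ℝ in atTop, y ^ (1 - ε) * Real.log 4 ≤ b * y := by
  have h4 : 0 < Real.log 4 := Real.log_pos (by norm_num)
  have h1 := tendsto_rpow_neg_atTop hε
  have h2 := h1.eventually (gt_mem_nhds (show (0 : ℝ) < b / Real.log 4 by positivity))
  filter_upwards [h2, eventually_gt_atTop (0 : ℝ)] with y hy hy0
  have e : y ^ (1 - ε) = y * y ^ (-ε) := by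
    rw [sub_eq_add_neg, Real.rpow_add hy0, Real.rpow_one]
  rw [e]
  rw [lt_div_iff₀ h4] at hy
  have := mul_le_mul_of_nonneg_left hy.le hy0.le
  nlinarith

lemma evB (c b : ℝ) (hc : 0 < c) (hb : 0 < b) :
    ∀ᶠ y : ℝ in atTop, 4 * y ^ 2 / c ^ 2 + 1 ≤ Real.exp (b * y) := by
  filter_upwards [eventually_ge_atTop (1 : ℝ), eventually_ge_atTop (6 * (4 / c ^ 2 + 1) / b ^ 3)]
    with y h1 h2
  have hy0 : (0 : ℝ) ≤ y := by linarith
  have h3 := Real.pow_div_factorial_le_exp (b * y) (by positivity) 3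
  have h4 : (Nat.factorial 3 : ℝ) = 6 := by norm_num [Nat.factorial]
  rw [h4] at h3
  refine le_trans ?_ h3
  rw [div_le_iff₀ (by positivity)] at h2
  rw [le_div_iff₀ (by norm_num)]
  have h5 : (1 : ℝ) ≤ y ^ 2 := one_le_pow₀ h1
  have h6 : 4 * y ^ 2 / c ^ 2 + 1 ≤ (4 / c ^ 2 + 1) * y ^ 2 := by
    have e : 4 * y ^ 2 / c ^ 2 = 4 / c ^ 2 * y ^ 2 := by ring
    rw [e]
    nlinarith
  have h7 : (6 * (4 / c ^ 2 + 1)) * y ^ 2 ≤ (y * b ^ 3) * y ^ 2 :=
    mul_le_mul_of_nonneg_right h2 (by positivity)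
  calc (4 * y ^ 2 / c ^ 2 + 1) * 6 ≤ (4 / c ^ 2 + 1) * y ^ 2 * 6 := by linarith
    _ = (6 * (4 / c ^ 2 + 1)) * y ^ 2 := by ring
    _ ≤ (y * b ^ 3) * y ^ 2 := h7
    _ = (b * y) ^ 3 := by ring

lemma evC (b C : ℝ) (hb : 0 < b) : ∀ᶠ y : ℝ in atTop, C ≤ Real.exp (b * y) := by
  filter_upwards [eventually_ge_atTop (C / b)] with y h1
  rw [div_le_iff₀ hb] at h1
  have := Real.add_one_le_exp (b * y)
  nlinarith

lemma evD (c ε : ℝ) (k : ℕ) (hc : 0 < c) (hk : 2 / (k : ℝ) < ε) (hk0 : 0 < k) :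
    ∀ᶠ g : ℕ in atTop, (g : ℝ) ^ ((1 : ℝ) / k) ≤ (c * √(g : ℝ) / 4) ^ ε := by
  have hk' : (0 : ℝ) < k := by exact_mod_cast hk0
  have h1 : Tendsto (fun r : ℝ => r ^ (ε - 2 / (k : ℝ))) atTop atTop :=
    tendsto_rpow_atTop (by linarith)
  have h2 : Tendsto (fun g : ℕ => √(g : ℝ)) atTop atTop :=
    Real.tendsto_sqrt_atTop.comp tendsto_natCast_atTop_atTop
  have h3 := (h1.comp h2).eventually_ge_atTop (((c / 4) ^ ε)⁻¹)
  filter_upwards [h3, eventually_ge_atTop 1] with g hg hg1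
  have hg0 : (0 : ℝ) < g := by exact_mod_cast (by omega : 0 < g)
  have hr : 0 < √(g : ℝ) := Real.sqrt_pos.2 hg0
  obtain ⟨r, hrr⟩ : ∃ r, r = √(g : ℝ) := ⟨_, rfl⟩
  have hgr : (g : ℝ) = r ^ (2 : ℝ) := by
    rw [hrr, Real.rpow_two, Real.sq_sqrt hg0.le]
  simp only [Function.comp] at hg
  rw [← hrr] at hg hr ⊢
  have e1 : (g : ℝ) ^ ((1 : ℝ) / k) = r ^ (2 / (k : ℝ)) := by
    rw [hgr, ← Real.rpow_mul hr.le]
    congr 1
    ring
  have e2 : (c * r / 4) ^ ε = (c / 4) ^ ε * r ^ ε := by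
    rw [show c * r / 4 = c / 4 * r by ring, Real.mul_rpow (by positivity) hr.le]
  have e3 : r ^ ε = r ^ (ε - 2 / (k : ℝ)) * r ^ (2 / (k : ℝ)) := by
    rw [← Real.rpow_add hr]
    congr 1
    ring
  rw [e1, e2, e3, ← mul_assoc]
  have h4 : 0 < (c / 4) ^ ε := Real.rpow_pos_of_pos (by positivity) _
  have h5 : 1 ≤ (c / 4) ^ ε * r ^ (ε - 2 / (k : ℝ)) := by
    have := mul_le_mul_of_nonneg_left hg h4.le
    rwa [mul_inv_cancel₀ h4.ne'] at this
  have h6 : 0 ≤ r ^ (2 / (k : ℝ)) := Real.rpow_nonneg hr.le _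
  nlinarith

lemma XX_tendsto (c : ℝ) (hc : 0 < c) : Tendsto (fun g : ℕ => XX c g) atTop atTop := by
  have h2 : Tendsto (fun g : ℕ => √(g : ℝ)) atTop atTop :=
    Real.tendsto_sqrt_atTop.comp tendsto_natCast_atTop_atTop
  exact tendsto_nat_floor_atTop.comp (Real.tendsto_exp_atTop.comp (h2.const_mul_atTop hc))

/-- `log XX` and `c √g` -/
lemma XX_log (c : ℝ) (g : ℕ) (h : 1 ≤ XX c g) :
    Real.log (XX c g) ≤ c * √(g : ℝ) ∧ c * √(g : ℝ) ≤ Real.log (XX c g) + Real.log 2 := by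
  have h0 : (1 : ℝ) ≤ XX c g := by exact_mod_cast h
  have h1 : ((XX c g : ℕ) : ℝ) ≤ Real.exp (c * √(g : ℝ)) := Nat.floor_le (Real.exp_pos _).le
  have h2 : Real.exp (c * √(g : ℝ)) < (XX c g : ℝ) + 1 := Nat.lt_floor_add_one _
  constructor
  · have := Real.log_le_log (by linarith) h1
    rwa [Real.log_exp] at this
  · have h3 : Real.exp (c * √(g : ℝ)) ≤ (XX c g : ℝ) * 2 := by linarith
    have := Real.log_le_log (Real.exp_pos _) h3
    rwa [Real.log_exp, Real.log_mul (by linarith) (by norm_num)] at this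

open Classical in
/-- the combinatorial core: many good intervals -/
lemma core (P : Finset ℕ) (hP : ∀ p ∈ P, p.Prime) (z : ℕ → ℕ) (hz : Monotone z) (X V D g : ℕ)
    (κ : ℝ) (hκ : 0 ≤ κ) (hX : 4 ≤ X) (hg : 0 < g) (hV : z X = V) (hD : D = 2 * 4 ^ V + g)
    (hPv : ∀ T0 : ℕ, X ≤ 2 * T0 → ∀ p ∈ P, p ≤ z T0)
    (hI : (((Icc 1 g).filter (fun h => ∀ p ∈ P, ¬ p ∣ h)).card : ℝ) ≤
      κ * g * ∏ p ∈ P, (1 - (p : ℝ)⁻¹)) :
    ∃ J : Finset ℕ, (∀ a ∈ J, X ≤ 2 * a ∧ a + g ≤ X) ∧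
      (∀ a ∈ J, ∀ b ∈ J, a ≠ b → a + g ≤ b ∨ b + g ≤ a) ∧
      (X : ℝ) / (2 * D) - 2 - V ≤ (J.card : ℝ) ∧
      ∀ a ∈ J, ∑ m ∈ Ioc a (a + g), w z m ≤ κ * (g / (Real.log X - Real.log 2)) := by
  obtain ⟨t0, ht0⟩ : ∃ t0, t0 = X / (2 * D) + 1 := ⟨_, rfl⟩
  obtain ⟨t1, ht1⟩ : ∃ t1, t1 = X / D := ⟨_, rfl⟩
  have hD0 : 0 < D := by omega
  obtain ⟨K, hK⟩ : ∃ K, K = (Ico t0 t1).filter (fun t => z ((t + 1) * D) = z (t * D)) := ⟨_, rfl⟩
  have hKt : ∀ t ∈ K, X ≤ 2 * (t * D) ∧ (t + 1) * D ≤ X := by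
    intro t ht
    rw [hK, mem_filter, mem_Ico] at ht
    constructor
    · have h1 := Nat.lt_mul_div_succ X (show 0 < 2 * D by omega)
      have h2 : 2 * D * (X / (2 * D) + 1) ≤ 2 * D * t := Nat.mul_le_mul_left _ (by omega)
      have h3 : 2 * D * t = 2 * (t * D) := by ring
      omega
    · have h1 : (t + 1) * D ≤ t1 * D := Nat.mul_le_mul_right _ (by omega)
      have h2 : t1 * D ≤ X := by
        rw [ht1]
        exact Nat.div_mul_le_self X D
      omega
  have hX4 : (4 : ℝ) ≤ X := by exact_mod_cast hX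
  have hblk : ∀ t ∈ K, ∃ a, t * D ≤ a ∧ a + g ≤ t * D + D ∧
      ∑ m ∈ Ioc a (a + g), w z m ≤ κ * (g / (Real.log X - Real.log 2)) := by
    intro t ht
    obtain ⟨h1, h2⟩ := hKt t ht
    have h3 : (t + 1) * D = t * D + D := by ring
    have h4 : z (t * D + D) = z (t * D) := by
      rw [hK, mem_filter] at ht
      rw [← h3]
      exact ht.2
    have h5 : z (t * D) ≤ V := by
      rw [← hV]
      exact hz (by omega)
    obtain ⟨a, ha1, ha2, ha3⟩ := block P hP z hz (t * D) D V g κ hκ (by omega) (by omega) h5 h4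
      (hPv _ h1) hI
    refine ⟨a, ha1, ha2, ha3.trans ?_⟩
    have h6 : (X : ℝ) / 2 ≤ ((t * D : ℕ) : ℝ) := by
      have : (X : ℝ) ≤ 2 * ((t * D : ℕ) : ℝ) := by exact_mod_cast h1
      linarith
    have h7 := Real.log_le_log (by linarith) h6
    rw [Real.log_div (by linarith) (by norm_num)] at h7
    have h8 : 0 < Real.log X - Real.log 2 := by
      rw [sub_pos]
      exact Real.log_lt_log (by norm_num) (by linarith)
    exact mul_le_mul_of_nonneg_left (div_le_div_of_nonneg_left (Nat.cast_nonneg _) h8 h7) hκ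
  choose! f hf using hblk
  have hord : ∀ t ∈ K, ∀ t' ∈ K, t < t' → f t + g ≤ f t' := by
    intro t ht t' ht' h
    have h1 := (hf t ht).2.1
    have h2 := (hf t' ht').1
    have h3 : (t + 1) * D ≤ t' * D := Nat.mul_le_mul_right _ h
    have h4 : (t + 1) * D = t * D + D := by ring
    omega
  have hinj : Set.InjOn f (K : Set ℕ) := by
    intro t ht t' ht' h
    rcases lt_trichotomy t t' with h1 | h1 | h1
    · have := hord t ht t' ht' h1
      omega
    · exact h1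
    · have := hord t' ht' t ht h1
      omega
  refine ⟨K.image f, ?_, ?_, ?_, ?_⟩
  · intro a ha
    rw [Finset.mem_image] at ha
    obtain ⟨t, ht, rfl⟩ := ha
    obtain ⟨h1, h2⟩ := hKt t ht
    obtain ⟨h3, h4, -⟩ := hf t ht
    have h5 : (t + 1) * D = t * D + D := by ring
    omega
  · intro a ha b hb hab
    rw [Finset.mem_image] at ha hb
    obtain ⟨t, ht, rfl⟩ := ha
    obtain ⟨t', ht', rfl⟩ := hb
    rcases lt_trichotomy t t' with h1 | h1 | h1
    · left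
      exact hord t ht t' ht' h1
    · exact absurd (by rw [h1]) hab
    · right
      exact hord t' ht' t ht h1
  · rw [Finset.card_image_of_injOn hinj]
    have hDr : (0 : ℝ) < D := by exact_mod_cast hD0
    have h1 : (X : ℝ) < D * (t1 + 1) := by
      have := Nat.lt_mul_div_succ X hD0
      rw [← ht1] at this
      exact_mod_cast this
    have h2 : (t0 : ℝ) ≤ X / (2 * D) + 1 := by
      rw [ht0]
      push_cast
      have := Nat.cast_div_le (α := ℝ) (m := X) (n := 2 * D)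
      push_cast at this
      linarith
    have h3 : (X : ℝ) / D ≤ t1 + 1 := by
      rw [div_le_iff₀ hDr]
      linarith
    have h4 : (X : ℝ) / D = 2 * (X / (2 * D)) := by field_simp
    rcases le_or_gt t0 t1 with h5 | h5
    · have h6 := bad z hz D t0 t1 h5
      have h7 : z (t1 * D) ≤ V := by
        rw [← hV]
        apply hz
        rw [ht1]
        exact Nat.div_mul_le_self X D
      have h8 : K.card + ((Ico t0 t1).filter (fun t => ¬ z ((t + 1) * D) = z (t * D))).card =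
          t1 - t0 := by
        rw [hK, Finset.card_filter_add_card_filter_not, Nat.card_Ico]
      have h9 : t1 ≤ K.card + V + t0 := by omega
      have h10 : (t1 : ℝ) ≤ K.card + V + t0 := by exact_mod_cast h9
      linarith
    · have h6 : (t1 : ℝ) + 1 ≤ t0 := by exact_mod_cast h5
      have h7 : (0 : ℝ) ≤ V := Nat.cast_nonneg _
      have h8 : (0 : ℝ) ≤ K.card := Nat.cast_nonneg _
      linarith
  · intro a ha
    rw [Finset.mem_image] at ha
    obtain ⟨t, ht, rfl⟩ := ha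
    exact (hf t ht).2.2

end ARBaux

open ARBaux in
theorem t_ARB : S_ARB := by
  classical
  intro hIRR ε hε
  obtain ⟨k0, hk0⟩ := exists_nat_gt (2 / ε)
  obtain ⟨k, hk⟩ : ∃ k, k = 2 * k0 + 1 := ⟨_, rfl⟩
  have hkodd : Odd k := ⟨k0, hk⟩
  have hkpos : 0 < k := by omega
  have hkr : (0 : ℝ) < k := by exact_mod_cast hkpos
  have hkε : 2 / (k : ℝ) < ε := by
    have h1 : (k0 : ℝ) ≤ k := by
      have : k0 ≤ k := by omega
      exact_mod_cast this
    rw [div_lt_iff₀ hkr]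
    rw [div_lt_iff₀ hε] at hk0
    nlinarith
  obtain ⟨δ, E, hδ, hδ1, hE, hE1, hI⟩ := hIRR k hkodd
  refine ⟨δ / 2, by positivity, by linarith, ?_⟩
  intro z hz hzb c hc η0 hη0
  obtain ⟨η, hη⟩ : ∃ η, η = min η0 (1 / 2) := ⟨_, rfl⟩
  have hη1 : 0 < η := by
    rw [hη]
    exact lt_min hη0 (by norm_num)
  have hη2 : η ≤ 1 / 2 := by
    rw [hη]
    exact min_le_right _ _
  have hη3 : η ≤ η0 := by
    rw [hη]
    exact min_le_left _ _
  -- asymptotic facts
  have hXt := XX_tendsto c hc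
  have hyt : Tendsto (fun g : ℕ => Real.log ((XX c g : ℕ) : ℝ)) atTop atTop :=
    Real.tendsto_log_atTop.comp (tendsto_natCast_atTop_atTop.comp hXt)
  obtain ⟨n0, hn0⟩ := eventually_atTop.1 hzb
  filter_upwards [hI, hXt.eventually_ge_atTop (2 * n0 + 4),
    hyt.eventually (evA ε (η / 8) hε (by positivity)),
    hyt.eventually (evB c (η / 8) hc (by positivity)),
    hyt.eventually (evC (η / 8) 4 (by positivity)),
    hyt.eventually_ge_atTop (10 : ℝ), hyt.eventually_ge_atTop (2 * (1 + η0) / δ),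
    evD c ε k hc hkε hkpos, eventually_ge_atTop 1] with g gI gX gA gB gC g10 gδ gD g1
  obtain ⟨X, hX⟩ : ∃ X, X = XX c g := ⟨_, rfl⟩
  rw [← hX] at gX gA gB gC g10 gδ ⊢
  obtain ⟨y, hy⟩ : ∃ y, y = Real.log (X : ℝ) := ⟨_, rfl⟩
  rw [← hy] at gA gB gC g10 gδ
  have hXr : (4 : ℝ) ≤ X := by
    have : 4 ≤ X := by omega
    exact_mod_cast this
  have hXpos : (0 : ℝ) < X := by linarith
  have hXexp : (X : ℝ) = Real.exp y := by rw [hy, Real.exp_log hXpos]
  have hlog2 : Real.log 2 ≤ 1 := by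
    have := Real.log_two_lt_d9
    linarith
  have hlog20 : 0 < Real.log 2 := Real.log_pos (by norm_num)
  obtain ⟨hL1, hL2⟩ := XX_log c g (by rw [← hX]; omega)
  rw [← hX, ← hy] at hL1 hL2
  have hsq0 : 0 ≤ √(g : ℝ) := Real.sqrt_nonneg _
  have hcs : c * √(g : ℝ) ≤ 2 * y := by linarith
  have hgy : (g : ℝ) ≤ 4 * y ^ 2 / c ^ 2 := by
    rw [le_div_iff₀ (by positivity)]
    have h1 := pow_le_pow_left₀ (by positivity) hcs 2
    rw [mul_pow, Real.sq_sqrt (Nat.cast_nonneg _)] at h1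
    nlinarith
  obtain ⟨V, hV⟩ : ∃ V, V = z X := ⟨_, rfl⟩
  have hVy : (V : ℝ) ≤ y ^ (1 - ε) := by
    have := (hn0 X (by omega)).2
    rw [← hV, ← hy] at this
    exact this
  have h4V : (4 : ℝ) ^ V ≤ Real.exp (η / 8 * y) := by
    have h1 : (4 : ℝ) ^ V = Real.exp (V * Real.log 4) := by
      rw [Real.exp_nat_mul, Real.exp_log (by norm_num)]
    rw [h1]
    apply Real.exp_le_exp.2
    refine le_trans ?_ gA
    exact mul_le_mul_of_nonneg_right hVy (Real.log_pos (by norm_num)).le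
  obtain ⟨D, hD⟩ : ∃ D, D = 2 * 4 ^ V + g := ⟨_, rfl⟩
  have hDr : (D : ℝ) ≤ Real.exp (η / 4 * y) := by
    rw [hD]
    push_cast
    have h1 : Real.exp (η / 4 * y) = Real.exp (η / 8 * y) * Real.exp (η / 8 * y) := by
      rw [← Real.exp_add]
      congr 1
      ring
    rw [h1]
    nlinarith
  have hD0 : (0 : ℝ) < D := by
    have : 0 < D := by omega
    exact_mod_cast this
  -- the primes
  have hP : ∀ p ∈ PP k E g, p.Prime := by
    intro p hp
    unfold PP at hp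
    rw [mem_filter] at hp
    exact hp.2
  have hPv : ∀ T0 : ℕ, X ≤ 2 * T0 → ∀ p ∈ PP k E g, p ≤ z T0 := by
    intro T0 hT0 p hp
    unfold PP at hp
    rw [mem_filter, mem_Ioc] at hp
    have h1 : (X : ℝ) / 2 ≤ T0 := by
      have : (X : ℝ) ≤ 2 * T0 := by exact_mod_cast hT0
      linarith
    have h2 := Real.log_le_log (by linarith) h1
    rw [Real.log_div (by linarith) (by norm_num), ← hy] at h2
    have h3 : c * √(g : ℝ) / 4 ≤ Real.log T0 := by linarith
    have h4 : (c * √(g : ℝ) / 4) ^ ε ≤ Real.log T0 ^ ε :=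
      Real.rpow_le_rpow (by positivity) h3 hε.le
    have h5 := (hn0 T0 (by omega)).1
    have h6 : (g : ℝ) ^ ((1 : ℝ) / k) ≤ ((z T0 : ℕ) : ℝ) := gD.trans (h4.trans h5)
    have h7 : ⌊(g : ℝ) ^ ((1 : ℝ) / k)⌋₊ ≤ z T0 := Nat.floor_le_of_le h6
    exact hp.1.2.trans h7
  obtain ⟨J, hJ1, hJ2, hJ3, hJ4⟩ := core (PP k E g) hP z hz X V D g (1 - δ) (by linarith) (by omega)
    g1 hV.symm hD hPv gI
  refine ⟨J, hJ1, hJ2, le_trans ?_ hJ3, fun a ha => (hJ4 a ha).trans ?_⟩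
  · -- the number of intervals
    have h1 : (X : ℝ) ^ (1 - η0) ≤ (X : ℝ) ^ (1 - η) :=
      Real.rpow_le_rpow_of_exponent_le (by linarith) (by linarith)
    refine h1.trans ?_
    have h2 : (X : ℝ) ^ (1 - η) = Real.exp ((1 - η) * y) := by
      rw [Real.rpow_def_of_pos hXpos, ← hy]
      congr 1
      ring
    have hV1 : (V : ℝ) ≤ y := by
      refine hVy.trans ?_
      have h3 : y ^ (1 - ε) ≤ y ^ (1 : ℝ) :=
        Real.rpow_le_rpow_of_exponent_le (by linarith) (by linarith)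
      rwa [Real.rpow_one] at h3
    have h3 : Real.exp ((1 - η / 4) * y) / 2 ≤ (X : ℝ) / (2 * D) := by
      rw [hXexp, div_le_div_iff₀ (by norm_num) (by positivity)]
      have h4 : Real.exp y = Real.exp ((1 - η / 4) * y) * Real.exp (η / 4 * y) := by
        rw [← Real.exp_add]
        congr 1
        ring
      rw [h4]
      have h5 := mul_le_mul_of_nonneg_left hDr (Real.exp_pos ((1 - η / 4) * y)).le
      nlinarith
    have h5 : Real.exp ((1 - η / 4) * y) = Real.exp ((1 - η) * y) * Real.exp (3 * η / 4 * y) := by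
      rw [← Real.exp_add]
      congr 1
      ring
    have h6 : (4 : ℝ) ≤ Real.exp (3 * η / 4 * y) := by
      refine gC.trans (Real.exp_le_exp.2 ?_)
      nlinarith
    have h7 : 2 + y ≤ Real.exp ((1 - η) * y) := by
      have h8 : Real.exp (1 / 2 * y) ≤ Real.exp ((1 - η) * y) := by
        apply Real.exp_le_exp.2
        nlinarith
      refine le_trans ?_ h8
      have h9 := Real.pow_div_factorial_le_exp (1 / 2 * y) (by linarith) 2
      have h10 : (Nat.factorial 2 : ℝ) = 2 := by norm_num [Nat.factorial]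
      rw [h10] at h9
      refine le_trans ?_ h9
      nlinarith
    rw [h2]
    have h8 : 2 * Real.exp ((1 - η) * y) ≤ Real.exp ((1 - η / 4) * y) / 2 := by
      rw [h5]
      have := mul_le_mul_of_nonneg_left h6 (Real.exp_pos ((1 - η) * y)).le
      linarith
    linarith
  · -- the density
    rw [← hy]
    have hy2 : 0 < y - Real.log 2 := by linarith
    have hy0 : 0 < y := by linarith
    rw [div_le_iff₀ hδ] at gδ
    rw [← mul_div_assoc, ← mul_div_assoc, div_le_div_iff₀ hy2 hy0]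
    have h1 : (1 - δ) * y ≤ (1 - δ / 2 + η0) * (y - Real.log 2) := by
      nlinarith
    have h2 : (0 : ℝ) ≤ g := Nat.cast_nonneg _
    have h3 := mul_le_mul_of_nonneg_left h1 h2
    nlinarith

open ARBaux in
theorem t_ARB2 : S_ARB2 := by
  classical
  intro hIRR ε hε
  obtain ⟨k0, hk0⟩ := exists_nat_gt (2 / ε)
  obtain ⟨k, hk⟩ : ∃ k, k = 2 * k0 + 1 := ⟨_, rfl⟩
  have hkodd : Odd k := ⟨k0, hk⟩
  have hkpos : 0 < k := by omega
  have hkr : (0 : ℝ) < k := by exact_mod_cast hkpos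
  have hkε : 2 / (k : ℝ) < ε := by
    have h1 : (k0 : ℝ) ≤ k := by
      have : k0 ≤ k := by omega
      exact_mod_cast this
    rw [div_lt_iff₀ hkr]
    rw [div_lt_iff₀ hε] at hk0
    nlinarith
  obtain ⟨δ, E, hδ, hδ1, hE, hE1, hI⟩ := hIRR k hkodd
  refine ⟨δ / 2, by positivity, by linarith, ?_⟩
  intro z hz hzb c hc η0 hη0
  obtain ⟨η, hη⟩ : ∃ η, η = min η0 (1 / 2) := ⟨_, rfl⟩
  have hη1 : 0 < η := by
    rw [hη]
    exact lt_min hη0 (by norm_num)
  have hη2 : η ≤ 1 / 2 := by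
    rw [hη]
    exact min_le_right _ _
  have hη3 : η ≤ η0 := by
    rw [hη]
    exact min_le_left _ _
  -- asymptotic facts
  have hXt := XX_tendsto c hc
  have hyt : Tendsto (fun g : ℕ => Real.log ((XX c g : ℕ) : ℝ)) atTop atTop :=
    Real.tendsto_log_atTop.comp (tendsto_natCast_atTop_atTop.comp hXt)
  obtain ⟨n0, hn0⟩ := eventually_atTop.1 hzb
  filter_upwards [hI, hXt.eventually_ge_atTop (2 * n0 + 4),
    hyt.eventually (evA ε (η / 8) hε (by positivity)),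
    hyt.eventually (evB c (η / 8) hc (by positivity)),
    hyt.eventually (evC (η / 8) 4 (by positivity)),
    hyt.eventually_ge_atTop (10 : ℝ), hyt.eventually_ge_atTop (2 * (1 + η0) / δ),
    eventually_ge_atTop 1] with g gI gX gA gB gC g10 gδ g1 gD
  obtain ⟨X, hX⟩ : ∃ X, X = XX c g := ⟨_, rfl⟩
  rw [← hX] at gX gA gB gC g10 gδ gD ⊢
  obtain ⟨y, hy⟩ : ∃ y, y = Real.log (X : ℝ) := ⟨_, rfl⟩
  rw [← hy] at gA gB gC g10 gδ
  have hXr : (4 : ℝ) ≤ X := by
    have : 4 ≤ X := by omega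
    exact_mod_cast this
  have hXpos : (0 : ℝ) < X := by linarith
  have hXexp : (X : ℝ) = Real.exp y := by rw [hy, Real.exp_log hXpos]
  have hlog2 : Real.log 2 ≤ 1 := by
    have := Real.log_two_lt_d9
    linarith
  have hlog20 : 0 < Real.log 2 := Real.log_pos (by norm_num)
  obtain ⟨hL1, hL2⟩ := XX_log c g (by rw [← hX]; omega)
  rw [← hX, ← hy] at hL1 hL2
  have hsq0 : 0 ≤ √(g : ℝ) := Real.sqrt_nonneg _
  have hcs : c * √(g : ℝ) ≤ 2 * y := by linarith
  have hgy : (g : ℝ) ≤ 4 * y ^ 2 / c ^ 2 := by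
    rw [le_div_iff₀ (by positivity)]
    have h1 := pow_le_pow_left₀ (by positivity) hcs 2
    rw [mul_pow, Real.sq_sqrt (Nat.cast_nonneg _)] at h1
    nlinarith
  obtain ⟨V, hV⟩ : ∃ V, V = z X := ⟨_, rfl⟩
  have hVy : (V : ℝ) ≤ y ^ (1 - ε) := by
    have := hn0 X (by omega)
    rw [← hV, ← hy] at this
    exact this
  have h4V : (4 : ℝ) ^ V ≤ Real.exp (η / 8 * y) := by
    have h1 : (4 : ℝ) ^ V = Real.exp (V * Real.log 4) := by
      rw [Real.exp_nat_mul, Real.exp_log (by norm_num)]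
    rw [h1]
    apply Real.exp_le_exp.2
    refine le_trans ?_ gA
    exact mul_le_mul_of_nonneg_right hVy (Real.log_pos (by norm_num)).le
  obtain ⟨D, hD⟩ : ∃ D, D = 2 * 4 ^ V + g := ⟨_, rfl⟩
  have hDr : (D : ℝ) ≤ Real.exp (η / 4 * y) := by
    rw [hD]
    push_cast
    have h1 : Real.exp (η / 4 * y) = Real.exp (η / 8 * y) * Real.exp (η / 8 * y) := by
      rw [← Real.exp_add]
      congr 1
      ring
    rw [h1]
    nlinarith
  have hD0 : (0 : ℝ) < D := by
    have : 0 < D := by omega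
    exact_mod_cast this
  -- the primes
  have hP : ∀ p ∈ PP k E g, p.Prime := by
    intro p hp
    unfold PP at hp
    rw [mem_filter] at hp
    exact hp.2
  have hPv : ∀ T0 : ℕ, X ≤ 2 * T0 → ∀ p ∈ PP k E g, p ≤ z T0 := by
    intro T0 hT0 p hp
    unfold PP at hp
    rw [mem_filter, mem_Ioc] at hp
    have h1 : (g : ℝ) ^ ((1 : ℝ) / k) ≤ (g : ℝ) ^ ε := by
      apply Real.rpow_le_rpow_of_exponent_le (by exact_mod_cast g1)
      have h2 : (1 : ℝ) / k ≤ 2 / k := div_le_div_of_nonneg_right (by norm_num) hkr.le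
      linarith
    have h3 : z (X / 2) ≤ z T0 := hz (by omega)
    have h4 : ((z (X / 2) : ℕ) : ℝ) ≤ ((z T0 : ℕ) : ℝ) := by exact_mod_cast h3
    have h6 : (g : ℝ) ^ ((1 : ℝ) / k) ≤ ((z T0 : ℕ) : ℝ) := h1.trans (gD.trans h4)
    have h7 : ⌊(g : ℝ) ^ ((1 : ℝ) / k)⌋₊ ≤ z T0 := Nat.floor_le_of_le h6
    exact hp.1.2.trans h7
  obtain ⟨J, hJ1, hJ2, hJ3, hJ4⟩ := core (PP k E g) hP z hz X V D g (1 - δ) (by linarith) (by omega)
    g1 hV.symm hD hPv gI
  refine ⟨J, hJ1, hJ2, le_trans ?_ hJ3, fun a ha => (hJ4 a ha).trans ?_⟩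
  · -- the number of intervals
    have h1 : (X : ℝ) ^ (1 - η0) ≤ (X : ℝ) ^ (1 - η) :=
      Real.rpow_le_rpow_of_exponent_le (by linarith) (by linarith)
    refine h1.trans ?_
    have h2 : (X : ℝ) ^ (1 - η) = Real.exp ((1 - η) * y) := by
      rw [Real.rpow_def_of_pos hXpos, ← hy]
      congr 1
      ring
    have hV1 : (V : ℝ) ≤ y := by
      refine hVy.trans ?_
      have h3 : y ^ (1 - ε) ≤ y ^ (1 : ℝ) :=
        Real.rpow_le_rpow_of_exponent_le (by linarith) (by linarith)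
      rwa [Real.rpow_one] at h3
    have h3 : Real.exp ((1 - η / 4) * y) / 2 ≤ (X : ℝ) / (2 * D) := by
      rw [hXexp, div_le_div_iff₀ (by norm_num) (by positivity)]
      have h4 : Real.exp y = Real.exp ((1 - η / 4) * y) * Real.exp (η / 4 * y) := by
        rw [← Real.exp_add]
        congr 1
        ring
      rw [h4]
      have h5 := mul_le_mul_of_nonneg_left hDr (Real.exp_pos ((1 - η / 4) * y)).le
      nlinarith
    have h5 : Real.exp ((1 - η / 4) * y) = Real.exp ((1 - η) * y) * Real.exp (3 * η / 4 * y) := by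
      rw [← Real.exp_add]
      congr 1
      ring
    have h6 : (4 : ℝ) ≤ Real.exp (3 * η / 4 * y) := by
      refine gC.trans (Real.exp_le_exp.2 ?_)
      nlinarith
    have h7 : 2 + y ≤ Real.exp ((1 - η) * y) := by
      have h8 : Real.exp (1 / 2 * y) ≤ Real.exp ((1 - η) * y) := by
        apply Real.exp_le_exp.2
        nlinarith
      refine le_trans ?_ h8
      have h9 := Real.pow_div_factorial_le_exp (1 / 2 * y) (by linarith) 2
      have h10 : (Nat.factorial 2 : ℝ) = 2 := by norm_num [Nat.factorial]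
      rw [h10] at h9
      refine le_trans ?_ h9
      nlinarith
    rw [h2]
    have h8 : 2 * Real.exp ((1 - η) * y) ≤ Real.exp ((1 - η / 4) * y) / 2 := by
      rw [h5]
      have := mul_le_mul_of_nonneg_left h6 (Real.exp_pos ((1 - η) * y)).le
      linarith
    linarith
  · -- the density
    rw [← hy]
    have hy2 : 0 < y - Real.log 2 := by linarith
    have hy0 : 0 < y := by linarith
    rw [div_le_iff₀ hδ] at gδ
    rw [← mul_div_assoc, ← mul_div_assoc, div_le_div_iff₀ hy2 hy0]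
    have h1 : (1 - δ) * y ≤ (1 - δ / 2 + η0) * (y - Real.log 2) := by
      nlinarith
    have h2 : (0 : ℝ) ≤ g := Nat.cast_nonneg _
    have h3 := mul_le_mul_of_nonneg_left h1 h2
    nlinarith

end Pool.Agent.J6H39.RS
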