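import Pool.Agent.J6H39.RS.Stm2

/-! # Project RS (helper39): `S_ARB` from `S_ARB2` -/

set_option autoImplicit false

namespace Pool.Agent.J6H39.RS

open MeasureTheory Filter Finset
open scoped Topology

lemma sq_tend : Tendsto (fun n : ℕ => √(n : ℝ)) atTop atTop :=
  Real.tendsto_sqrt_atTop.comp tendsto_natCast_atTop_atTop

lemma XX_half {c : ℝ} (hc : 0 < c) : ∀ᶠ g : ℕ in atTop,
    c / 2 * √(g : ℝ) ≤ Real.log ((XX c g / 2 : ℕ) : ℝ) := by
  filter_upwards [sq_tend.eventually_ge_atTop (2 * Real.log 8 / c), sq_tend.eventually_ge_atTop (Real.log 8 / c)]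
    with g h1 h2
  rw [div_le_iff₀ hc] at h1 h2
  have h8 : (8 : ℝ) ≤ Real.exp (c * √(g : ℝ)) := by
    rw [← Real.exp_log (show (0 : ℝ) < 8 by norm_num)]
    apply Real.exp_le_exp.2
    linarith
  have h3 : Real.exp (c * √(g : ℝ)) - 1 ≤ (XX c g : ℝ) := by
    have := Nat.lt_floor_add_one (Real.exp (c * √(g : ℝ)))
    unfold XX
    linarith
  have h4 : ((XX c g : ℝ) - 1) / 2 ≤ ((XX c g / 2 : ℕ) : ℝ) := by
    have : XX c g ≤ 2 * (XX c g / 2) + 1 := by omega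
    have h5 : (XX c g : ℝ) ≤ 2 * ((XX c g / 2 : ℕ) : ℝ) + 1 := by exact_mod_cast this
    linarith
  have h5 : Real.exp (c * √(g : ℝ)) / 8 ≤ ((XX c g / 2 : ℕ) : ℝ) := by linarith
  calc c / 2 * √(g : ℝ) ≤ c * √(g : ℝ) - Real.log 8 := by linarith
    _ = Real.log (Real.exp (c * √(g : ℝ)) / 8) := by
      rw [Real.log_div (Real.exp_pos _).ne' (by norm_num), Real.log_exp]
    _ ≤ _ := Real.log_le_log (by positivity) h5

lemma half_tend {c : ℝ} (hc : 0 < c) : Tendsto (fun g : ℕ => XX c g / 2) atTop atTop := by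
  have h1 : Tendsto (fun g : ℕ => c / 2 * √(g : ℝ)) atTop atTop :=
    sq_tend.const_mul_atTop (by positivity)
  have h2 : Tendsto (fun g : ℕ => Real.log ((XX c g / 2 : ℕ) : ℝ)) atTop atTop :=
    tendsto_atTop_mono' _ (XX_half hc) h1
  rw [tendsto_atTop]
  intro b
  filter_upwards [h2.eventually_gt_atTop (Real.log (b + 1 : ℝ))] with g hg
  by_contra hcon
  have h3 : XX c g / 2 ≤ b := by omega
  have h4 : ((XX c g / 2 : ℕ) : ℝ) ≤ (b : ℝ) + 1 := by
    have : ((XX c g / 2 : ℕ) : ℝ) ≤ (b : ℝ) := by exact_mod_cast h3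
    linarith
  rcases Nat.eq_zero_or_pos (XX c g / 2) with h5 | h5
  · rw [h5, Nat.cast_zero, Real.log_zero] at hg
    have : 0 ≤ Real.log ((b : ℝ) + 1) := Real.log_nonneg (by
      have : (0 : ℝ) ≤ b := Nat.cast_nonneg b
      linarith)
    linarith
  · have h6 : (0 : ℝ) < ((XX c g / 2 : ℕ) : ℝ) := by exact_mod_cast h5
    have := Real.log_le_log h6 h4
    linarith

theorem arb_of (h : S_ARB2) : S_ARB := by
  intro hIRR ε hε
  obtain ⟨δ, hδ0, hδ1, hδ⟩ := h hIRR (ε / 3) (by positivity)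
  refine ⟨δ, hδ0, hδ1, fun z hmono hz c hc η hη => ?_⟩
  have hl : Tendsto (fun n : ℕ => Real.log (n : ℝ)) atTop atTop :=
    Real.tendsto_log_atTop.comp tendsto_natCast_atTop_atTop
  have hz' : ∀ᶠ n : ℕ in atTop, (z n : ℝ) ≤ Real.log n ^ (1 - ε / 3) := by
    filter_upwards [hz, hl.eventually_ge_atTop 1] with n h h1
    exact h.2.trans (Real.rpow_le_rpow_of_exponent_le h1 (by linarith))
  have hlim : ∀ᶠ x : ℝ in atTop, (c / 2) ^ (-ε) ≤ x ^ (ε / 3) :=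
    (tendsto_rpow_atTop (by positivity : 0 < ε / 3)).eventually_ge_atTop _
  filter_upwards [hδ z hmono hz' c hc η hη, (half_tend hc).eventually hz, XX_half hc,
    sq_tend.eventually hlim, sq_tend.eventually_gt_atTop 0] with g h1 h2 h3 h4 h5
  apply h1
  show (g : ℝ) ^ (ε / 3) ≤ (z (XX c g / 2) : ℝ)
  refine le_trans ?_ h2.1
  refine le_trans ?_ (Real.rpow_le_rpow (by positivity) h3 hε.le)
  have hg : (g : ℝ) = √(g : ℝ) ^ (2 : ℝ) := by
    rw [Real.rpow_two, Real.sq_sqrt (Nat.cast_nonneg g)]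
  rw [Real.mul_rpow (by positivity) h5.le]
  have h6 : (1 : ℝ) ≤ (c / 2) ^ ε * √(g : ℝ) ^ (ε / 3) := by
    rw [Real.rpow_neg (by positivity)] at h4
    have h7 : 0 < (c / 2) ^ ε := by positivity
    calc (1 : ℝ) = (c / 2) ^ ε * ((c / 2) ^ ε)⁻¹ := by field_simp
      _ ≤ _ := by gcongr
  calc (g : ℝ) ^ (ε / 3) = √(g : ℝ) ^ (2 * (ε / 3)) := by
        conv_lhs => rw [hg]
        rw [← Real.rpow_mul h5.le]
    _ = 1 * √(g : ℝ) ^ (2 * (ε / 3)) := by ring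
    _ ≤ ((c / 2) ^ ε * √(g : ℝ) ^ (ε / 3)) * √(g : ℝ) ^ (2 * (ε / 3)) := by gcongr
    _ = (c / 2) ^ ε * √(g : ℝ) ^ ε := by
        rw [mul_assoc, ← Real.rpow_add h5]
        congr 2
        ring

end Pool.Agent.J6H39.RS
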