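import Pool.Agent.J6H39.RS.ARB

/-! `S_ARB2` is proved in `Pool.Agent.J6H39.RS.ARB` (helper48). -/
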