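import Pool.Agent.J6H39.RS.Stm

set_option autoImplicit false

/-!
# Module CRU: a crude bound for the runs
-/

namespace Pool.Agent.J6H39.RS

open MeasureTheory Filter Finset
open scoped Topology

namespace CRU

theorem W_succ (v : ℕ) :
    W (v + 1) = W v * (if (v + 1).Prime then (1 - ((v + 1 : ℕ) : ℝ)⁻¹)⁻¹ else 1) := by
  unfold W
  rw [Finset.prod_filter, Finset.prod_filter, Finset.prod_Icc_succ_top (by omega)]

theorem fac_ge (v : ℕ) : (1 : ℝ) ≤ (if (v + 1).Prime then (1 - ((v + 1 : ℕ) : ℝ)⁻¹)⁻¹ else 1) := by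
  split_ifs with h
  · have h2 : (2 : ℝ) ≤ ((v + 1 : ℕ) : ℝ) := by exact_mod_cast h.two_le
    have h3 : 0 < ((v + 1 : ℕ) : ℝ)⁻¹ := by positivity
    have h4 : ((v + 1 : ℕ) : ℝ)⁻¹ ≤ 2⁻¹ := inv_anti₀ (by norm_num) h2
    exact (one_le_inv₀ (by linarith)).2 (by linarith)
  · exact le_rfl

theorem fac_le (v : ℕ) :
    (if (v + 2).Prime then (1 - ((v + 2 : ℕ) : ℝ)⁻¹)⁻¹ else 1) ≤ (((v : ℝ) + 2) / ((v : ℝ) + 1)) := by
  have h0 : (0 : ℝ) ≤ (v : ℝ) := Nat.cast_nonneg v
  split_ifs with h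
  · apply le_of_eq
    have h1 : 1 - ((v + 2 : ℕ) : ℝ)⁻¹ = ((v : ℝ) + 1) / ((v : ℝ) + 2) := by
      push_cast
      field_simp
      ring
    rw [h1, inv_div]
  · rw [le_div_iff₀ (by linarith)]
    linarith

theorem W_aux (v : ℕ) : 1 ≤ W v ∧ W (v + 1) ≤ (v : ℝ) + 1 := by
  induction v with
  | zero =>
    have h0 : W 0 = 1 := by simp [W]
    refine ⟨h0.ge, ?_⟩
    rw [W_succ, h0]
    simp [Nat.not_prime_one]
  | succ v ih =>
    have h0 : (0 : ℝ) ≤ (v : ℝ) := Nat.cast_nonneg v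
    have h1 : 1 ≤ W (v + 1) := by
      rw [W_succ]
      exact one_le_mul_of_one_le_of_one_le ih.1 (fac_ge v)
    refine ⟨h1, ?_⟩
    rw [W_succ (v + 1)]
    have h2 := fac_le v
    have h3 : W (v + 1) * (if (v + 1 + 1).Prime then (1 - ((v + 1 + 1 : ℕ) : ℝ)⁻¹)⁻¹ else 1) ≤
        ((v : ℝ) + 1) * (((v : ℝ) + 2) / ((v : ℝ) + 1)) := by
      apply mul_le_mul ih.2 h2 (le_trans zero_le_one (fac_ge (v + 1))) (by linarith)
    refine h3.trans (le_of_eq ?_)
    push_cast
    field_simp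
    ring

theorem W_ge (v : ℕ) : 1 ≤ W v := (W_aux v).1

theorem W_le (v : ℕ) : W v ≤ (v : ℝ) + 1 := by
  refine le_trans ?_ (W_aux v).2
  rw [W_succ]
  exact le_mul_of_one_le_right (le_trans zero_le_one (W_ge v)) (fac_ge v)

theorem w_nonneg (z : ℕ → ℕ) (m : ℕ) : 0 ≤ w z m := by
  unfold w
  split_ifs
  · exact div_nonneg (le_trans zero_le_one (W_ge _)) (Real.log_natCast_nonneg m)
  · exact le_rfl

theorem w_ge (z : ℕ → ℕ) (m : ℕ) (h : Rough z m) : 1 / Real.log m ≤ w z m := by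
  unfold w
  rw [if_pos h]
  exact div_le_div_of_nonneg_right (W_ge _) (Real.log_natCast_nonneg m)

open Classical in
theorem num (h1 : S_FLI) (z : ℕ → ℕ) (hz : Monotone z)
    (hz2 : ∀ᶠ n : ℕ in atTop, (z n : ℝ) ≤ Real.log n) :
    ∀ᶠ n : ℕ in atTop, 4 * Real.log n * Real.log ((2 * n : ℕ) : ℝ) ≤
      (((Ioc n (2 * n)).filter (fun m => Rough z m)).card : ℝ) := by
  obtain ⟨C, hC⟩ := h1 (1 / 2) (by norm_num)
  have ht : Tendsto (fun n : ℕ => 2 * n) atTop atTop :=
    tendsto_atTop_mono (fun n => by simp only [id]; omega) tendsto_id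
  have htr : Tendsto (fun n : ℕ => ((2 * n : ℕ) : ℝ)) atTop atTop :=
    tendsto_natCast_atTop_atTop.comp ht
  have e1 := ht.eventually hz2
  have hK : 0 < (1 / (2 * ((2 * (C : ℝ) + 8) * 2 ^ (C + 3))) : ℝ) := by positivity
  have e2 := htr.eventually ((Real.isLittleO_pow_log_id_atTop (n := C + 3)).def hK)
  have e3 : ∀ᶠ n : ℕ in atTop, (1 : ℝ) ≤ Real.log ((2 * n : ℕ) : ℝ) :=
    (Real.tendsto_log_atTop.comp htr).eventually (eventually_ge_atTop 1)
  filter_upwards [e1, e2, e3, eventually_ge_atTop 1] with n h2 h3 h4 hn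
  set L : ℝ := Real.log ((2 * n : ℕ) : ℝ) with hL
  have hn' : (1 : ℝ) ≤ n := by exact_mod_cast hn
  have hx : (((2 * n : ℕ) : ℝ)) = 2 * n := by push_cast; ring
  have h3' : L ^ (C + 3) ≤ 1 / (2 * ((2 * (C : ℝ) + 8) * 2 ^ (C + 3))) * (2 * n) := by
    have h5 : ‖L ^ (C + 3)‖ = L ^ (C + 3) := by
      rw [Real.norm_eq_abs, abs_of_nonneg (by positivity)]
    have h6 : ‖id ((2 * n : ℕ) : ℝ)‖ = 2 * n := by
      rw [id, hx, Real.norm_eq_abs, abs_of_nonneg (by positivity)]
    rw [h5, h6] at h3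
    exact h3
  have h7 : (2 * (C : ℝ) + 8) * (L + 1) ^ (C + 3) ≤ n := by
    have h8 : (L + 1) ^ (C + 3) ≤ 2 ^ (C + 3) * L ^ (C + 3) := by
      rw [← mul_pow]
      exact pow_le_pow_left₀ (by linarith) (by linarith) _
    have h9 : (2 * (C : ℝ) + 8) * (L + 1) ^ (C + 3) ≤
        (2 * (C : ℝ) + 8) * (2 ^ (C + 3) * (1 / (2 * ((2 * (C : ℝ) + 8) * 2 ^ (C + 3))) * (2 * n))) := by
      apply mul_le_mul_of_nonneg_left _ (by positivity)
      exact h8.trans (mul_le_mul_of_nonneg_left h3' (by positivity))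
    refine h9.trans (le_of_eq ?_)
    field_simp
  set v := z (2 * n) with hv
  have hW1 : 0 < W v := lt_of_lt_of_le zero_lt_one (W_ge v)
  have hWL : W v ≤ L + 1 := (W_le v).trans (by linarith)
  have hC' := hC v n n
  have hr : (n : ℝ) / (2 * (L + 1)) - C * (L + 1) ^ C ≤ (rgh v n n : ℝ) := by
    have h10 := (abs_le.1 hC').1
    have h11 : (n : ℝ) / (L + 1) ≤ n / W v := div_le_div_of_nonneg_left (by linarith) hW1 hWL
    have h12 : (C : ℝ) * ((v : ℝ) + 1) ^ C ≤ C * (L + 1) ^ C := by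
      apply mul_le_mul_of_nonneg_left _ (by positivity)
      exact pow_le_pow_left₀ (by positivity) (by linarith) _
    have h13 : (n : ℝ) / (2 * (L + 1)) = 1 / 2 * (n / (L + 1)) := by
      field_simp
    rw [h13]
    linarith
  have hcard : (rgh v n n : ℝ) ≤ (((Ioc n (2 * n)).filter (fun m => Rough z m)).card : ℝ) := by
    have : rgh v n n ≤ ((Ioc n (2 * n)).filter (fun m => Rough z m)).card := by
      unfold rgh
      apply Finset.card_le_card
      intro m hm
      rw [Finset.mem_filter, Finset.mem_Ioc] at hm ⊢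
      refine ⟨⟨hm.1.1, by omega⟩, ?_⟩
      intro q hq hqz
      exact hm.2 q hq (hqz.trans (hz (by omega)))
    exact_mod_cast this
  have hfin : 4 * Real.log n * L ≤ (n : ℝ) / (2 * (L + 1)) - C * (L + 1) ^ C := by
    have h14 : ((C : ℝ) + 4) * (L + 1) ^ (C + 2) ≤ (n : ℝ) / (2 * (L + 1)) := by
      rw [le_div_iff₀ (by linarith)]
      calc ((C : ℝ) + 4) * (L + 1) ^ (C + 2) * (2 * (L + 1))
          = (2 * (C : ℝ) + 8) * (L + 1) ^ (C + 3) := by ring
        _ ≤ n := h7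
    have h15 : (L + 1) ^ C ≤ (L + 1) ^ (C + 2) := pow_le_pow_right₀ (by linarith) (by omega)
    have h16 : (L + 1) ^ 2 ≤ (L + 1) ^ (C + 2) := pow_le_pow_right₀ (by linarith) (by omega)
    have h17 : Real.log n ≤ L := Real.log_le_log (by linarith) (by rw [hx]; linarith)
    have h18 : Real.log n * L ≤ (L + 1) ^ 2 := by nlinarith
    have h19 : (C : ℝ) * (L + 1) ^ C ≤ C * (L + 1) ^ (C + 2) :=
      mul_le_mul_of_nonneg_left h15 (by positivity)
    linarith
  linarith

end CRU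

/-- almost surely every interval `(n, 2n]`, `n` large, contains a chosen integer -/
theorem t_CRU (h1 : S_FLI) (h2 : S_PU) (h3 : S_RB) : S_CRU := by
  classical
  intro Ω mΩ μ _ ℱ S z hM hz hz2
  set l : ℕ → ℝ := fun m => min 1 (w z m / 2) with hl
  have hl0 : ∀ m, 0 ≤ l m := fun m => le_min zero_le_one (by have := CRU.w_nonneg z m; linarith)
  have hl1 : ∀ m, l m ≤ 1 := fun m => min_le_left _ _
  set P : ℕ → Ω → Prop := fun n ω =>
    (∀ m ∈ Ioc n (2 * n), l m ≤ q μ ℱ S m ω) ∧ ∀ m ∈ Ioc n (2 * n), ω ∉ S m with hP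
  have hbound : ∀ᶠ n : ℕ in atTop, μ.real {ω | P n ω} ≤ 1 / (n : ℝ) ^ 2 := by
    have htr : Tendsto (fun n : ℕ => ((2 * n : ℕ) : ℝ)) atTop atTop :=
      tendsto_natCast_atTop_atTop.comp
        (tendsto_atTop_mono (fun n => by simp only [id]; omega) tendsto_id)
    have e3 : ∀ᶠ n : ℕ in atTop, (1 : ℝ) ≤ Real.log ((2 * n : ℕ) : ℝ) :=
      (Real.tendsto_log_atTop.comp htr).eventually (eventually_ge_atTop 1)
    filter_upwards [CRU.num h1 z hz hz2, e3, eventually_ge_atTop 2] with n hn hL hn1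
    have hnpos : (0 : ℝ) < n := by exact_mod_cast (by omega : 0 < n)
    set L : ℝ := Real.log ((2 * n : ℕ) : ℝ) with hLdef
    have hp := h2 μ ℱ S hM.adapted (Ioc n (2 * n)) l (by simp) (fun m _ => ⟨hl0 m, hl1 m⟩)
    refine hp.trans ?_
    have h4 : ∏ m ∈ Ioc n (2 * n), (1 - l m) ≤ Real.exp (-∑ m ∈ Ioc n (2 * n), l m) := by
      rw [← Finset.sum_neg_distrib, Real.exp_sum]
      apply Finset.prod_le_prod
      · intro m _
        linarith [hl1 m]
      · intro m _
        linarith [Real.add_one_le_exp (-l m)]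
    refine h4.trans ?_
    have h5 : 2 * Real.log n ≤ ∑ m ∈ Ioc n (2 * n), l m := by
      have h6 : ∑ m ∈ (Ioc n (2 * n)).filter (fun m => Rough z m), l m ≤ ∑ m ∈ Ioc n (2 * n), l m :=
        Finset.sum_le_sum_of_subset_of_nonneg (Finset.filter_subset _ _) (fun m _ _ => hl0 m)
      refine le_trans ?_ h6
      have h7 : ∑ _m ∈ (Ioc n (2 * n)).filter (fun m => Rough z m), (1 / (2 * L)) ≤
          ∑ m ∈ (Ioc n (2 * n)).filter (fun m => Rough z m), l m := by
        apply Finset.sum_le_sum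
        intro m hm
        rw [Finset.mem_filter, Finset.mem_Ioc] at hm
        have hm2 : (2 : ℝ) ≤ (m : ℝ) := by exact_mod_cast (by omega : 2 ≤ m)
        have hmpos : 0 < Real.log m := Real.log_pos (by linarith)
        have h8 : Real.log m ≤ L := Real.log_le_log (by linarith) (by exact_mod_cast hm.1.2)
        have h9 : 1 / L ≤ 1 / Real.log m := one_div_le_one_div_of_le hmpos h8
        have h10 := CRU.w_ge z m hm.2
        have h11 : 1 / (2 * L) = (1 / L) / 2 := by field_simp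
        apply le_min
        · rw [div_le_one (by linarith)]
          linarith
        · rw [h11]
          linarith
      refine le_trans ?_ h7
      rw [Finset.sum_const, nsmul_eq_mul, mul_one_div, le_div_iff₀ (by linarith)]
      calc 2 * Real.log n * (2 * L) = 4 * Real.log n * L := by ring
        _ ≤ _ := hn
    calc Real.exp (-∑ m ∈ Ioc n (2 * n), l m) ≤ Real.exp (-(2 * Real.log n)) :=
          Real.exp_le_exp.2 (by linarith)
      _ = 1 / (n : ℝ) ^ 2 := by
          rw [Real.exp_neg, two_mul, Real.exp_add, Real.exp_log hnpos]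
          rw [one_div, sq]
  have hsum : Summable (fun n : ℕ => μ.real {ω | P n ω}) := by
    apply Summable.of_norm_bounded_eventually_nat (g := fun n : ℕ => 1 / (n : ℝ) ^ 2)
      (Real.summable_one_div_nat_pow.2 (by norm_num))
    filter_upwards [hbound] with n hn
    rw [Real.norm_eq_abs, abs_of_nonneg measureReal_nonneg]
    exact hn
  have htop : ∑' n, μ {ω | P n ω} ≠ ⊤ := by
    have h4 := hsum.tsum_ofReal_ne_top
    have h5 : ∀ n, ENNReal.ofReal (μ.real {ω | P n ω}) = μ {ω | P n ω} := fun n => ofReal_measureReal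
    simpa only [h5] using h4
  have hbc := measure_setOfPred_frequently_eq_zero htop
  have hae : ∀ᵐ ω ∂μ, ¬ ∃ᶠ n in atTop, P n ω := by
    rw [ae_iff]
    simpa only [not_not] using hbc
  filter_upwards [hae, h3 μ ℱ S z hM (1 / 2) (by norm_num) (by norm_num)] with ω hω1 hω2
  rw [not_frequently] at hω1
  obtain ⟨N, hN⟩ := eventually_atTop.1 hω2
  filter_upwards [hω1, eventually_ge_atTop N] with n hn hnN
  by_contra hcon
  apply hn
  refine ⟨?_, ?_⟩
  · intro m hm
    have h4 := (hN m (by have := (Finset.mem_Ioc.1 hm).1; omega)).1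
    refine (min_le_right _ _).trans ?_
    linarith
  · intro m hm hmS
    exact hcon ⟨m, hm, hmS⟩

end Pool.Agent.J6H39.RS
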