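import Pool.Agent.J6H39.RS.Stm

set_option autoImplicit false

/-!
# Module DET: the deterministic part
-/

namespace Pool.Agent.J6H39.RS

open MeasureTheory Filter Finset
open scoped Topology

/-- the `m` in the definition of `pS` -/
def DETset (T : Set ℕ) (g : ℕ) : Set ℕ := {m | m ∈ T ∧ g < m ∧ ∀ j : ℕ, m - g ≤ j → j < m → j ∉ T}

theorem DET_one (T : Set ℕ) (hT : ∀ᶠ n : ℕ in atTop, ∃ m ∈ Ioc n (2 * n), m ∈ T) (c : ℝ)
    (h : ∀ᶠ g : ℕ in atTop, ∃ a : ℕ, XX c g ≤ 2 * a ∧ a + g ≤ XX c g ∧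
      ∀ m ∈ Ioc a (a + g), m ∉ T) :
    ∀ᶠ g : ℕ in atTop, pS T g ∈ DETset T g ∧ pS T g ≤ 2 * XX c g := by
  classical
  obtain ⟨N, hN⟩ := eventually_atTop.1 hT
  filter_upwards [h, eventually_ge_atTop N] with g hg hgN
  obtain ⟨a, h1, h2, h3⟩ := hg
  obtain ⟨m0, hm0, hm0T⟩ := hN (a + g) (by omega)
  rw [mem_Ioc] at hm0
  have hex : ∃ m, a + g < m ∧ m ∈ T := ⟨m0, hm0.1, hm0T⟩
  have hf := Nat.find_spec hex
  have hmin : Nat.find hex ≤ m0 := Nat.find_min' hex ⟨hm0.1, hm0T⟩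
  have hmem : Nat.find hex ∈ DETset T g := by
    refine ⟨hf.2, by omega, ?_⟩
    intro j hj1 hj2 hj3
    by_cases hj : a + g < j
    · exact Nat.find_min hex hj2 ⟨hj, hj3⟩
    · exact h3 j (mem_Ioc.2 ⟨by omega, by omega⟩) hj3
  have hle : pS T g ≤ Nat.find hex := Nat.sInf_le hmem
  refine ⟨Nat.sInf_mem (s := DETset T g) ⟨_, hmem⟩, ?_⟩
  omega

theorem DET_upper (T : Set ℕ) (c : ℝ) (hc : 0 < c) (g : ℕ) (h1 : pS T g ∈ DETset T g)
    (h2 : pS T g ≤ 2 * XX c g) : Real.log (pS T g) ≤ c * √(g : ℝ) + Real.log 2 := by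
  have h3 : 0 < pS T g := lt_of_le_of_lt (Nat.zero_le _) h1.2.1
  have h4 : (XX c g : ℝ) ≤ Real.exp (c * √(g : ℝ)) := by
    unfold XX
    exact Nat.floor_le (Real.exp_pos _).le
  have h5 : (pS T g : ℝ) ≤ 2 * Real.exp (c * √(g : ℝ)) := by
    have h6 : (pS T g : ℝ) ≤ ((2 * XX c g : ℕ) : ℝ) := by exact_mod_cast h2
    push_cast at h6
    linarith
  have h7 := Real.log_le_log (by exact_mod_cast h3) h5
  rw [Real.log_mul (by norm_num) (Real.exp_pos _).ne', Real.log_exp] at h7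
  linarith

theorem DET_lower (T : Set ℕ) (c : ℝ) (hc : 0 < c)
    (hT : ∀ᶠ n : ℕ in atTop, ∃ m ∈ Ioc n (n + ⌊c * Real.log n ^ 2⌋₊), m ∈ T)
    (hS : ∀ᶠ g : ℕ in atTop, pS T g ∈ DETset T g) :
    ∀ᶠ g : ℕ in atTop, (√c)⁻¹ ≤ Real.log (pS T g) / √(g : ℝ) := by
  obtain ⟨N, hN⟩ := eventually_atTop.1 hT
  filter_upwards [hS, eventually_ge_atTop (N + ⌊c * Real.log N ^ 2⌋₊ + 1)] with g hg hgN
  obtain ⟨h1, h2, h3⟩ := hg
  obtain ⟨m, hm⟩ : ∃ m, m = pS T g := ⟨_, rfl⟩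
  rw [← hm] at h1 h2 h3 ⊢
  obtain ⟨n, hn⟩ : ∃ n, n = m - g - 1 := ⟨_, rfl⟩
  have hnN : N ≤ n := by
    by_contra hlt
    obtain ⟨m', hm', hm'T⟩ := hN N le_rfl
    rw [mem_Ioc] at hm'
    exact h3 m' (by omega) (by omega) hm'T
  obtain ⟨m', hm', hm'T⟩ := hN n hnN
  rw [mem_Ioc] at hm'
  have hmm : m ≤ m' := by
    by_contra hlt
    exact h3 m' (by omega) (by omega) hm'T
  have hg1 : g ≤ ⌊c * Real.log n ^ 2⌋₊ := by omega
  have hg2 : (g : ℝ) ≤ c * Real.log n ^ 2 :=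
    (by exact_mod_cast hg1 : (g : ℝ) ≤ (⌊c * Real.log n ^ 2⌋₊ : ℝ)).trans
      (Nat.floor_le (by positivity))
  have hg0 : (0 : ℝ) < (g : ℝ) := by
    have h4 : 0 < g := by omega
    exact_mod_cast h4
  have hlog : Real.log (n : ℝ) ≤ Real.log (m : ℝ) := by
    rcases Nat.eq_zero_or_pos n with h0 | h0
    · rw [h0]
      simp only [Nat.cast_zero, Real.log_zero]
      exact Real.log_natCast_nonneg m
    · exact Real.log_le_log (by exact_mod_cast h0) (by exact_mod_cast (by omega : n ≤ m))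
  have hlog0 : 0 ≤ Real.log (n : ℝ) := Real.log_natCast_nonneg n
  have hg3 : (g : ℝ) ≤ c * Real.log m ^ 2 := by
    refine hg2.trans (mul_le_mul_of_nonneg_left ?_ hc.le)
    exact pow_le_pow_left₀ hlog0 hlog 2
  have hg4 : √(g : ℝ) ≤ √c * Real.log m := by
    calc √(g : ℝ) ≤ √(c * Real.log m ^ 2) := Real.sqrt_le_sqrt hg3
      _ = √c * Real.log m := by
        rw [Real.sqrt_mul hc.le, Real.sqrt_sq (hlog0.trans hlog)]
  have hsg : 0 < √(g : ℝ) := Real.sqrt_pos.2 hg0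
  have hsc : 0 < √c := Real.sqrt_pos.2 hc
  rw [le_div_iff₀ hsg, inv_mul_le_iff₀ hsc]
  exact hg4

theorem t_DET : S_DET := by
  intro T hT
  refine ⟨?_, ?_⟩
  · intro c hc h
    filter_upwards [DET_one T hT c h] with g hg
    exact DET_upper T c hc g hg.1 hg.2
  · intro h1 h2
    have hk0 : Tendsto (fun k : ℕ => 1 + 1 / ((k : ℝ) + 1)) atTop (𝓝 (1 + 0)) :=
      (tendsto_const_nhds (x := (1 : ℝ))).add tendsto_one_div_add_atTop_nhds_zero_nat
    have hS : ∀ᶠ g : ℕ in atTop, pS T g ∈ DETset T g := by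
      filter_upwards [DET_one T hT _ (h1 0)] with g hg
      exact hg.1
    have hsq : Tendsto (fun g : ℕ => √(g : ℝ)) atTop atTop :=
      Real.tendsto_sqrt_atTop.comp tendsto_natCast_atTop_atTop
    rw [tendsto_order]
    refine ⟨?_, ?_⟩
    · intro a ha
      have hk1 : Tendsto (fun k : ℕ => (√(1 + 1 / ((k : ℝ) + 1)))⁻¹) atTop (𝓝 (√(1 + 0))⁻¹) := by
        have h3 := (Real.continuous_sqrt.tendsto ((1 : ℝ) + 0)).comp hk0
        exact h3.inv₀ (by simp)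
      have hk2 : ∀ᶠ k : ℕ in atTop, a < (√(1 + 1 / ((k : ℝ) + 1)))⁻¹ := by
        apply hk1.eventually_const_lt
        simpa using ha
      obtain ⟨k, hk⟩ := hk2.exists
      filter_upwards [DET_lower T (1 + 1 / ((k : ℝ) + 1)) (by positivity) (h2 k) hS] with g hg
      exact hk.trans_le hg
    · intro b hb
      have hk2 : ∀ᶠ k : ℕ in atTop, 1 + 1 / ((k : ℝ) + 1) < (1 + b) / 2 := by
        apply hk0.eventually_lt_const
        linarith
      obtain ⟨k, hk⟩ := hk2.exists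
      have hl : Tendsto (fun g : ℕ => Real.log 2 / √(g : ℝ)) atTop (𝓝 0) :=
        tendsto_const_nhds.div_atTop hsq
      have hl2 : ∀ᶠ g : ℕ in atTop, Real.log 2 / √(g : ℝ) < (b - 1) / 2 := by
        apply hl.eventually_lt_const
        linarith
      filter_upwards [DET_one T hT _ (h1 k), hl2, eventually_gt_atTop 0] with g hg hg2 hg3
      have h4 := DET_upper T _ (by positivity) g hg.1 hg.2
      have hsg : 0 < √(g : ℝ) := Real.sqrt_pos.2 (by exact_mod_cast hg3)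
      have h5 : Real.log (pS T g) / √(g : ℝ) ≤
          ((1 + 1 / ((k : ℝ) + 1)) * √(g : ℝ) + Real.log 2) / √(g : ℝ) :=
        div_le_div_of_nonneg_right h4 hsg.le
      have h6 : ((1 + 1 / ((k : ℝ) + 1)) * √(g : ℝ) + Real.log 2) / √(g : ℝ) =
          (1 + 1 / ((k : ℝ) + 1)) + Real.log 2 / √(g : ℝ) := by
        rw [add_div, mul_div_assoc, div_self hsg.ne', mul_one]
      linarith

end Pool.Agent.J6H39.RS
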