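import Pool.Agent.J6H39.RS.Stm

set_option autoImplicit false

/-!
# Project RS (helper39): relative versions (a set `A` of admissible `g`), small changes of the first statements

They give the full characterisation: for nondecreasing `z(n) ≤ (log n)^(1-ε)` Shanks' law holds almost surely if and
only if `z(n) = (log n)^(o(1))`.
-/

namespace Pool.Agent.J6H39.RS

open MeasureTheory Filter Finset
open scoped Topology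

/-- as `Many`, for the `g ∈ A` only -/
def ManyA (A : Set ℕ) (z : ℕ → ℕ) (κ c : ℝ) : Prop := ∀ η : ℝ, 0 < η → ∀ᶠ g : ℕ in atTop, g ∈ A →
  ∃ J : Finset ℕ,
  (∀ a ∈ J, XX c g ≤ 2 * a ∧ a + g ≤ XX c g) ∧
  (∀ a ∈ J, ∀ b ∈ J, a ≠ b → a + g ≤ b ∨ b + g ≤ a) ∧
  (XX c g : ℝ) ^ (1 - η) ≤ (J.card : ℝ) ∧
  ∀ a ∈ J, ∑ m ∈ Ioc a (a + g), w z m ≤ (κ + η) * (g / Real.log (XX c g))

/-- as `S_ARB`; the lower bound for `z` is used only through `g^(1/k) ≤ z(m)` for `m ≥ X/2`: here it is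
`g^ε ≤ z(⌊X/2⌋)`, `1/k < ε`. -/
def S_ARB2 : Prop := S_IRR → ∀ ε : ℝ, 0 < ε → ∃ δ : ℝ, 0 < δ ∧ δ < 1 ∧ ∀ z : ℕ → ℕ, Monotone z →
  (∀ᶠ n : ℕ in atTop, (z n : ℝ) ≤ Real.log n ^ (1 - ε)) →
  ∀ c : ℝ, 0 < c → ManyA {g : ℕ | (g : ℝ) ^ ε ≤ (z (XX c g / 2) : ℝ)} z (1 - δ) c

/-- as `S_LOW`, same proof (the events of Borel-Cantelli are empty for `g ∉ A`) -/
def S_LOW2 : Prop := ∀ {Ω : Type} [mΩ : MeasurableSpace Ω] (μ : Measure Ω) [IsProbabilityMeasure μ]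
  (ℱ : Filtration ℕ mΩ) (S : ℕ → Set Ω) (z : ℕ → ℕ), IsModel μ ℱ S z →
  (∀ᶠ n : ℕ in atTop, (z n : ℝ) ≤ Real.log n) → ∀ (A : Set ℕ) (κ c : ℝ), 0 < κ → 0 < c → κ < c ^ 2 →
  ManyA A z κ c →
  ∀ᵐ ω ∂μ, ∀ᶠ g : ℕ in atTop, g ∈ A → ∃ a : ℕ, XX c g ≤ 2 * a ∧ a + g ≤ XX c g ∧
    ∀ m ∈ Ioc a (a + g), ω ∉ S m

/-- as the first part of `S_DET`, for each `g` separately -/
def S_DET2 : Prop := ∀ T : Set ℕ, (∀ᶠ n : ℕ in atTop, ∃ m ∈ Ioc n (2 * n), m ∈ T) →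
  ∀ c : ℝ, 0 < c → ∀ᶠ g : ℕ in atTop, (∃ a : ℕ, XX c g ≤ 2 * a ∧ a + g ≤ XX c g ∧
      ∀ m ∈ Ioc a (a + g), m ∉ T) →
    Real.log (pS T g) ≤ c * √(g : ℝ) + Real.log 2

/-- SCA: if the sieve is not small, there are arbitrarily large admissible `g`.

PROOF. Some `δ0 > 0` and infinitely many `n` with `z n > (log n)^δ0`. Let `ε ≤ δ0 / 3`. For such a large `n` take
`g` minimal with `XX c g ≥ 2 n`; then `c √(g - 1) ≤ log (2 n + 1)`, so `g^ε ≤ (2 (log n)²/c²)^ε ≤ (log n)^δ0` for large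
`n`, and `z (XX c g / 2) ≥ z n` by monotonicity; `g → ∞` as `n → ∞`. -/
def S_SCA : Prop := ∀ z : ℕ → ℕ, Monotone z → ¬ Small z → ∃ ε0 : ℝ, 0 < ε0 ∧ ∀ ε : ℝ, 0 < ε → ε ≤ ε0 →
  ∀ c : ℝ, 0 < c → ∃ᶠ g : ℕ in atTop, (g : ℝ) ^ ε ≤ (z (XX c g / 2) : ℝ)

/-- MAIN2: the final theorem. -/
def S_MAIN2 : Prop := ∀ ε : ℝ, 0 < ε → ∀ z : ℕ → ℕ, Monotone z →
    (∀ᶠ n : ℕ in atTop, (z n : ℝ) ≤ Real.log n ^ (1 - ε)) →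
    ∀ {Ω : Type} [mΩ : MeasurableSpace Ω] (μ : Measure Ω) [IsProbabilityMeasure μ]
      (ℱ : Filtration ℕ mΩ) (S : ℕ → Set Ω), IsModel μ ℱ S z →
      ((∀ᵐ ω ∂μ, Tendsto (fun g : ℕ => Real.log (pS {k | ω ∈ S k} g) / √(g : ℝ)) atTop (𝓝 1)) ↔ Small z) ∧
      (¬ Small z → ∃ c : ℝ, c < 1 ∧ ∀ᵐ ω ∂μ, ∃ᶠ g : ℕ in atTop,
        Real.log (pS {k | ω ∈ S k} g) ≤ c * √(g : ℝ))

end Pool.Agent.J6H39.RS
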