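import Pool.Agent.J6H39.RS.DET
import Pool.Agent.J6H39.RS.Stm2

/-! # Project RS: `S_DET2` (as the proof of helper33 for `S_DET`) -/

set_option autoImplicit false

namespace Pool.Agent.J6H39.RS

open MeasureTheory Filter Finset
open scoped Topology

theorem t_DET2 : S_DET2 := by
  classical
  intro T hT c hc
  obtain ⟨N, hN⟩ := eventually_atTop.1 hT
  filter_upwards [eventually_ge_atTop N] with g hgN hg
  obtain ⟨a, h1, h2, h3⟩ := hg
  obtain ⟨m0, hm0, hm0T⟩ := hN (a + g) (by omega)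
  rw [mem_Ioc] at hm0
  have hex : ∃ m, a + g < m ∧ m ∈ T := ⟨m0, hm0.1, hm0T⟩
  have hf := Nat.find_spec hex
  have hmin : Nat.find hex ≤ m0 := Nat.find_min' hex ⟨hm0.1, hm0T⟩
  have hmem : Nat.find hex ∈ DETset T g := by
    refine ⟨hf.2, by omega, ?_⟩
    intro j hj1 hj2 hj3
    by_cases hj : a + g < j
    · exact Nat.find_min hex hj2 ⟨hj, hj3⟩
    · exact h3 j (mem_Ioc.2 ⟨by omega, by omega⟩) hj3
  have hle : pS T g ≤ Nat.find hex := Nat.sInf_le hmem
  refine DET_upper T c hc g (Nat.sInf_mem (s := DETset T g) ⟨_, hmem⟩) ?_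
  omega

end Pool.Agent.J6H39.RS
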