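import Pool.Agent.J6H39.RS.Stm
import Pool.Agent.N136.QL.FLC

set_option autoImplicit false

/-!
# RS/FLI: the fundamental lemma for intervals
-/

namespace Pool.Agent.J6H39.RS

open Finset

namespace FLI

/-- the exponent of the double power -/
def JJ (y : ℕ) : ℕ := Nat.log 2 (Nat.log 2 y) + 1

lemma JJ_lt (y : ℕ) : y < 2 ^ 2 ^ JJ y := by
  have h1 : y < 2 ^ (Nat.log 2 y + 1) := Nat.lt_pow_succ_log_self (by norm_num) y
  have h2 : Nat.log 2 y + 1 ≤ 2 ^ JJ y := Nat.lt_pow_succ_log_self (by norm_num) _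
  exact h1.trans_le (Nat.pow_le_pow_right (by norm_num) h2)

lemma JJ_le (y : ℕ) (hy : 2 ≤ y) : 2 ^ 2 ^ JJ y ≤ y ^ 2 := by
  have h0 : Nat.log 2 y ≠ 0 := by
    have : 0 < Nat.log 2 y := Nat.log_pos (by norm_num) hy
    omega
  have h3 : 2 ^ JJ y ≤ 2 * Nat.log 2 y := by
    unfold JJ
    rw [pow_succ]
    have := Nat.pow_log_le_self 2 h0
    omega
  calc 2 ^ 2 ^ JJ y ≤ 2 ^ (2 * Nat.log 2 y) := Nat.pow_le_pow_right (by norm_num) h3
    _ = (2 ^ Nat.log 2 y) ^ 2 := by rw [← pow_mul, mul_comm]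
    _ ≤ y ^ 2 := Nat.pow_le_pow_left (Nat.pow_log_le_self 2 (by omega)) 2

lemma J_le (J : ℕ) : J + 2 ≤ 2 ^ 2 ^ J := by
  have h1 : J + 1 ≤ 2 ^ J := Nat.lt_two_pow_self
  have h2 : J + 2 ≤ 2 ^ (J + 1) := Nat.lt_two_pow_self
  exact h2.trans (Nat.pow_le_pow_right (by norm_num) h1)

end FLI

open FLI

theorem t_FLI : S_FLI := by
  classical
  intro δ hδ
  obtain ⟨C0, hC0, H⟩ := Pool.Agent.TH882.FL.fl1 1
  obtain ⟨b1, hb1⟩ := exists_pow_lt_of_lt_one hδ (by norm_num : (1 / 2 : ℝ) < 1)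
  obtain ⟨b, hb⟩ : ∃ b, b = max C0 b1 := ⟨_, rfl⟩
  have hbC : C0 ≤ b := hb ▸ le_max_left _ _
  have hbδ : (1 / 2 : ℝ) ^ b ≤ δ :=
    (pow_le_pow_of_le_one (by norm_num) (by norm_num) (hb ▸ le_max_right _ _)).trans hb1.le
  obtain ⟨K, hK⟩ : ∃ K, K = 2 * (1 + C0 * b * 2) := ⟨_, rfl⟩
  obtain ⟨K0, hK0⟩ : ∃ K0, K0 = C0 ^ C0 := ⟨_, rfl⟩
  refine ⟨max (K0 * 2 ^ K) K, ?_⟩
  intro z a L
  obtain ⟨J, hJ⟩ : ∃ J, J = JJ (z + 2) := ⟨_, rfl⟩
  have hJ1 : z + 2 < 2 ^ 2 ^ J := hJ ▸ JJ_lt (z + 2)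
  have hJ2 : 2 ^ 2 ^ J ≤ (z + 2) ^ 2 := hJ ▸ JJ_le (z + 2) (by omega)
  obtain ⟨Q, hQ⟩ : ∃ Q : Finset ℕ, Q = (Icc 1 z).filter (fun p => p.Prime ∧ p ≤ C0) := ⟨_, rfl⟩
  obtain ⟨T0, hT0⟩ : ∃ T0 : Finset ℕ, T0 = (Icc 1 z).filter (fun p => p.Prime ∧ C0 < p) := ⟨_, rfl⟩
  have hQm : ∀ p, p ∈ Q ↔ p ≤ z ∧ p.Prime ∧ p ≤ C0 := by
    intro p
    rw [hQ, mem_filter, mem_Icc]
    constructor
    · rintro ⟨⟨h1, h2⟩, h3, h5⟩
      exact ⟨h2, h3, h5⟩
    · rintro ⟨h1, h2, h3⟩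
      exact ⟨⟨h2.one_lt.le, h1⟩, h2, h3⟩
  have hTm : ∀ p, p ∈ T0 ↔ p ≤ z ∧ p.Prime ∧ C0 < p := by
    intro p
    rw [hT0, mem_filter, mem_Icc]
    constructor
    · rintro ⟨⟨h1, h2⟩, h3, h5⟩
      exact ⟨h2, h3, h5⟩
    · rintro ⟨h1, h2, h3⟩
      exact ⟨⟨h2.one_lt.le, h1⟩, h2, h3⟩
  obtain ⟨M0, hM0⟩ : ∃ M0, M0 = ∏ p ∈ Q, p := ⟨_, rfl⟩
  have hM0pos : 0 < M0 := by
    rw [hM0]
    exact Finset.prod_pos fun p hp => ((hQm p).1 hp).2.1.pos
  have hM0le : M0 ≤ K0 := by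
    rw [hM0, hK0]
    calc ∏ p ∈ Q, p ≤ ∏ p ∈ Q, C0 := Finset.prod_le_prod' fun p hp => ((hQm p).1 hp).2.2
      _ = C0 ^ Q.card := by rw [prod_const]
      _ ≤ C0 ^ C0 := by
        apply Nat.pow_le_pow_right (by omega)
        have : Q ⊆ Icc 1 C0 := fun p hp => by
          obtain ⟨h1, h2, h3⟩ := (hQm p).1 hp
          exact mem_Icc.2 ⟨h2.one_lt.le, h3⟩
        simpa using card_le_card this
  have hTM : ∀ p ∈ T0, p.Prime ∧ ¬ p ∣ M0 := by
    intro p hp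
    obtain ⟨h1, h2, h3⟩ := (hTm p).1 hp
    refine ⟨h2, fun h => ?_⟩
    rw [hM0, Prime.dvd_finsetProd_iff h2.prime] at h
    obtain ⟨q, hq, hpq⟩ := h
    obtain ⟨g1, g2, g3⟩ := (hQm q).1 hq
    have := (Nat.prime_dvd_prime_iff_eq h2 g2).1 hpq
    omega
  -- the good classes
  obtain ⟨G, hG⟩ : ∃ G : Finset ℕ, G = (range M0).filter (fun ν => ∀ p ∈ Q, ν % p ≠ 0) := ⟨_, rfl⟩
  have hGcard : G.card = ∏ p ∈ Q, (p - 1) := by
    have h1 := Pool.Agent.N136.QL.fl_goodcount 1 one_pos {0} (by simp) Q (fun _ => {0})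
      (fun p hp => ⟨((hQm p).1 hp).2.1, by
        have := ((hQm p).1 hp).2.1.one_lt
        intro h
        have := Nat.le_of_dvd one_pos h
        omega⟩)
      (fun p hp => by
        have := ((hQm p).1 hp).2.1.pos
        simpa using this)
    rw [one_mul, ← hM0] at h1
    simp only [Nat.mod_one, mem_singleton, true_and, card_singleton, one_mul] at h1
    rw [hG]
    exact h1
  have hGle : G.card ≤ K0 := by
    refine le_trans ?_ hM0le
    rw [hG]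
    exact (card_filter_le _ _).trans (by simp)
  obtain ⟨V, hV⟩ : ∃ V : ℝ, V = ∏ p ∈ T0, (1 - (1 : ℝ) / p) := ⟨_, rfl⟩
  obtain ⟨E, hE⟩ : ∃ E : ℝ, E = ((J : ℝ) + 2) * (((2 ^ 2 ^ J : ℕ) : ℝ) ^ (C0 * b)) ^ 2 := ⟨_, rfl⟩
  have hM0R : (0 : ℝ) < M0 := by exact_mod_cast hM0pos
  -- the sieve in one class
  obtain ⟨F, hF⟩ : ∃ F : ℕ → Finset ℕ, F = fun ν => ((Ioc a (a + L)).filter (fun n => n % M0 = ν)).filter
      (fun n => ∀ p ∈ T0, n % p ∉ ({0} : Finset ℕ)) := ⟨_, rfl⟩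
  have hcls : ∀ ν ∈ G, |((F ν).card : ℝ) - (L : ℝ) / M0 * V| ≤ (1 / 2 : ℝ) ^ b * ((L : ℝ) / M0 * V) + E := by
    intro ν hν
    have hνlt : ν < M0 := by
      rw [hG, mem_filter, mem_range] at hν
      exact hν.1
    have h1 := H b J C0 T0 (fun _ => {0}) hbC le_rfl
      (fun p hp => ⟨((hTm p).1 hp).2.1, ((hTm p).1 hp).2.2, by
        have := ((hTm p).1 hp).1
        omega⟩)
      (fun p hp => by simp)
      ((Ioc a (a + L)).filter (fun n => n % M0 = ν)) ((L : ℝ) / M0) (by positivity)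
      (fun T hT c' hc' => by
        have h1 := Pool.Agent.N136.QL.fl_classcount a (a + L) M0 ν hνlt (by omega) T c'
          (fun p hp => hTM p (hT hp)) (fun p hp => by
            have h2 := hc' p hp
            rw [mem_singleton] at h2
            rw [h2]
            exact ((hTM p (hT hp)).1).pos)
        have e1 : (L : ℝ) / M0 / ∏ p ∈ T, (p : ℝ) = (((a + L : ℕ) : ℝ) - a) / M0 * ∏ p ∈ T, (1 / (p : ℝ)) := by
          rw [Finset.prod_div_distrib, Finset.prod_const_one]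
          push_cast
          ring
        rw [e1]
        exact h1)
    simp only [card_singleton, Nat.cast_one] at h1
    rw [← hV, ← hE] at h1
    rw [hF]
    exact h1
  -- the sum over the classes
  have hsum : rgh z a L = ∑ ν ∈ G, (F ν).card := by
    have e1 : (Ioc a (a + L)).filter (fun m => ∀ q : ℕ, q.Prime → q ≤ z → ¬ q ∣ m) = G.biUnion F := by
      ext n
      rw [mem_filter, mem_biUnion]
      constructor
      · rintro ⟨h1, h2⟩
        refine ⟨n % M0, ?_, ?_⟩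
        · rw [hG, mem_filter, mem_range]
          refine ⟨Nat.mod_lt _ hM0pos, fun p hp h => ?_⟩
          have hpM : p ∣ M0 := hM0 ▸ Finset.dvd_prod_of_mem _ hp
          rw [Nat.mod_mod_of_dvd _ hpM] at h
          exact h2 p ((hQm p).1 hp).2.1 ((hQm p).1 hp).1 (Nat.dvd_of_mod_eq_zero h)
        · rw [hF, mem_filter, mem_filter]
          refine ⟨⟨h1, rfl⟩, fun p hp h => ?_⟩
          rw [mem_singleton] at h
          exact h2 p ((hTm p).1 hp).2.1 ((hTm p).1 hp).1 (Nat.dvd_of_mod_eq_zero h)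
      · rintro ⟨ν, hν, hn⟩
        rw [hF, mem_filter, mem_filter] at hn
        obtain ⟨⟨h1, h2⟩, h3⟩ := hn
        refine ⟨h1, fun q hq hqz hd => ?_⟩
        rcases le_or_gt q C0 with h4 | h4
        · have hqQ : q ∈ Q := (hQm q).2 ⟨hqz, hq, h4⟩
          have hqM : q ∣ M0 := hM0 ▸ Finset.dvd_prod_of_mem _ hqQ
          rw [hG, mem_filter] at hν
          apply hν.2 q hqQ
          rw [← h2, Nat.mod_mod_of_dvd _ hqM]
          exact Nat.mod_eq_zero_of_dvd hd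
        · have hqT : q ∈ T0 := (hTm q).2 ⟨hqz, hq, h4⟩
          apply h3 q hqT
          rw [mem_singleton]
          exact Nat.mod_eq_zero_of_dvd hd
    have e2 : rgh z a L = (G.biUnion F).card := by
      unfold rgh
      rw [← e1]
    rw [e2, card_biUnion]
    intro ν _ ν' _ hne
    rw [Function.onFun, Finset.disjoint_left]
    intro n hn hn'
    rw [hF, mem_filter, mem_filter] at hn hn'
    exact hne (hn.1.2.symm.trans hn'.1.2)
  -- the product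
  have hprod : (G.card : ℝ) * ((L : ℝ) / M0 * V) = L / W z := by
    have e1 : (G.card : ℝ) = (M0 : ℝ) * ∏ p ∈ Q, (1 - (1 : ℝ) / p) := by
      rw [hGcard, hM0]
      push_cast
      rw [← Finset.prod_mul_distrib]
      apply Finset.prod_congr rfl
      intro p hp
      have hp1 : 1 ≤ p := ((hQm p).1 hp).2.1.one_lt.le
      have hp0 : (p : ℝ) ≠ 0 := by
        have : 0 < p := hp1
        positivity
      push_cast [Nat.cast_sub hp1]
      field_simp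
    have e2 : (∏ p ∈ Q, (1 - (1 : ℝ) / p)) * V = (W z)⁻¹ := by
      rw [hV]
      unfold W
      rw [← Finset.prod_inv_distrib]
      have hdis : Disjoint Q T0 := by
        rw [Finset.disjoint_left]
        intro p hp hp'
        have := ((hQm p).1 hp).2.2
        have := ((hTm p).1 hp').2.2
        omega
      rw [← Finset.prod_union hdis]
      have hun : Q ∪ T0 = (Finset.Icc 1 z).filter Nat.Prime := by
        ext p
        rw [mem_union, hQm, hTm, mem_filter, mem_Icc]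
        constructor
        · rintro (⟨h1, h2, h3⟩ | ⟨h1, h2, h3⟩)
          · exact ⟨⟨h2.one_lt.le, h1⟩, h2⟩
          · exact ⟨⟨h2.one_lt.le, h1⟩, h2⟩
        · rintro ⟨⟨h1, h2⟩, h3⟩
          rcases le_or_gt p C0 with h4 | h4
          · exact Or.inl ⟨h2, h3, h4⟩
          · exact Or.inr ⟨h2, h3, h4⟩
      rw [hun]
      apply Finset.prod_congr rfl
      intro p _
      rw [inv_inv, one_div]
    rw [e1, div_eq_mul_inv (L : ℝ) (W z), ← e2]
    field_simp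
  have habs : |(rgh z a L : ℝ) - L / W z| ≤ (G.card : ℝ) * ((1 / 2 : ℝ) ^ b * ((L : ℝ) / M0 * V) + E) := by
    have e1 : (rgh z a L : ℝ) - L / W z = ∑ ν ∈ G, (((F ν).card : ℝ) - (L : ℝ) / M0 * V) := by
      rw [Finset.sum_sub_distrib, sum_const, nsmul_eq_mul, hprod, hsum]
      push_cast
      rfl
    rw [e1]
    refine (Finset.abs_sum_le_sum_abs _ _).trans ?_
    refine (Finset.sum_le_sum hcls).trans ?_
    rw [sum_const, nsmul_eq_mul]
  refine habs.trans ?_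
  have hWpos : 0 ≤ (L : ℝ) / W z := by
    apply div_nonneg (Nat.cast_nonneg _)
    unfold W
    apply Finset.prod_nonneg
    intro p hp
    have : (1 : ℝ) < p := by exact_mod_cast (mem_filter.1 hp).2.one_lt
    have : (p : ℝ)⁻¹ < 1 := inv_lt_one_of_one_lt₀ this
    exact inv_nonneg.2 (by linarith)
  have hEle : E ≤ (((z : ℝ) + 2)) ^ K := by
    have h1 : ((J : ℝ) + 2) ≤ ((2 ^ 2 ^ J : ℕ) : ℝ) := by exact_mod_cast J_le J
    have h2 : ((2 ^ 2 ^ J : ℕ) : ℝ) ≤ ((z : ℝ) + 2) ^ 2 := by exact_mod_cast hJ2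
    rw [hE]
    calc ((J : ℝ) + 2) * (((2 ^ 2 ^ J : ℕ) : ℝ) ^ (C0 * b)) ^ 2
        ≤ ((2 ^ 2 ^ J : ℕ) : ℝ) * (((2 ^ 2 ^ J : ℕ) : ℝ) ^ (C0 * b)) ^ 2 := by gcongr
      _ = ((2 ^ 2 ^ J : ℕ) : ℝ) ^ (1 + C0 * b * 2) := by ring
      _ ≤ (((z : ℝ) + 2) ^ 2) ^ (1 + C0 * b * 2) := by gcongr
      _ = _ := by rw [← pow_mul, hK]
  have hE0 : 0 ≤ E := by rw [hE]; positivity
  have hz0 : (0 : ℝ) ≤ z := Nat.cast_nonneg z
  have hz2 : ((z : ℝ) + 2) ^ K ≤ 2 ^ K * ((z : ℝ) + 1) ^ K := by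
    rw [← mul_pow]
    apply pow_le_pow_left₀ (by positivity)
    linarith
  have hfin : (G.card : ℝ) * E ≤ ((max (K0 * 2 ^ K) K : ℕ) : ℝ) * ((z : ℝ) + 1) ^ (max (K0 * 2 ^ K) K) := by
    have h1 : (G.card : ℝ) ≤ K0 := by exact_mod_cast hGle
    have h2 : ((K0 * 2 ^ K : ℕ) : ℝ) ≤ ((max (K0 * 2 ^ K) K : ℕ) : ℝ) := by
      exact_mod_cast le_max_left _ _
    have h3 : ((z : ℝ) + 1) ^ K ≤ ((z : ℝ) + 1) ^ (max (K0 * 2 ^ K) K) :=
      pow_le_pow_right₀ (by linarith) (le_max_right _ _)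
    calc (G.card : ℝ) * E ≤ K0 * (2 ^ K * ((z : ℝ) + 1) ^ K) := by
          apply mul_le_mul h1 (hEle.trans hz2) hE0 (Nat.cast_nonneg _)
      _ = ((K0 * 2 ^ K : ℕ) : ℝ) * ((z : ℝ) + 1) ^ K := by push_cast; ring
      _ ≤ _ := by
          apply mul_le_mul h2 h3 (by positivity) (Nat.cast_nonneg _)
  have hmain : (G.card : ℝ) * ((1 / 2 : ℝ) ^ b * ((L : ℝ) / M0 * V)) ≤ δ * (L / W z) := by
    calc (G.card : ℝ) * ((1 / 2 : ℝ) ^ b * ((L : ℝ) / M0 * V))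
        = (1 / 2 : ℝ) ^ b * ((G.card : ℝ) * ((L : ℝ) / M0 * V)) := by ring
      _ = (1 / 2 : ℝ) ^ b * (L / W z) := by rw [hprod]
      _ ≤ δ * (L / W z) := mul_le_mul_of_nonneg_right hbδ hWpos
  rw [mul_add]
  linarith

end Pool.Agent.J6H39.RS
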