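import Pool.Agent.J6H39.RS.Stm
import Pool.Agent.J6H13.MF.Cnt

set_option autoImplicit false

/-!
# Module RS-IRR: Maier type irregularity
-/

namespace Pool.Agent.J6H39.RS

open Finset Filter Topology
open Pool.Agent.N610.MS
open Pool.Agent.N610.MS.CNTaux
open Pool.Agent.J6H13.MF

theorem t_IRR : S_IRR := by
  intro k hodd
  have hk1 : 1 ≤ k := hodd.pos
  have hkR : (1 : ℝ) ≤ k := by exact_mod_cast hk1
  have hkpos : (0 : ℝ) < k := by linarith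
  obtain ⟨M, hMd⟩ : ∃ M : ℝ, M = (k : ℝ) + 1 := ⟨_, rfl⟩
  have hMR : (k : ℝ) + 1 ≤ M := hMd.ge
  have hM0 : (2 : ℝ) ≤ M := by linarith
  obtain ⟨s0, hs0d⟩ : ∃ s0 : ℝ, s0 = 1 / (32 * M) := ⟨_, rfl⟩
  have hs0 : 0 < s0 := by rw [hs0d]; positivity
  have hs64 : s0 ≤ 1 / 64 := by
    rw [hs0d]
    apply one_div_le_one_div_of_le (by norm_num)
    linarith
  have hsk : ((k : ℝ) + 1) * s0 ≤ 1 / 2 := by
    rw [hs0d, mul_one_div, div_le_iff₀ (by positivity)]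
    linarith
  obtain ⟨δ, hδ⟩ : ∃ δ : ℝ, δ = s0 ^ (k + 1) / (4 * (k + 1).factorial) := ⟨_, rfl⟩
  have hδpos : 0 < δ := by rw [hδ]; positivity
  have hδ1 : δ ≤ 1 := by
    rw [hδ, div_le_one (by positivity)]
    have h1 : s0 ^ (k + 1) ≤ 1 := pow_le_one₀ hs0.le (by linarith)
    have h2 : (1 : ℝ) ≤ (k + 1).factorial := by exact_mod_cast Nat.one_le_iff_ne_zero.2 (Nat.factorial_ne_zero _)
    linarith
  obtain ⟨E, hE⟩ : ∃ E : ℝ, E = Real.exp (-s0) := ⟨_, rfl⟩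
  have hE1 : 1 - s0 ≤ E := by
    rw [hE]
    linarith [Real.add_one_le_exp (-s0)]
  have hE2 : E < 1 := by
    rw [hE, ← Real.exp_zero]
    exact Real.exp_lt_exp.mpr (by linarith)
  have hEpos : 0 < E := by rw [hE]; exact Real.exp_pos _
  have hlog : Real.log (1 / E) = s0 := by
    rw [one_div, hE, Real.log_inv, Real.log_exp, neg_neg]
  obtain ⟨β, hβ0, hβ1, hβ2, hβ3⟩ : ∃ β : ℝ, 0 < β ∧ β ≤ δ / 6 ∧ β ≤ δ / (4 * 1) ∧ β ≤ 1 :=
    ⟨min (δ / 6) (min (δ / (4 * 1)) 1), by positivity, min_le_left _ _,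
      (min_le_right _ _).trans (min_le_left _ _), (min_le_right _ _).trans (min_le_right _ _)⟩
  obtain ⟨μ, hμ0, hμ1, hμ2⟩ : ∃ μ : ℝ, 0 < μ ∧ μ ≤ s0 * (1 / (8 * ((k : ℝ) + 2))) / 3 ∧
      μ ≤ δ / 6 / ((k : ℝ) + 1) :=
    ⟨min (s0 * (1 / (8 * ((k : ℝ) + 2))) / 3) (δ / 6 / ((k : ℝ) + 1)), by positivity,
      min_le_left _ _, min_le_right _ _⟩
  have hev := blockz E μ β s0 hEpos hE2 hlog hμ0 hβ0
  obtain ⟨z0, hz0⟩ := eventually_atTop.1 hev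
  refine ⟨δ, E, hδpos, hδ1, hEpos, hE2, ?_⟩
  have T1 : ∀ᶠ g : ℕ in atTop, z0 ≤ (g : ℝ) ^ ((1 : ℝ) / k) :=
    ((tendsto_rpow_atTop (by positivity)).comp tendsto_natCast_atTop_atTop).eventually_ge_atTop _
  filter_upwards [T1, eventually_ge_atTop 1] with g t1 hg1
  have hypos : (0 : ℝ) < g := by exact_mod_cast hg1
  obtain ⟨z, hzd⟩ : ∃ z : ℝ, z = (g : ℝ) ^ ((1 : ℝ) / k) := ⟨_, rfl⟩
  rw [← hzd] at t1
  have hzk : z ^ k = g := by
    rw [hzd, ← Real.rpow_natCast, ← Real.rpow_mul hypos.le, one_div, inv_mul_cancel₀ hkpos.ne',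
      Real.rpow_one]
  obtain ⟨f1, f3, f6, f7⟩ := hz0 z t1
  have hz : 0 < z := by linarith
  have hzE : (g : ℝ) ^ (E / k) = z ^ E := by
    rw [hzd, ← Real.rpow_mul hypos.le]
    congr 1
    ring
  have hPP : PP k E g = (Ioc ⌊z ^ E⌋₊ ⌊z⌋₊).filter Nat.Prime := by
    unfold PP
    rw [hzE, ← hzd]
  obtain ⟨P, hPdef⟩ : ∃ P : Finset ℕ, P = PP k E g := ⟨_, rfl⟩
  rw [← hPdef]
  rw [hPP] at hPdef
  rw [← hPdef] at f1
  have hw : 0 < z ^ E := Real.rpow_pos_of_pos hz _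
  have hMlt : ∀ p : ℕ, ⌊z ^ E⌋₊ < p → z ^ E ≤ (p : ℝ) := by
    intro p hp
    exact ((Nat.floor_lt hw.le).mp hp).le
  have hPmem : ∀ p ∈ P, ⌊z ^ E⌋₊ < p ∧ p ≤ ⌊z⌋₊ ∧ p.Prime := by
    intro p hp
    rw [hPdef, mem_filter, mem_Ioc] at hp
    exact ⟨hp.1.1, hp.1.2, hp.2⟩
  rw [abs_le] at f1
  have hpos3 : 0 < s0 * (1 / (8 * ((k : ℝ) + 2))) := by positivity
  have hlo : s0 * (1 - 1 / (8 * ((k : ℝ) + 2))) ≤ ∑ p ∈ P, 1 / (p : ℝ) := by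
    linarith [f1.1]
  have hhi : ∑ p ∈ P, 1 / (p : ℝ) ≤ s0 * (1 + 1 / (8 * ((k : ℝ) + 2))) := by
    linarith [f1.2]
  have hs1 : ∑ p ∈ P, 1 / (p : ℝ) ≤ 1 := by
    have h3 : 1 / (8 * ((k : ℝ) + 2)) ≤ 1 := by
      rw [div_le_one (by positivity)]
      linarith
    have h4 : s0 * (1 + 1 / (8 * ((k : ℝ) + 2))) ≤ 1 / 4 * (1 + 1) :=
      mul_le_mul (by linarith) (by linarith) (by positivity) (by norm_num)
    linarith
  have hQ : ((k : ℝ) + 1) * ∑ p ∈ P, (1 / (p : ℝ)) ^ 2 ≤ δ / 6 := by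
    have h3 : ∑ p ∈ P, (1 / (p : ℝ)) ^ 2 ≤ μ := by
      calc ∑ p ∈ P, (1 / (p : ℝ)) ^ 2 ≤ ∑ p ∈ P, (1 / (p : ℝ)) * (1 / z ^ E) := by
            apply sum_le_sum
            intro p hp
            rw [sq]
            apply mul_le_mul_of_nonneg_left _ (by positivity)
            exact one_div_le_one_div_of_le hw (hMlt p (hPmem p hp).1)
        _ = (∑ p ∈ P, 1 / (p : ℝ)) * (1 / z ^ E) := by rw [sum_mul]
        _ ≤ 1 * (1 / z ^ E) := mul_le_mul_of_nonneg_right hs1 (by positivity)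
        _ ≤ μ := by rw [one_mul]; exact f3
    have h4 : ((k : ℝ) + 1) * (δ / 6 / ((k : ℝ) + 1)) = δ / 6 := by field_simp
    calc ((k : ℝ) + 1) * ∑ p ∈ P, (1 / (p : ℝ)) ^ 2 ≤ ((k : ℝ) + 1) * (δ / 6 / ((k : ℝ) + 1)) :=
          mul_le_mul_of_nonneg_left (h3.trans hμ2) (by linarith)
      _ = δ / 6 := h4
  have hcard : (P.card : ℝ) + 1 ≤ β * z := by
    refine le_trans ?_ f6
    have h3 : P.card ≤ ((Ioc 0 ⌊z⌋₊).filter Nat.Prime).card := by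
      apply card_le_card
      intro p hp
      obtain ⟨g1, g2, g3⟩ := hPmem p hp
      rw [mem_filter, mem_Ioc]
      exact ⟨⟨by omega, g2⟩, g3⟩
    have h4 : (P.card : ℝ) ≤ (((Ioc 0 ⌊z⌋₊).filter Nat.Prime).card : ℝ) := by exact_mod_cast h3
    linarith
  have hpowcard : ∀ j : ℕ, 1 ≤ j → ((P.card : ℝ) + 1) ^ j ≤ β * z ^ j := by
    intro j hj
    calc ((P.card : ℝ) + 1) ^ j ≤ (β * z) ^ j := pow_le_pow_left₀ (by positivity) hcard _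
      _ = β ^ j * z ^ j := mul_pow _ _ _
      _ ≤ β * z ^ j := by
          apply mul_le_mul_of_nonneg_right _ (by positivity)
          calc β ^ j ≤ β ^ 1 := pow_le_pow_of_le_one hβ0.le hβ3 hj
            _ = β := pow_one _
  have hca : ((P.card : ℝ) + 1) ^ k ≤ β * (g : ℝ) := by
    rw [← hzk]; exact hpowcard k hk1
  have hcc : ((P.card : ℝ) + 1) ^ (k + 1) ≤ β * z ^ (k + 1) := hpowcard (k + 1) (by omega)
  have hac : (g : ℝ) ≤ z ^ (k + 1) := by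
    rw [pow_succ, hzk]
    nlinarith
  have hT : ∀ T ∈ P.powersetCard (k + 1), (g : ℝ) < ∏ p ∈ T, (p : ℝ) := by
    intro T hT
    obtain ⟨hT1, hT2⟩ := mem_powersetCard.mp hT
    have h3 : (z ^ E) ^ (k + 1) ≤ ∏ p ∈ T, (p : ℝ) := by
      rw [← hT2, ← prod_const]
      apply prod_le_prod (fun _ _ => hw.le)
      intro p hp
      exact hMlt p (hPmem p (hT1 hp)).1
    refine lt_of_lt_of_le ?_ h3
    rw [← hzk, ← Real.rpow_natCast, ← Real.rpow_natCast, ← Real.rpow_mul hz.le]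
    apply Real.rpow_lt_rpow_of_exponent_lt f7
    have h4 : ((k : ℝ) + 1) * E ≥ k + 1 / 2 := by
      have h6 := mul_le_mul_of_nonneg_left hE1 (by linarith : (0 : ℝ) ≤ (k : ℝ) + 1)
      linarith
    push_cast
    linarith
  have hσ : (-1 : ℝ) = (-1) ^ k := (hodd.neg_one_pow).symm
  obtain ⟨c1, c2, c3, c4⟩ := core t_BON (t_LEG t_BON) P (fun p hp => (hPmem p hp).2.2) k hk1 (-1)
    s0 1 β δ g g (z ^ (k + 1)) hσ hs0 (by linarith) one_pos (by linarith) hδ hlo hhi hQ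
    hβ0.le hβ1 hβ2 hypos hca hac hcc hT
  have c5 := c2 g le_rfl le_rfl
  have hprod : ∏ p ∈ P, (1 - (p : ℝ)⁻¹) = ∏ p ∈ P, (1 - 1 / (p : ℝ)) :=
    prod_congr rfl fun p _ => by rw [one_div]
  rw [hprod]
  have hB : 0 < (g : ℝ) * ∏ p ∈ P, (1 - 1 / (p : ℝ)) := mul_pos hypos (by linarith)
  have hrel : rel P g ≤ 1 - 2 * δ := by linarith
  unfold rel at hrel
  rw [div_le_iff₀ hB, Nat.floor_natCast] at hrel
  have hV : (V P g : ℝ) = (((Icc 1 g).filter (fun h => ∀ p ∈ P, ¬ p ∣ h)).card : ℝ) := rfl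
  rw [hV] at hrel
  nlinarith

end Pool.Agent.J6H39.RS
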