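import Pool.Agent.J6H39.RS.Stm2
import Pool.Agent.J6H13.UM.Def

/-! # Project RS (helper39): long runs of integers which are not chosen (module RS-3, helper64) -/

set_option autoImplicit false

namespace Pool.Agent.J6H39.RS

open MeasureTheory Filter Finset
open scoped Topology

namespace LOWaux

lemma W_ge (x : ℕ) : 1 ≤ W x := Pool.Agent.J6H13.UM.W0_ge x

lemma w_nonneg (z : ℕ → ℕ) (m : ℕ) : 0 ≤ w z m := by
  classical
  unfold w
  split_ifs
  · have := W_ge (z m)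
    have h2 := Real.log_natCast_nonneg m
    positivity
  · exact le_rfl

lemma logN : Tendsto (fun n : ℕ => Real.log (n : ℝ)) atTop atTop :=
  Real.tendsto_log_atTop.comp tendsto_natCast_atTop_atTop

/-- the density tends to zero -/
lemma w_small {z : ℕ → ℕ} (hz : ∀ᶠ n : ℕ in atTop, (z n : ℝ) ≤ Real.log n) {ε : ℝ} (hε : 0 < ε) :
    ∀ᶠ m : ℕ in atTop, w z m ≤ ε := by
  classical
  obtain ⟨C₁, C₂, hC₁, hC₂, hW⟩ := Pool.Agent.J6H13.UM.W0_bound
  have h1 : ∀ᶠ L : ℝ in atTop, C₁ + C₂ * Real.log L ≤ ε * L := by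
    have h := Real.isLittleO_log_id_atTop.bound (show 0 < ε / (2 * C₂) by positivity)
    filter_upwards [h, eventually_ge_atTop (2 * C₁ / ε), eventually_ge_atTop 0] with L h2 h3 h4
    rw [id, Real.norm_eq_abs, Real.norm_eq_abs, abs_of_nonneg h4] at h2
    have h5 : Real.log L ≤ ε / (2 * C₂) * L := (le_abs_self _).trans h2
    have h6 : C₂ * Real.log L ≤ C₂ * (ε / (2 * C₂) * L) := mul_le_mul_of_nonneg_left h5 hC₂.le
    have h7 : C₂ * (ε / (2 * C₂) * L) = ε * L / 2 := by field_simp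
    have h8 : C₁ ≤ ε * L / 2 := by
      rw [div_le_iff₀ hε] at h3
      linarith
    linarith
  filter_upwards [hz, logN.eventually h1, logN.eventually_ge_atTop 1] with m h2 h3 h4
  have hL : 0 < Real.log (m : ℝ) := by linarith
  unfold w
  split_ifs with hr
  · rw [div_le_iff₀ hL]
    have h5 : W (z m) ≤ C₁ + C₂ * Real.log (z m) := hW (z m)
    have h6 : Real.log (z m) ≤ Real.log (Real.log m) := by
      rcases Nat.eq_zero_or_pos (z m) with h7 | h7
      · rw [h7, Nat.cast_zero, Real.log_zero]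
        exact Real.log_nonneg h4
      · exact Real.log_le_log (by exact_mod_cast h7) h2
    have h7 : C₂ * Real.log (z m) ≤ C₂ * Real.log (Real.log m) := mul_le_mul_of_nonneg_left h6 hC₂.le
    linarith
  · exact hε.le

lemma sqrtN : Tendsto (fun n : ℕ => √(n : ℝ)) atTop atTop :=
  Real.tendsto_sqrt_atTop.comp tendsto_natCast_atTop_atTop

/-- `X ≥ exp (c √g - 1)` -/
lemma XX_ge {c : ℝ} {g : ℕ} (h : 1 ≤ c * √(g : ℝ)) : Real.exp (c * √(g : ℝ) - 1) ≤ (XX c g : ℝ) := by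
  unfold XX
  have h1 := Nat.lt_floor_add_one (Real.exp (c * √(g : ℝ)))
  have h2 : Real.exp (c * √(g : ℝ)) = Real.exp (c * √(g : ℝ) - 1) * Real.exp 1 := by
    rw [← Real.exp_add]
    congr 1
    ring
  have h3 : (2 : ℝ) ≤ Real.exp 1 := by
    have := Real.add_one_le_exp (1 : ℝ)
    linarith
  have h4 : 1 ≤ Real.exp (c * √(g : ℝ) - 1) := by
    have := Real.add_one_le_exp (c * √(g : ℝ) - 1)
    linarith
  nlinarith

lemma XX_top {c : ℝ} (hc : 0 < c) (N : ℕ) : ∀ᶠ g : ℕ in atTop, 2 * N ≤ XX c g := by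
  have h1 : Tendsto (fun g : ℕ => c * √(g : ℝ)) atTop atTop := sqrtN.const_mul_atTop hc
  filter_upwards [h1.eventually_ge_atTop 1, h1.eventually_ge_atTop (2 * N)] with g h2 h3
  have h4 := XX_ge h2
  have h5 := Real.add_one_le_exp (c * √(g : ℝ) - 1)
  have h6 : ((2 * N : ℕ) : ℝ) ≤ (XX c g : ℝ) := by
    push_cast
    linarith
  exact_mod_cast h6

/-- `1 - x ≥ exp (-(1 + η) x)` for small `x` -/
lemma one_sub_ge {η x : ℝ} (hη : 0 < η) (hx : 0 ≤ x) (h : (1 + η) * x ≤ η) :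
    Real.exp (-((1 + η) * x)) ≤ 1 - x := by
  have h1 : 0 < 1 + (1 + η) * x := by positivity
  have h2 : 1 + (1 + η) * x ≤ Real.exp ((1 + η) * x) := by
    have := Real.add_one_le_exp ((1 + η) * x)
    linarith
  rw [Real.exp_neg]
  have h3 : (Real.exp ((1 + η) * x))⁻¹ ≤ (1 + (1 + η) * x)⁻¹ := inv_anti₀ h1 h2
  refine h3.trans ?_
  rw [inv_le_iff_one_le_mul₀ h1]
  nlinarith

/-- the choice of `η` -/
lemma eta {κ c : ℝ} (h : κ < c ^ 2) : ∃ η : ℝ, 0 < η ∧ η < 1 / 2 ∧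
    (1 + η) ^ 3 * (κ + η) < (1 - 2 * η) * c ^ 2 := by
  have h1 : Tendsto (fun η : ℝ => (1 - 2 * η) * c ^ 2 - (1 + η) ^ 3 * (κ + η)) (𝓝 0)
      (𝓝 ((1 - 2 * 0) * c ^ 2 - (1 + 0) ^ 3 * (κ + 0))) := by
    apply Continuous.tendsto
    fun_prop
  have h2 : ∀ᶠ η : ℝ in 𝓝 0, 0 < (1 - 2 * η) * c ^ 2 - (1 + η) ^ 3 * (κ + η) :=
    h1.eventually (lt_mem_nhds (by norm_num; linarith))
  have h3 : ∀ᶠ η : ℝ in 𝓝 0, η < 1 / 2 := gt_mem_nhds (by norm_num)
  have h4 : ∀ᶠ η : ℝ in 𝓝[>] 0, 0 < η ∧ η < 1 / 2 ∧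
      0 < (1 - 2 * η) * c ^ 2 - (1 + η) ^ 3 * (κ + η) := by
    filter_upwards [eventually_mem_nhdsWithin, nhdsWithin_le_nhds h2, nhdsWithin_le_nhds h3]
      with η g1 g2 g3
    exact ⟨g1, g3, g2⟩
  obtain ⟨η, g1, g2, g3⟩ := h4.exists
  exact ⟨η, g1, g2, by linarith⟩

lemma exp_ge_log {D : ℝ} (hD : 0 < D) :
    ∀ᶠ g : ℕ in atTop, 2 * Real.log g ≤ Real.exp (D * √(g : ℝ)) := by
  filter_upwards [sqrtN.eventually_ge_atTop (8 / D ^ 2), sqrtN.eventually_ge_atTop 1] with g h1 h2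
  set t := √(g : ℝ) with ht
  have ht0 : 0 < t := by linarith
  have h3 : Real.log g = 2 * Real.log t := by
    have : (g : ℝ) = t ^ 2 := by rw [ht, Real.sq_sqrt (Nat.cast_nonneg g)]
    rw [this, Real.log_pow]
    norm_num
  have h4 : Real.log t ≤ t := (Real.log_le_sub_one_of_pos ht0).trans (by linarith)
  have h5 := Real.quadratic_le_exp_of_nonneg (show 0 ≤ D * t by positivity)
  have h6 : 8 ≤ D ^ 2 * t := by
    rw [div_le_iff₀ (by positivity)] at h1
    linarith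
  have h7 : 0 ≤ D * t := by positivity
  nlinarith

/-- the density used from above -/
noncomputable def uu (z : ℕ → ℕ) (η : ℝ) (m : ℕ) : ℝ := min 1 ((1 + η) * w z m)

lemma uu_mem {z : ℕ → ℕ} {η : ℝ} (hη : 0 < η) (m : ℕ) : 0 ≤ uu z η m ∧ uu z η m ≤ 1 := by
  have := w_nonneg z m
  exact ⟨le_min zero_le_one (by positivity), min_le_left _ _⟩

lemma uu_eq {z : ℕ → ℕ} (hz : ∀ᶠ n : ℕ in atTop, (z n : ℝ) ≤ Real.log n) {η : ℝ} (hη : 0 < η) :
    ∃ m0 : ℕ, ∀ m ≥ m0, uu z η m = (1 + η) * w z m ∧ (1 + η) * uu z η m ≤ η := by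
  obtain ⟨m0, h⟩ := eventually_atTop.1 (w_small hz (show 0 < η / (1 + η) ^ 2 by positivity))
  refine ⟨m0, fun m hm => ?_⟩
  have h1 := h m hm
  rw [le_div_iff₀ (by positivity)] at h1
  have h0 := w_nonneg z m
  have h2 : (1 + η) * ((1 + η) * w z m) ≤ η := by nlinarith
  have h3 : (1 + η) * w z m ≤ 1 := by
    by_contra h4
    push Not at h4
    nlinarith
  have h4 : uu z η m = (1 + η) * w z m := min_eq_right h3
  exact ⟨h4, by rw [h4]; exact h2⟩

/-- the deterministic part -/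
lemma det {z : ℕ → ℕ} (hz : ∀ᶠ n : ℕ in atTop, (z n : ℝ) ≤ Real.log n) {κ c : ℝ} (hκ : 0 < κ)
    (hc : 0 < c) {A' : Set ℕ} (hM : ManyA A' z κ c) {η : ℝ} (hη : 0 < η) (hη2 : η < 1 / 2)
    (hh : (1 + η) ^ 3 * (κ + η) < (1 - 2 * η) * c ^ 2) :
    ∀ᶠ g : ℕ in atTop, g ∈ A' → ∃ J : Finset ℕ,
      (∀ a ∈ J, XX c g ≤ 2 * a ∧ a + g ≤ XX c g) ∧
      (∀ a ∈ J, ∀ b ∈ J, a ≠ b → a + g ≤ b ∨ b + g ≤ a) ∧
      ∏ a ∈ J, (1 - ∏ m ∈ Ioc a (a + g), (1 - uu z η m)) ≤ 1 / (g : ℝ) ^ 2 := by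
  obtain ⟨m0, hm0⟩ := uu_eq hz hη
  set A : ℝ := (1 + η) ^ 3 * (κ + η) / c with hA
  set D : ℝ := (1 - 2 * η) * c - A with hD
  have hD0 : 0 < D := by
    rw [hD, hA, sub_pos, div_lt_iff₀ hc]
    nlinarith
  have hcs : Tendsto (fun g : ℕ => c * √(g : ℝ)) atTop atTop := sqrtN.const_mul_atTop hc
  filter_upwards [hM η hη, XX_top hc m0, exp_ge_log hD0, hcs.eventually_ge_atTop 1,
    hcs.eventually_ge_atTop ((1 + η) / η), hcs.eventually_ge_atTop (1 / η), eventually_ge_atTop 1]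
    with g hJ hX hexp h1 h2 h3 hg1 hgA
  obtain ⟨J, hJ1, hJ2, hJ3, hJ4⟩ := hJ hgA
  refine ⟨J, hJ1, hJ2, ?_⟩
  set t : ℝ := √(g : ℝ) with ht
  have hg0 : (0 : ℝ) < g := by exact_mod_cast hg1
  have ht0 : 0 < t := Real.sqrt_pos.2 hg0
  have htt : t * t = g := Real.mul_self_sqrt hg0.le
  have hXge := XX_ge h1
  have hXpos : (0 : ℝ) < XX c g := lt_of_lt_of_le (Real.exp_pos _) hXge
  have hlog1 : c * t - 1 ≤ Real.log (XX c g) := by
    rw [Real.le_log_iff_exp_le hXpos]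
    exact hXge
  have hlog2 : c * t / (1 + η) ≤ Real.log (XX c g) := by
    refine le_trans ?_ hlog1
    rw [div_le_iff₀ (by positivity)]
    rw [div_le_iff₀ hη] at h2
    nlinarith
  have hgl : (g : ℝ) / Real.log (XX c g) ≤ (1 + η) * t / c := by
    have h5 : 0 < c * t / (1 + η) := by positivity
    calc (g : ℝ) / Real.log (XX c g) ≤ g / (c * t / (1 + η)) :=
          div_le_div_of_nonneg_left hg0.le h5 hlog2
      _ = (1 + η) * t / c := by
        rw [← htt]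
        field_simp
  -- the product for one interval
  have hP : ∀ a ∈ J, Real.exp (-(A * t)) ≤ ∏ m ∈ Ioc a (a + g), (1 - uu z η m) := by
    intro a ha
    have ha0 : m0 ≤ a := by
      have := (hJ1 a ha).1
      omega
    calc Real.exp (-(A * t)) ≤ Real.exp (-((1 + η) * ∑ m ∈ Ioc a (a + g), uu z η m)) := by
          apply Real.exp_le_exp.2
          apply neg_le_neg
          have e1 : ∑ m ∈ Ioc a (a + g), uu z η m = (1 + η) * ∑ m ∈ Ioc a (a + g), w z m := by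
            rw [mul_sum]
            refine sum_congr rfl fun m hm => (hm0 m ?_).1
            have := (mem_Ioc.1 hm).1
            omega
          rw [e1]
          calc (1 + η) * ((1 + η) * ∑ m ∈ Ioc a (a + g), w z m) ≤
                (1 + η) * ((1 + η) * ((κ + η) * (g / Real.log (XX c g)))) := by
                have := hJ4 a ha
                gcongr
            _ ≤ (1 + η) * ((1 + η) * ((κ + η) * ((1 + η) * t / c))) := by gcongr
            _ = A * t := by rw [hA]; ring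
      _ = ∏ m ∈ Ioc a (a + g), Real.exp (-((1 + η) * uu z η m)) := by
          rw [← Real.exp_sum, mul_sum, ← sum_neg_distrib]
      _ ≤ ∏ m ∈ Ioc a (a + g), (1 - uu z η m) := by
          refine prod_le_prod (fun m _ => (Real.exp_pos _).le) fun m hm => ?_
          refine one_sub_ge hη (uu_mem hη m).1 (hm0 m ?_).2
          have := (mem_Ioc.1 hm).1
          omega
  have hP1 : ∀ a ∈ J, ∏ m ∈ Ioc a (a + g), (1 - uu z η m) ≤ 1 := by
    intro a _
    refine prod_le_one (fun m _ => ?_) fun m _ => ?_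
    · have := (uu_mem (z := z) hη m).2
      linarith
    · have := (uu_mem (z := z) hη m).1
      linarith
  have hcard : Real.exp (D * t) ≤ Real.exp (-(A * t)) * (J.card : ℝ) := by
    have h5 : Real.exp ((1 - η) * (c * t - 1)) ≤ (J.card : ℝ) := by
      refine le_trans ?_ hJ3
      rw [Real.rpow_def_of_pos hXpos]
      apply Real.exp_le_exp.2
      rw [mul_comm]
      exact mul_le_mul_of_nonneg_right hlog1 (by linarith)
    calc Real.exp (D * t) ≤ Real.exp (-(A * t)) * Real.exp ((1 - η) * (c * t - 1)) := by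
          rw [← Real.exp_add]
          apply Real.exp_le_exp.2
          rw [hD]
          rw [div_le_iff₀ hη] at h3
          nlinarith
      _ ≤ _ := mul_le_mul_of_nonneg_left h5 (Real.exp_pos _).le
  calc ∏ a ∈ J, (1 - ∏ m ∈ Ioc a (a + g), (1 - uu z η m)) ≤
        ∏ a ∈ J, Real.exp (-Real.exp (-(A * t))) := by
        refine prod_le_prod (fun a ha => ?_) fun a ha => ?_
        · have := hP1 a ha
          linarith
        · have h5 := hP a ha
          have h6 := Real.add_one_le_exp (-Real.exp (-(A * t)))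
          linarith
    _ = Real.exp (-(Real.exp (-(A * t)) * (J.card : ℝ))) := by
        rw [prod_const, ← Real.exp_nat_mul]
        congr 1
        ring
    _ ≤ Real.exp (-(2 * Real.log g)) := by
        apply Real.exp_le_exp.2
        apply neg_le_neg
        exact hexp.trans hcard
    _ = 1 / (g : ℝ) ^ 2 := by
        rw [Real.exp_neg, mul_comm, Real.exp_mul, Real.exp_log hg0, one_div]
        norm_cast

end LOWaux

open LOWaux in
theorem t_LOW2 (h1 : S_PL) (h2 : S_RB) : S_LOW2 := by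
  intro Ω mΩ μ _ ℱ S z hmod hz A κ c hκ hc hκc hM
  obtain ⟨η, hη, hη2, hh⟩ := eta hκc
  have hdet := det hz hκ hc hM hη hη2 hh
  obtain ⟨m0, hm0⟩ := uu_eq hz hη
  -- Borel-Cantelli for fixed `N`
  have key : ∀ N : ℕ, ∀ᵐ ω ∂μ, ∀ᶠ g : ℕ in atTop,
      ¬ (g ∈ A ∧ (∀ m ≥ N, q μ ℱ S m ω ≤ uu z η m) ∧ ∀ a : ℕ, XX c g ≤ 2 * a → a + g ≤ XX c g →
        ∃ m ∈ Ioc a (a + g), ω ∈ S m) := by
    intro N
    obtain ⟨g0, hg0⟩ := eventually_atTop.1 (hdet.and (XX_top hc N))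
    let s : ℕ → Set Ω := fun g => {ω | (g0 ≤ g ∧ g ∈ A) ∧ (∀ m ≥ N, q μ ℱ S m ω ≤ uu z η m) ∧
      ∀ a : ℕ, XX c g ≤ 2 * a → a + g ≤ XX c g → ∃ m ∈ Ioc a (a + g), ω ∈ S m}
    have hs : ∀ g, μ (s g) ≤ ENNReal.ofReal (1 / (g : ℝ) ^ 2) := by
      intro g
      by_cases hg : g0 ≤ g ∧ g ∈ A
      · obtain ⟨hJ, hX⟩ := hg0 g hg.1
        obtain ⟨J, hJ1, hJ2, hJ3⟩ := hJ hg.2
        have hPL := h1 μ ℱ S hmod.adapted J g (uu z η) (fun m => uu_mem hη m) hJ2
        have hsub : s g ⊆ {ω | (∀ a ∈ J, ∀ m ∈ Ioc a (a + g), q μ ℱ S m ω ≤ uu z η m) ∧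
            ∀ a ∈ J, ∃ m ∈ Ioc a (a + g), ω ∈ S m} := by
          rintro ω ⟨-, g1, g2⟩
          refine ⟨fun a ha m hm => g1 m ?_, fun a ha => g2 a (hJ1 a ha).1 (hJ1 a ha).2⟩
          have h3 := (hJ1 a ha).1
          have h4 := (mem_Ioc.1 hm).1
          show N ≤ m
          omega
        refine (measure_mono hsub).trans ?_
        rw [← ofReal_measureReal]
        exact ENNReal.ofReal_le_ofReal (hPL.trans hJ3)
      · have : s g = ∅ := by
          ext ω
          refine ⟨fun h => hg h.1, fun h => absurd h (Set.notMem_empty _)⟩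
        rw [this, measure_empty]
        exact bot_le
    have hsum : ∑' g, μ (s g) ≠ ⊤ := by
      have h3 : Summable fun g : ℕ => 1 / (g : ℝ) ^ 2 := Real.summable_one_div_nat_pow.2 (by norm_num)
      exact ne_top_of_le_ne_top h3.tsum_ofReal_ne_top (ENNReal.tsum_le_tsum hs)
    filter_upwards [ae_eventually_notMem hsum] with ω hω
    filter_upwards [hω, eventually_ge_atTop g0] with g h3 h4 h5
    exact h3 ⟨⟨h4, h5.1⟩, h5.2⟩
  filter_upwards [ae_all_iff.2 key, h2 μ ℱ S z hmod η hη (by linarith)] with ω g1 g2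
  obtain ⟨N, hN⟩ := eventually_atTop.1 g2
  filter_upwards [g1 (max N m0)] with g h3 hgA
  by_contra h4
  push Not at h4
  refine h3 ⟨hgA, fun m hm => ?_, fun a h5 h6 => h4 a h5 h6⟩
  rw [(hm0 m (le_of_max_le_right hm)).1]
  exact (hN m (le_of_max_le_left hm)).2

theorem t_LOW (h1 : S_PL) (h2 : S_RB) : S_LOW := by
  intro Ω mΩ μ _ ℱ S z hmod hz κ c hκ hc hκc hM
  have hMA : ManyA Set.univ z κ c := fun η hη => by
    filter_upwards [hM η hη] with g hg _
    exact hg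
  filter_upwards [t_LOW2 h1 h2 μ ℱ S z hmod hz Set.univ κ c hκ hc hκc hMA] with ω hω
  filter_upwards [hω] with g hg
  exact hg (Set.mem_univ g)


end Pool.Agent.J6H39.RS
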