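import Pool.Agent.J6H39.RS.Stm

/-! # Project RS (helper39): module MA (helper98) -/

set_option autoImplicit false

namespace Pool.Agent.J6H39.RS

open MeasureTheory Filter Finset
open scoped Topology

namespace MAaux

lemma XX_le (c : ℝ) (g : ℕ) : (XX c g : ℝ) ≤ Real.exp (c * √(g : ℝ)) :=
  Nat.floor_le (Real.exp_pos _).le

lemma XX_ge {c : ℝ} (hc : 0 < c) (g : ℕ) : Real.exp (c * √(g : ℝ)) ≤ 2 * (XX c g : ℝ) := by
  have h1 : Real.exp (c * √(g : ℝ)) < (XX c g : ℝ) + 1 := Nat.lt_floor_add_one _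
  have h2 : 1 ≤ XX c g := by
    refine Nat.le_floor ?_
    have : (0 : ℝ) ≤ c * √(g : ℝ) := by positivity
    simpa using Real.one_le_exp this
  have h3 : (1 : ℝ) ≤ (XX c g : ℝ) := by exact_mod_cast h2
  linarith

lemma sqrt_tendsto : Tendsto (fun n : ℕ => √(n : ℝ)) atTop atTop :=
  Real.tendsto_sqrt_atTop.comp tendsto_natCast_atTop_atTop

/-- the number `g` is small compared with `exp (b √g)` -/
lemma lin_le_exp {b : ℝ} (hb : 0 < b) (K : ℝ) (hK : 0 < K) :
    ∀ᶠ g : ℕ in atTop, K * (g : ℝ) ≤ Real.exp (b * √(g : ℝ)) := by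
  have h1 := (isLittleO_pow_exp_pos_mul_atTop (k := 2) hb).bound (c := K⁻¹) (by positivity)
  filter_upwards [sqrt_tendsto.eventually h1] with g hg
  have h2 : ‖√(g : ℝ) ^ 2‖ = (g : ℝ) := by
    rw [Real.sq_sqrt (by positivity), Real.norm_of_nonneg (by positivity)]
  rw [h2, Real.norm_of_nonneg (Real.exp_pos _).le] at hg
  calc K * (g : ℝ) ≤ K * (K⁻¹ * Real.exp (b * √(g : ℝ))) := mul_le_mul_of_nonneg_left hg hK.le
    _ = Real.exp (b * √(g : ℝ)) := by field_simp

end MAaux

open MAaux in
theorem t_MA (h : S_ARA) : S_MA := by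
  classical
  intro z hmono hsmall c hc η hη
  have hA := h z hmono hsmall (1 / c ^ 2) (4 / c ^ 2) (η / 2) (by positivity) (by positivity)
    (by positivity)
  obtain ⟨N0, hN0⟩ := eventually_atTop.1 hA
  have e1 : ∀ᶠ g : ℕ in atTop, 64 * (g : ℝ) ≤ Real.exp (c * √(g : ℝ)) := lin_le_exp hc 64 (by norm_num)
  have e2 : ∀ᶠ g : ℕ in atTop, (8 * 2 ^ η) * (g : ℝ) ≤ Real.exp ((c * η) * √(g : ℝ)) :=
    lin_le_exp (by positivity) _ (by positivity)
  have e3 := sqrt_tendsto.eventually_ge_atTop (2 * Real.log 4 / c)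
  have e4 := sqrt_tendsto.eventually_ge_atTop ((2 * (1 + η) * Real.log 2 / η + Real.log 2) / c)
  filter_upwards [e1, e2, e3, e4, eventually_ge_atTop (N0 + 1)] with g h1 h2 h3 h4 h5
  set X : ℕ := XX c g with hX
  have hX1 : (X : ℝ) ≤ Real.exp (c * √(g : ℝ)) := XX_le c g
  have hX2 : Real.exp (c * √(g : ℝ)) ≤ 2 * (X : ℝ) := XX_ge hc g
  have hg1 : 1 ≤ g := by omega
  have hg1' : (1 : ℝ) ≤ g := by exact_mod_cast hg1
  have hXg : 32 * (g : ℝ) ≤ X := by linarith
  have hXgn : 32 * g ≤ X := by exact_mod_cast hXg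
  have hX0 : (0 : ℝ) < X := by linarith
  set L : ℝ := Real.log X with hL
  have hL1 : L ≤ c * √(g : ℝ) := by
    rw [hL]
    calc Real.log X ≤ Real.log (Real.exp (c * √(g : ℝ))) := Real.log_le_log hX0 hX1
      _ = c * √(g : ℝ) := Real.log_exp _
  have hL2 : c * √(g : ℝ) ≤ L + Real.log 2 := by
    calc c * √(g : ℝ) = Real.log (Real.exp (c * √(g : ℝ))) := (Real.log_exp _).symm
      _ ≤ Real.log (2 * (X : ℝ)) := Real.log_le_log (Real.exp_pos _) hX2
      _ = L + Real.log 2 := by rw [Real.log_mul (by norm_num) hX0.ne']; ring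
  have hlog2 : 0 < Real.log 2 := Real.log_pos (by norm_num)
  have hL3 : 2 * (1 + η) * Real.log 2 / η ≤ L := by
    rw [div_le_iff₀ hc] at h4
    have : √(g : ℝ) * c = c * √(g : ℝ) := mul_comm _ _
    linarith
  have hLpos : 0 < L := lt_of_lt_of_le (by positivity) hL3
  set N : ℕ := X / (4 * g) with hN
  set f : ℕ → ℕ := fun j => (X + 1) / 2 + j * g with hf
  have hfinj : Function.Injective f := by
    intro i j hij
    simp only [hf] at hij
    have : i * g = j * g := by omega
    exact Nat.eq_of_mul_eq_mul_right (by omega) this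
  have hNg : N * g ≤ X / 4 := by
    rw [hN, Nat.le_div_iff_mul_le (by norm_num)]
    calc X / (4 * g) * g * 4 = X / (4 * g) * (4 * g) := by ring
      _ ≤ X := Nat.div_mul_le_self _ _
  have hmem : ∀ a ∈ (range N).image f, X ≤ 2 * a ∧ a + g ≤ X := by
    intro a ha
    obtain ⟨j, hj, rfl⟩ := Finset.mem_image.1 ha
    rw [Finset.mem_range] at hj
    have hj2 : (j + 1) * g ≤ N * g := Nat.mul_le_mul_right g (by omega)
    have hj3 : (j + 1) * g = j * g + g := by ring
    simp only [hf]
    constructor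
    · have : X ≤ 2 * ((X + 1) / 2) := by omega
      have : 0 ≤ j * g := Nat.zero_le _
      omega
    · omega
  refine ⟨(range N).image f, hmem, ?_, ?_, ?_⟩
  · intro a ha b hb hab
    obtain ⟨i, hi, rfl⟩ := Finset.mem_image.1 ha
    obtain ⟨j, hj, rfl⟩ := Finset.mem_image.1 hb
    have hij : i ≠ j := fun h => hab (by rw [h])
    simp only [hf]
    rcases lt_or_gt_of_ne hij with h | h
    · left
      have : (i + 1) * g ≤ j * g := Nat.mul_le_mul_right g (by omega)
      have h' : (i + 1) * g = i * g + g := by ring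
      omega
    · right
      have : (j + 1) * g ≤ i * g := Nat.mul_le_mul_right g (by omega)
      have h' : (j + 1) * g = j * g + g := by ring
      omega
  · rw [Finset.card_image_of_injective _ hfinj, Finset.card_range]
    have hNr : (X : ℝ) / (4 * g) - 1 ≤ (N : ℝ) := by
      have hlt : (X : ℝ) / (4 * g) < (N : ℝ) + 1 := by
        rw [div_lt_iff₀ (by positivity)]
        have : X < (N + 1) * (4 * g) := by
          rw [hN]
          rw [mul_comm]
          exact Nat.lt_mul_div_succ X (by omega)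
        exact_mod_cast this
      linarith
    have hXη : 8 * (g : ℝ) ≤ (X : ℝ) ^ η := by
      have h6 : (X : ℝ) ^ η = Real.exp (L * η) := by rw [Real.rpow_def_of_pos hX0, hL]
      have h7 : Real.exp ((c * η) * √(g : ℝ)) ≤ Real.exp ((L + Real.log 2) * η) := by
        apply Real.exp_le_exp.2
        calc c * η * √(g : ℝ) = (c * √(g : ℝ)) * η := by ring
          _ ≤ (L + Real.log 2) * η := mul_le_mul_of_nonneg_right hL2 hη.le
      have h8 : Real.exp ((L + Real.log 2) * η) = (X : ℝ) ^ η * 2 ^ η := by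
        rw [add_mul, Real.exp_add, h6, Real.rpow_def_of_pos (by norm_num : (0 : ℝ) < 2)]
      have h9 : (8 * 2 ^ η) * (g : ℝ) ≤ (X : ℝ) ^ η * 2 ^ η := by
        rw [← h8]; exact h2.trans h7
      have h10 : (0 : ℝ) < 2 ^ η := by positivity
      nlinarith
    have h11 : (X : ℝ) ^ (1 - η) = X / (X : ℝ) ^ η := by
      rw [Real.rpow_sub hX0, Real.rpow_one]
    rw [h11]
    have h12 : (X : ℝ) / (X : ℝ) ^ η ≤ X / (8 * g) := by
      apply div_le_div_of_nonneg_left hX0.le (by positivity) hXη
    have h13 : (1 : ℝ) ≤ X / (8 * g) := by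
      rw [le_div_iff₀ (by positivity)]
      linarith
    have h14 : (X : ℝ) / (4 * g) = X / (8 * g) + X / (8 * g) := by
      field_simp
      norm_num
    linarith
  · intro a ha
    obtain ⟨ha1, ha2⟩ := hmem a ha
    have haN : N0 ≤ a := by omega
    have ha0 : (0 : ℝ) < a := by
      have : 0 < a := by omega
      exact_mod_cast this
    have hla1 : Real.log a ≤ L := by
      rw [hL]
      apply Real.log_le_log ha0
      exact_mod_cast (by omega : a ≤ X)
    have hla2 : L ≤ Real.log a + Real.log 2 := by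
      calc L ≤ Real.log (2 * (a : ℝ)) := by
            rw [hL]
            apply Real.log_le_log hX0
            exact_mod_cast ha1
        _ = Real.log a + Real.log 2 := by rw [Real.log_mul (by norm_num) ha0.ne']; ring
    have hratio : (1 + η / 2) * L ≤ (1 + η) * Real.log a := by
      rw [div_le_iff₀ hη] at hL3
      nlinarith
    have hlapos : 0 < Real.log a := by
      by_contra hcon
      push Not at hcon
      have : (1 + η) * Real.log a ≤ 0 := mul_nonpos_of_nonneg_of_nonpos (by positivity) hcon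
      have h' : 0 < (1 + η / 2) * L := by positivity
      linarith
    have hsq : √(g : ℝ) ^ 2 = g := Real.sq_sqrt (by positivity)
    have hs0 : 0 ≤ √(g : ℝ) := Real.sqrt_nonneg _
    have hc1 : 1 / c ^ 2 * Real.log a ^ 2 ≤ g := by
      have h6 : Real.log a ≤ c * √(g : ℝ) := hla1.trans hL1
      have h7 : Real.log a ^ 2 ≤ (c * √(g : ℝ)) ^ 2 := pow_le_pow_left₀ hlapos.le h6 2
      rw [mul_pow, hsq] at h7
      rw [div_mul_eq_mul_div, one_mul, div_le_iff₀ (by positivity)]
      linarith
    have hc2 : (g : ℝ) ≤ 4 / c ^ 2 * Real.log a ^ 2 := by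
      have h6 : c * √(g : ℝ) ≤ Real.log a + Real.log 4 := by
        have : Real.log 4 = Real.log 2 + Real.log 2 := by
          rw [← Real.log_mul (by norm_num) (by norm_num)]; norm_num
        linarith
      have h7 : 2 * Real.log 4 ≤ c * √(g : ℝ) := by
        rw [div_le_iff₀ hc] at h3
        linarith
      have h8 : c * √(g : ℝ) ≤ 2 * Real.log a := by linarith
      have h9 : (c * √(g : ℝ)) ^ 2 ≤ (2 * Real.log a) ^ 2 := pow_le_pow_left₀ (by positivity) h8 2
      rw [mul_pow, hsq] at h9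
      rw [div_mul_eq_mul_div, le_div_iff₀ (by positivity)]
      linarith
    have h15 := hN0 a haN g hc1 hc2
    have h16 : ∑ m ∈ Ioc a (a + g), w z m ≤ (1 + η / 2) * (g / Real.log a) := by
      have := (abs_le.1 h15).2
      linarith
    refine h16.trans ?_
    rw [← hX] at *
    rw [← mul_div_assoc, ← mul_div_assoc, div_le_div_iff₀ hlapos hLpos]
    calc (1 + η / 2) * (g : ℝ) * L = g * ((1 + η / 2) * L) := by ring
      _ ≤ g * ((1 + η) * Real.log a) := mul_le_mul_of_nonneg_left hratio (by positivity)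
      _ = (1 + η) * g * Real.log a := by ring

end Pool.Agent.J6H39.RS
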