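import Pool.Agent.J6H39.RS.Stm
import Pool.Agent.J6H40.WG.DIS
import Pool.Agent.J6H40.WG.PULL

/-!
The probability that all of many disjoint intervals contain a chosen integer (module RS-2).
-/

set_option autoImplicit false

open MeasureTheory Finset

namespace Pool.Agent.J6H39.RS

theorem t_PL : S_PL := by
  intro Ω mΩ μ _ ℱ S hS J g u hu hJ
  have h := Pool.Agent.J6H40.WG.t_DIS Pool.Agent.J6H40.WG.t_PULL Ω μ ℱ S hS J
    (fun a => Ioc a (a + g)) u (fun a ha b hb hab => by
      rw [Finset.disjoint_left]
      intro m hm hm'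
      rw [Finset.mem_Ioc] at hm hm'
      rcases hJ a ha b hb hab with h | h <;> omega)
    (fun a _ m hm => ⟨by rw [Finset.mem_Ioc] at hm; omega, hu m⟩)
  refine le_trans (le_of_eq ?_) h
  congr 1
  ext ω
  exact and_comm

end Pool.Agent.J6H39.RS
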