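import Pool.Agent.J6H39.RS.Stm

/-!
Project RS, module PU: the probability of choosing nothing.
-/

set_option autoImplicit false

namespace Pool.Agent.J6H39.RS

open MeasureTheory Filter Finset
open scoped Topology

theorem t_PU : S_PU := by
  intro Ω mΩ μ _ ℱ S hS I l
  induction I using Finset.induction_on_max with
  | empty =>
    intro _ _
    simp only [Finset.prod_empty]
    exact measureReal_le_one
  | insert t I' hmax ih =>
    intro h0 hl
    have htI : t ∉ I' := fun h => lt_irrefl _ (hmax t h)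
    have ht0 : t ≠ 0 := fun h => h0 (by rw [← h]; exact Finset.mem_insert_self _ _)
    have ih' := ih (fun h => h0 (Finset.mem_insert_of_mem h))
      (fun m hm => hl m (Finset.mem_insert_of_mem hm))
    obtain ⟨hl0, hl1⟩ := hl t (Finset.mem_insert_self _ _)
    rw [Finset.prod_insert htI]
    set E : Set Ω := {ω | (∀ m ∈ I', l m ≤ q μ ℱ S m ω) ∧ ∀ m ∈ I', ω ∉ S m} with hE
    set F : Set Ω := E ∩ {ω | l t ≤ q μ ℱ S t ω} with hF
    have hq : ∀ m, Measurable[ℱ (m - 1)] (q μ ℱ S m) := fun m =>
      stronglyMeasurable_condExp.measurable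
    have hEm : MeasurableSet[ℱ (t - 1)] E := by
      have h1 : E = (⋂ m ∈ I', {ω | l m ≤ q μ ℱ S m ω}) ∩ ⋂ m ∈ I', (S m)ᶜ := by
        ext ω
        simp only [hE, Set.mem_ofPred_eq, Set.mem_inter_iff, Set.mem_iInter, Set.mem_compl_iff]
      rw [h1]
      refine MeasurableSet.inter (m := ℱ (t - 1)) (Finset.measurableSet_biInter _ fun m hm => ?_)
        (Finset.measurableSet_biInter _ fun m hm => ?_)
      · have h2 : MeasurableSet[ℱ (m - 1)] {ω | l m ≤ q μ ℱ S m ω} := (hq m) measurableSet_Ici
        have h3 := hmax m hm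
        exact ℱ.mono (by omega) _ h2
      · have h3 := hmax m hm
        exact ℱ.mono (show m ≤ t - 1 by omega) _ (hS m).compl
    have hFm : MeasurableSet[ℱ (t - 1)] F :=
      MeasurableSet.inter (m := ℱ (t - 1)) hEm ((hq t) measurableSet_Ici)
    have hFm' : MeasurableSet F := ℱ.le _ _ hFm
    have hSt : MeasurableSet (S t) := ℱ.le _ _ (hS t)
    have hsub : {ω | (∀ m ∈ insert t I', l m ≤ q μ ℱ S m ω) ∧ ∀ m ∈ insert t I', ω ∉ S m} ⊆
        F \ S t := by
      intro ω hω
      obtain ⟨h1, h2⟩ := hω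
      exact ⟨⟨⟨fun m hm => h1 m (Finset.mem_insert_of_mem hm),
        fun m hm => h2 m (Finset.mem_insert_of_mem hm)⟩, h1 t (Finset.mem_insert_self _ _)⟩,
        h2 t (Finset.mem_insert_self _ _)⟩
    have hint : Integrable ((S t).indicator (fun _ => (1 : ℝ))) μ :=
      (integrable_const (1 : ℝ)).indicator hSt
    have h1 : ∫ ω in F, q μ ℱ S t ω ∂μ = μ.real (S t ∩ F) := by
      have h2 := setIntegral_condExp (μ := μ) (ℱ.le (t - 1)) hint hFm
      rw [show (∫ ω in F, q μ ℱ S t ω ∂μ) = _ from h2]
      have h3 := integral_indicator_one (μ := μ.restrict F) hSt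
      rw [measureReal_restrict_apply hSt] at h3
      exact h3
    have h2 : l t * μ.real F ≤ ∫ ω in F, q μ ℱ S t ω ∂μ := by
      have h3 : IntegrableOn (q μ ℱ S t) F μ := integrable_condExp.integrableOn
      have h4 := setIntegral_ge_of_const_le (c := l t) hFm' (measure_ne_top μ F)
        (fun ω hω => hω.2) h3
      rwa [smul_eq_mul, mul_comm] at h4
    have h3 : μ.real (F \ S t) = μ.real F - μ.real (S t ∩ F) := by
      have h4 := measureReal_sdiff_add_inter (μ := μ) (s := F) hSt
      rw [Set.inter_comm] at h4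
      linarith
    have h4 : μ.real F ≤ μ.real E := measureReal_mono Set.inter_subset_left
    calc _ ≤ μ.real (F \ S t) := measureReal_mono hsub
      _ ≤ (1 - l t) * μ.real F := by rw [h3]; linarith
      _ ≤ (1 - l t) * ∏ m ∈ I', (1 - l m) :=
        mul_le_mul_of_nonneg_left (h4.trans ih') (by linarith)

end Pool.Agent.J6H39.RS
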