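import Pool.Agent.J6H39.RS.Stm

/-! Project RS, module RB: the conditional probabilities follow the densities. -/

set_option autoImplicit false

namespace Pool.Agent.J6H39.RS

open MeasureTheory Filter Finset
open scoped Topology

lemma RB_W_pos (x : ℕ) : 0 < W x := by
  unfold W
  refine Finset.prod_pos fun p hp => inv_pos.2 ?_
  have h1 : 2 ≤ p := (Finset.mem_filter.1 hp).2.two_le
  have h2 : (2 : ℝ) ≤ p := by exact_mod_cast h1
  have h3 : (p : ℝ)⁻¹ ≤ 2⁻¹ := inv_anti₀ (by norm_num) h2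
  have h4 : (2 : ℝ)⁻¹ < 1 := by norm_num
  linarith

lemma RB_log : Tendsto (fun n : ℕ => Real.log ((n : ℝ) + 1) / Real.log n) atTop (𝓝 1) := by
  have h1 : Tendsto (fun n : ℕ => Real.log n) atTop atTop :=
    Real.tendsto_log_atTop.comp tendsto_natCast_atTop_atTop
  have h2 : Tendsto (fun n : ℕ => Real.log ((n : ℝ) + 1) - Real.log n) atTop (𝓝 0) :=
    Real.tendsto_log_nat_add_one_sub_log
  have h3 : Tendsto (fun n : ℕ => 1 + (Real.log ((n : ℝ) + 1) - Real.log n) / Real.log n) atTop
      (𝓝 (1 + 0)) := tendsto_const_nhds.add (h2.div_atTop h1)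
  rw [add_zero] at h3
  refine h3.congr' ?_
  filter_upwards [h1.eventually_gt_atTop 0] with n hn
  field_simp
  ring

/-- RB -/
theorem t_RB : S_RB := by
  intro Ω mΩ μ _ ℱ S z hM η h0 h1
  filter_upwards [hM.density] with ω hω
  have h2 := hω.mul (RB_log.mono_left (inf_le_left (b := 𝓟 {n : ℕ | Rough z (n + 1)})))
  rw [mul_one] at h2
  have h3 := h2.eventually (Icc_mem_nhds (show (1 - η) < 1 by linarith)
    (show (1 : ℝ) < 1 + η by linarith))
  rw [eventually_inf_principal] at h3
  have h4 : Tendsto (fun n : ℕ => Real.log n) atTop atTop :=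
    Real.tendsto_log_atTop.comp tendsto_natCast_atTop_atTop
  have h5 := h3.and ((h4.eventually_gt_atTop 0).and (eventually_ge_atTop 2))
  obtain ⟨N, hN⟩ := eventually_atTop.1 h5
  filter_upwards [eventually_ge_atTop (N + 1)] with m hm
  obtain ⟨n, rfl⟩ : ∃ n, m = n + 1 := ⟨m - 1, by omega⟩
  obtain ⟨h6, h7, h8⟩ := hN n (by omega)
  by_cases hR : Rough z (n + 1)
  · obtain ⟨h9, h10⟩ := h6 hR
    have hw : w z (n + 1) = W (z (n + 1)) / Real.log ((n : ℝ) + 1) := by
      unfold w
      rw [if_pos hR]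
      push_cast
      rfl
    have hq : q μ ℱ S (n + 1) ω =
        (μ[(S (n + 1)).indicator (fun _ => (1 : ℝ)) | ℱ n]) ω := rfl
    have hW := RB_W_pos (z (n + 1))
    have hl : 0 < Real.log ((n : ℝ) + 1) := by
      refine Real.log_pos ?_
      have : (2 : ℝ) ≤ n := by exact_mod_cast h8
      linarith
    rw [hw, hq]
    set X := (μ[(S (n + 1)).indicator (fun _ => (1 : ℝ)) | ℱ n]) ω
    have e : X = X * Real.log n / W (z (n + 1)) * (Real.log ((n : ℝ) + 1) / Real.log n) *
        (W (z (n + 1)) / Real.log ((n : ℝ) + 1)) := by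
      field_simp
    have hpos : 0 < W (z (n + 1)) / Real.log ((n : ℝ) + 1) := div_pos hW hl
    constructor
    · calc _ ≤ _ := mul_le_mul_of_nonneg_right h9 hpos.le
        _ = X := e.symm
    · calc X = _ := e
        _ ≤ _ := mul_le_mul_of_nonneg_right h10 hpos.le
  · have hw : w z (n + 1) = 0 := by
      unfold w
      rw [if_neg hR]
    have hq : q μ ℱ S (n + 1) ω = 0 := by
      unfold q
      rw [hM.sieved _ hR, Set.indicator_empty]
      have : (μ[(fun _ => (0 : ℝ)) | ℱ (n + 1 - 1)]) = 0 := condExp_zero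
      rw [this]
      rfl
    rw [hw, hq, mul_zero, mul_zero]
    exact ⟨le_rfl, le_rfl⟩

end Pool.Agent.J6H39.RS
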