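import Pool.Agent.J6H39.RS.ARA

set_option autoImplicit false

/-!
# Project RS, module UPP: all runs are short (small sieves)
-/

namespace Pool.Agent.J6H39.RS

open MeasureTheory Filter Finset
open scoped Topology

namespace UPPaux

open ARAaux in
theorem w_nonneg (z : ℕ → ℕ) (m : ℕ) : 0 ≤ w z m := by
  unfold w
  split_ifs
  · exact div_nonneg (W_pos _).le (Real.log_natCast_nonneg _)
  · exact le_rfl

open ARAaux in
theorem w_le_one (z : ℕ → ℕ) (hsm : Small z) : ∀ᶠ m : ℕ in atTop, w z m ≤ 1 := by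
  have hlog : Tendsto (fun n : ℕ => Real.log n) atTop atTop :=
    Real.tendsto_log_atTop.comp tendsto_natCast_atTop_atTop
  filter_upwards [hsm (1 / 2) (by norm_num), hlog.eventually (eventually_ge_atTop (4 : ℝ))] with m hm hl
  unfold w
  split_ifs
  · rw [div_le_one (by linarith)]
    refine (W_le _).trans ?_
    rw [← Real.sqrt_eq_rpow] at hm
    have hs : √(Real.log m) * √(Real.log m) = Real.log m := Real.mul_self_sqrt (by linarith)
    have hs2 : 2 ≤ √(Real.log m) := by
      apply Real.le_sqrt_of_sq_le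
      norm_num
      exact hl
    nlinarith
  · exact zero_le_one

end UPPaux

open UPPaux in
theorem t_UPP (h1 : S_ARA) (h2 : S_PU) (h3 : S_RB) : S_UPP := by
  intro Ω mΩ μ _ ℱ S z hM hz hsm c hc
  obtain ⟨η, hη0, hη1, hα⟩ : ∃ η : ℝ, 0 < η ∧ η < 1 ∧ 1 < (1 - η) ^ 2 * c := by
    refine ⟨(c - 1) / (4 * c), div_pos (by linarith) (by linarith), ?_, ?_⟩
    · rw [div_lt_one (by linarith)]
      linarith
    · have h4 : (c - 1) / (4 * c) * (4 * c) = c - 1 := div_mul_cancel₀ _ (by linarith)
      have h5 : 0 < (c - 1) / (4 * c) := div_pos (by linarith) (by linarith)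
      nlinarith [mul_pos (mul_pos h5 h5) (by linarith : 0 < c)]
  have hlog : Tendsto (fun n : ℕ => Real.log n) atTop atTop :=
    Real.tendsto_log_atTop.comp tendsto_natCast_atTop_atTop
  set α : ℝ := (1 - η) ^ 2 * c with hαdef
  set E : ℕ → Set Ω := fun n => {ω |
    (∀ m ∈ Ioc n (n + ⌊c * Real.log n ^ 2⌋₊), (1 - η) * w z m ≤ q μ ℱ S m ω) ∧
      ∀ m ∈ Ioc n (n + ⌊c * Real.log n ^ 2⌋₊), ω ∉ S m} with hE
  have hw1 : ∀ᶠ n : ℕ in atTop, ∀ m : ℕ, n ≤ m → w z m ≤ 1 :=
    eventually_forall_ge_atTop.mpr (w_le_one z hsm)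
  have hbound : ∀ᶠ n : ℕ in atTop, ‖μ.real (E n)‖ ≤ Real.exp 1 * (n : ℝ) ^ (-α) := by
    filter_upwards [hw1, h1 z hz hsm (c / 2) c η (by linarith) (by linarith) hη0,
      hlog.eventually (eventually_ge_atTop (2 : ℝ)), eventually_ge_atTop 2] with n hn1 hn2 hl hn
    have hn0 : (0 : ℝ) < n := by exact_mod_cast (by omega : 0 < n)
    set g : ℕ := ⌊c * Real.log n ^ 2⌋₊ with hg
    have hcl : 0 ≤ c * Real.log n ^ 2 := by positivity
    have hg1 : (g : ℝ) ≤ c * Real.log n ^ 2 := Nat.floor_le hcl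
    have hg2 : c * Real.log n ^ 2 - 1 ≤ g := by
      have := Nat.lt_floor_add_one (c * Real.log n ^ 2)
      linarith
    have hA := hn2 g (by nlinarith) hg1
    have hA2 := (abs_le.mp hA).1
    have hpu := h2 μ ℱ S hM.adapted (Ioc n (n + g)) (fun m => (1 - η) * w z m)
      (by simp) (by
        intro m hm
        rw [Finset.mem_Ioc] at hm
        have ha := w_nonneg z m
        have hb := hn1 m (by omega)
        constructor
        · exact mul_nonneg (by linarith) ha
        · nlinarith)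
    rw [Real.norm_of_nonneg measureReal_nonneg]
    refine hpu.trans ?_
    have hprod : ∏ m ∈ Ioc n (n + g), (1 - (1 - η) * w z m) ≤
        Real.exp (-((1 - η) * ∑ m ∈ Ioc n (n + g), w z m)) := by
      rw [Finset.mul_sum, ← Finset.sum_neg_distrib, Real.exp_sum]
      apply Finset.prod_le_prod
      · intro m hm
        rw [Finset.mem_Ioc] at hm
        have ha := w_nonneg z m
        have hb := hn1 m (by omega)
        nlinarith
      · intro m _
        exact Real.one_sub_le_exp_neg _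
    refine hprod.trans ?_
    have e : Real.exp 1 * (n : ℝ) ^ (-α) = Real.exp (1 - α * Real.log n) := by
      rw [Real.rpow_def_of_pos hn0, ← Real.exp_add]
      congr 1
      ring
    rw [e]
    apply Real.exp_le_exp.mpr
    have hL : 0 < Real.log n := by linarith
    have hgl : c * Real.log n - 1 / 2 ≤ g / Real.log n := by
      rw [le_div_iff₀ hL]
      nlinarith
    have hS : (1 - η) * (g / Real.log n) ≤ ∑ m ∈ Ioc n (n + g), w z m := by
      linarith
    have hS2 : (1 - η) * ((1 - η) * (c * Real.log n - 1 / 2)) ≤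
        (1 - η) * ∑ m ∈ Ioc n (n + g), w z m := by
      apply mul_le_mul_of_nonneg_left _ (by linarith)
      exact (mul_le_mul_of_nonneg_left hgl (by linarith)).trans hS
    have hS3 : (1 - η) * ((1 - η) * (c * Real.log n - 1 / 2)) = α * Real.log n - (1 - η) ^ 2 / 2 := by
      rw [hαdef]
      ring
    rw [hS3] at hS2
    nlinarith
  have hsum : Summable (fun n : ℕ => μ.real (E n)) := by
    have hs : Summable (fun n : ℕ => Real.exp 1 * (n : ℝ) ^ (-α)) :=
      (Real.summable_nat_rpow.mpr (by linarith)).mul_left _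
    exact Summable.of_norm_bounded_eventually_nat hs hbound
  have hBC : ∀ᵐ ω ∂μ, ∀ᶠ n in atTop, ω ∉ E n := by
    apply ae_eventually_notMem
    have e : ∀ n, μ (E n) = ENNReal.ofReal (μ.real (E n)) := by
      intro n
      rw [ofReal_measureReal]
    simp_rw [e]
    exact hsum.tsum_ofReal_ne_top
  filter_upwards [hBC, h3 μ ℱ S z hM η hη0 hη1] with ω hω1 hω2
  have hω3 : ∀ᶠ n : ℕ in atTop, ∀ m : ℕ, n ≤ m → (1 - η) * w z m ≤ q μ ℱ S m ω ∧
      q μ ℱ S m ω ≤ (1 + η) * w z m := eventually_forall_ge_atTop.mpr hω2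
  filter_upwards [hω1, hω3] with n hn1 hn2
  by_contra hcon
  push Not at hcon
  apply hn1
  refine ⟨?_, ?_⟩
  · intro m hm
    rw [Finset.mem_Ioc] at hm
    exact (hn2 m hm.1.le).1
  · intro m hm
    exact hcon m hm

end Pool.Agent.J6H39.RS
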