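import Pool.Agent.J6H39.RS.Main2
import Pool.Agent.J6H39.RS.ARBof
import Pool.Agent.J6H39.RS.Arb2
import Pool.Agent.J6H39.RS.ARA
import Pool.Agent.J6H39.RS.CRU
import Pool.Agent.J6H39.RS.DET
import Pool.Agent.J6H39.RS.FLI
import Pool.Agent.J6H39.RS.IRR
import Pool.Agent.J6H39.RS.LOW
import Pool.Agent.J6H39.RS.MA
import Pool.Agent.J6H39.RS.PL
import Pool.Agent.J6H39.RS.PU
import Pool.Agent.J6H39.RS.RB
import Pool.Agent.J6H39.RS.SCA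
import Pool.Agent.J6H39.RS.UPP

/-! # Project RS (helper39): final form -/

set_option autoImplicit false

namespace Pool.Agent.J6H39.RS

open MeasureTheory Filter Finset
open scoped Topology

/-- the run gives an attained value of `pS` -/
theorem det3 (T : Set ℕ) (hT : ∀ᶠ n : ℕ in atTop, ∃ m ∈ Ioc n (2 * n), m ∈ T) (c : ℝ) (hc : 0 < c) :
    ∀ᶠ g : ℕ in atTop, (∃ a : ℕ, XX c g ≤ 2 * a ∧ a + g ≤ XX c g ∧ ∀ m ∈ Ioc a (a + g), m ∉ T) →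
      pS T g ∈ DETset T g ∧ Real.log (pS T g) ≤ c * √(g : ℝ) + Real.log 2 := by
  classical
  obtain ⟨N, hN⟩ := eventually_atTop.1 hT
  filter_upwards [eventually_ge_atTop N] with g hgN hg
  obtain ⟨a, h1, h2, h3⟩ := hg
  obtain ⟨m0, hm0, hm0T⟩ := hN (a + g) (by omega)
  rw [mem_Ioc] at hm0
  have hex : ∃ m, a + g < m ∧ m ∈ T := ⟨m0, hm0.1, hm0T⟩
  have hf := Nat.find_spec hex
  have hmin : Nat.find hex ≤ m0 := Nat.find_min' hex ⟨hm0.1, hm0T⟩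
  have hmem : Nat.find hex ∈ DETset T g := by
    refine ⟨hf.2, by omega, ?_⟩
    intro j hj1 hj2 hj3
    by_cases hj : a + g < j
    · exact Nat.find_min hex hj2 ⟨hj, hj3⟩
    · exact h3 j (mem_Ioc.2 ⟨by omega, by omega⟩) hj3
  have hle : pS T g ≤ Nat.find hex := Nat.sInf_le hmem
  have hin : pS T g ∈ DETset T g := Nat.sInf_mem (s := DETset T g) ⟨_, hmem⟩
  refine ⟨hin, DET_upper T c hc g hin ?_⟩
  omega

theorem cru : S_CRU := t_CRU t_FLI t_PU t_RB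
theorem low2 : S_LOW2 := t_LOW2 t_PL t_RB
theorem ara : S_ARA := t_ARA t_FLI

/-- small sieves -/
theorem small_case (z : ℕ → ℕ) (hmono : Monotone z) (hs : Small z) {Ω : Type} [mΩ : MeasurableSpace Ω]
    (μ : Measure Ω) [IsProbabilityMeasure μ] (ℱ : Filtration ℕ mΩ) (S : ℕ → Set Ω) (hM : IsModel μ ℱ S z) :
    ∀ᵐ ω ∂μ, Tendsto (fun g : ℕ => Real.log (pS {k | ω ∈ S k} g) / √(g : ℝ)) atTop (𝓝 1) :=
  t_small (t_MA ara) (t_UPP ara t_PU t_RB) cru (low_of low2) t_DET z hmono hs μ ℱ S hM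

lemma fin_num {s : ℝ} (hs1 : s < 1) : ∀ᶠ g : ℕ in atTop,
    s * √(g : ℝ) + Real.log 2 ≤ (1 + s) / 2 * √(g : ℝ) := by
  filter_upwards [sq_tend.eventually_ge_atTop (2 * Real.log 2 / (1 - s))] with g g6
  have hd : 0 < 1 - s := by linarith
  rw [div_le_iff₀ hd] at g6
  nlinarith

/-- sieves which are not small -/
theorem not_small (ε : ℝ) (hε : 0 < ε) (z : ℕ → ℕ) (hmono : Monotone z)
    (hz : ∀ᶠ n : ℕ in atTop, (z n : ℝ) ≤ Real.log n ^ (1 - ε)) (hns : ¬ Small z) :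
    ∃ c : ℝ, c < 1 ∧ ∀ {Ω : Type} [mΩ : MeasurableSpace Ω]
    (μ : Measure Ω) [IsProbabilityMeasure μ] (ℱ : Filtration ℕ mΩ) (S : ℕ → Set Ω), IsModel μ ℱ S z →
    ∀ᵐ ω ∂μ, ∃ᶠ g : ℕ in atTop, pS {k | ω ∈ S k} g ∈ DETset {k | ω ∈ S k} g ∧
      Real.log (pS {k | ω ∈ S k} g) ≤ c * √(g : ℝ) := by
  have hl : Tendsto (fun n : ℕ => Real.log (n : ℝ)) atTop atTop :=
    Real.tendsto_log_atTop.comp tendsto_natCast_atTop_atTop
  have hzl : ∀ᶠ n : ℕ in atTop, (z n : ℝ) ≤ Real.log n := by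
    filter_upwards [hz, hl.eventually_ge_atTop 1] with n h h1
    calc (z n : ℝ) ≤ Real.log n ^ (1 - ε) := h
      _ ≤ Real.log n ^ (1 : ℝ) := Real.rpow_le_rpow_of_exponent_le h1 (by linarith)
      _ = Real.log n := Real.rpow_one _
  obtain ⟨ε0, hε0, hsca⟩ := t_SCA z hmono hns
  have he0 : 0 < min ε0 ε := lt_min hε0 hε
  obtain ⟨δ, hδ0, hδ1, hδ⟩ := t_ARB2 t_IRR (min ε0 ε) he0
  have hz' : ∀ᶠ n : ℕ in atTop, (z n : ℝ) ≤ Real.log n ^ (1 - min ε0 ε) := by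
    filter_upwards [hz, hl.eventually_ge_atTop 1] with n h h1
    exact h.trans (Real.rpow_le_rpow_of_exponent_le h1 (by linarith [min_le_right ε0 ε]))
  have hs0 : 0 < 1 - δ / 2 := by linarith
  have hs1 : √(1 - δ / 2) < 1 := by
    rw [Real.sqrt_lt' one_pos]
    linarith
  have hsp : 0 < √(1 - δ / 2) := Real.sqrt_pos.2 hs0
  refine ⟨(1 + √(1 - δ / 2)) / 2, by linarith, ?_⟩
  intro Ω mΩ μ _ ℱ S hM
  have h2 := low2 μ ℱ S z hM hzl _ (1 - δ) (√(1 - δ / 2)) (by linarith) hsp (by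
    rw [Real.sq_sqrt hs0.le]
    linarith) (hδ z hmono hz' _ hsp)
  have h3 := cru μ ℱ S z hM hmono hzl
  have hfr := hsca (min ε0 ε) he0 (min_le_left _ _) (√(1 - δ / 2)) hsp
  filter_upwards [h2, h3] with ω g2 g3
  have g4 := det3 {k | ω ∈ S k} g3 _ hsp
  refine (hfr.and_eventually (g2.and (g4.and (fin_num hs1)))).mono ?_
  rintro g ⟨hA, q1, q2, g6⟩
  have g5 := q2 (q1 hA)
  exact ⟨g5.1, g5.2.trans g6⟩

/-- sieves between two powers of the logarithm -/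
theorem power_case (ε : ℝ) (hε : 0 < ε) : ∃ c : ℝ, 0 < c ∧ c < 1 ∧ ∀ z : ℕ → ℕ, Monotone z →
    (∀ᶠ n : ℕ in atTop, Real.log n ^ ε ≤ (z n : ℝ) ∧ (z n : ℝ) ≤ Real.log n ^ (1 - ε)) →
    ∀ {Ω : Type} [mΩ : MeasurableSpace Ω]
    (μ : Measure Ω) [IsProbabilityMeasure μ] (ℱ : Filtration ℕ mΩ) (S : ℕ → Set Ω), IsModel μ ℱ S z →
    ∀ᵐ ω ∂μ, ∀ᶠ g : ℕ in atTop, pS {k | ω ∈ S k} g ∈ DETset {k | ω ∈ S k} g ∧
      Real.log (pS {k | ω ∈ S k} g) ≤ c * √(g : ℝ) := by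
  obtain ⟨δ, hδ0, hδ1, hδ⟩ := arb_of t_ARB2 t_IRR ε hε
  have hs0 : 0 < 1 - δ / 2 := by linarith
  have hs1 : √(1 - δ / 2) < 1 := by
    rw [Real.sqrt_lt' one_pos]
    linarith
  have hsp : 0 < √(1 - δ / 2) := Real.sqrt_pos.2 hs0
  refine ⟨(1 + √(1 - δ / 2)) / 2, by linarith, by linarith, ?_⟩
  intro z hmono hz Ω mΩ μ _ ℱ S hM
  have h2 := low_of low2 μ ℱ S z hM (pow_log hε hz) (1 - δ) (√(1 - δ / 2)) (by linarith) hsp (by
    rw [Real.sq_sqrt hs0.le]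
    linarith) (hδ z hmono hz _ hsp)
  have h3 := cru μ ℱ S z hM hmono (pow_log hε hz)
  filter_upwards [h2, h3] with ω g2 g3
  filter_upwards [g2, det3 {k | ω ∈ S k} g3 _ hsp, fin_num hs1] with g q1 q2 g6
  exact ⟨(q2 q1).1, (q2 q1).2.trans g6⟩

end Pool.Agent.J6H39.RS
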