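import Pool.Agent.J6H39.RS.Stm

/-! # Project RS (helper39): assembly -/

set_option autoImplicit false

namespace Pool.Agent.J6H39.RS

open MeasureTheory Filter Finset
open scoped Topology

lemma small_log {z : ℕ → ℕ} (hz : Small z) : ∀ᶠ n : ℕ in atTop, (z n : ℝ) ≤ Real.log n := by
  filter_upwards [hz 1 one_pos] with n h
  rwa [Real.rpow_one] at h

lemma pow_log {z : ℕ → ℕ} {ε : ℝ} (hε : 0 < ε)
    (hz : ∀ᶠ n : ℕ in atTop, Real.log n ^ ε ≤ (z n : ℝ) ∧ (z n : ℝ) ≤ Real.log n ^ (1 - ε)) :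
    ∀ᶠ n : ℕ in atTop, (z n : ℝ) ≤ Real.log n := by
  have hl : Tendsto (fun n : ℕ => Real.log (n : ℝ)) atTop atTop :=
    Real.tendsto_log_atTop.comp tendsto_natCast_atTop_atTop
  filter_upwards [hz, hl.eventually_ge_atTop 1] with n h h1
  calc (z n : ℝ) ≤ Real.log n ^ (1 - ε) := h.2
    _ ≤ Real.log n ^ (1 : ℝ) := Real.rpow_le_rpow_of_exponent_le h1 (by linarith)
    _ = Real.log n := Real.rpow_one _

theorem t_MAIN (hMA : S_MA) (hIRR : S_IRR) (hARB : S_ARB) (hUPP : S_UPP) (hCRU : S_CRU) (hLOW : S_LOW)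
    (hDET : S_DET) : S_MAIN := by
  constructor
  · intro z hmono hsmall Ω mΩ μ _ ℱ S hM
    have h1 : ∀ k : ℕ, ∀ᵐ ω ∂μ, ∀ᶠ n : ℕ in atTop,
        ∃ m ∈ Ioc n (n + ⌊(1 + 1 / ((k : ℝ) + 1)) * Real.log n ^ 2⌋₊), ω ∈ S m := by
      intro k
      exact hUPP μ ℱ S z hM hmono hsmall _ (by
        have : 0 < 1 / ((k : ℝ) + 1) := by positivity
        linarith)
    have h2 : ∀ k : ℕ, ∀ᵐ ω ∂μ, ∀ᶠ g : ℕ in atTop, ∃ a : ℕ, XX (1 + 1 / ((k : ℝ) + 1)) g ≤ 2 * a ∧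
        a + g ≤ XX (1 + 1 / ((k : ℝ) + 1)) g ∧ ∀ m ∈ Ioc a (a + g), ω ∉ S m := by
      intro k
      have hk : 0 < 1 / ((k : ℝ) + 1) := by positivity
      exact hLOW μ ℱ S z hM (small_log hsmall) 1 _ one_pos (by linarith) (by nlinarith)
        (hMA z hmono hsmall _ (by linarith))
    have h3 := hCRU μ ℱ S z hM hmono (small_log hsmall)
    filter_upwards [ae_all_iff.2 h1, ae_all_iff.2 h2, h3] with ω g1 g2 g3
    exact (hDET {k | ω ∈ S k} g3).2 g2 g1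
  · intro ε hε
    obtain ⟨δ, hδ0, hδ1, hδ⟩ := hARB hIRR ε hε
    have hs0 : 0 < 1 - δ / 2 := by linarith
    have hs1 : √(1 - δ / 2) < 1 := by
      rw [Real.sqrt_lt' one_pos]
      linarith
    have hsp : 0 < √(1 - δ / 2) := Real.sqrt_pos.2 hs0
    refine ⟨(1 + √(1 - δ / 2)) / 2, by linarith, by linarith, ?_⟩
    intro z hmono hz Ω mΩ μ _ ℱ S hM
    have h2 := hLOW μ ℱ S z hM (pow_log hε hz) (1 - δ) (√(1 - δ / 2)) (by linarith) hsp (by
      rw [Real.sq_sqrt hs0.le]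
      linarith) (hδ z hmono hz _ hsp)
    have h3 := hCRU μ ℱ S z hM hmono (pow_log hε hz)
    filter_upwards [h2, h3] with ω g2 g3
    have g4 := (hDET {k | ω ∈ S k} g3).1 _ hsp g2
    have hl : Tendsto (fun n : ℕ => √(n : ℝ)) atTop atTop :=
      Real.tendsto_sqrt_atTop.comp tendsto_natCast_atTop_atTop
    filter_upwards [g4, hl.eventually_ge_atTop (2 * Real.log 2 / (1 - √(1 - δ / 2)))] with g g5 g6
    refine g5.trans ?_
    have hd : 0 < 1 - √(1 - δ / 2) := by linarith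
    rw [div_le_iff₀ hd] at g6
    nlinarith
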