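import Pool.Agent.J6H39.RS.Main
import Pool.Agent.J6H39.RS.Stm2

/-! # Project RS (helper39): assembly, characterisation -/

set_option autoImplicit false

namespace Pool.Agent.J6H39.RS

open MeasureTheory Filter Finset
open scoped Topology

lemma low_of (h : S_LOW2) : S_LOW := by
  intro Ω mΩ μ _ ℱ S z hM hz κ c hκ hc hκc hMany
  have h1 := h μ ℱ S z hM hz Set.univ κ c hκ hc hκc (by
    intro η hη
    filter_upwards [hMany η hη] with g hg _
    exact hg)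
  filter_upwards [h1] with ω h2
  filter_upwards [h2] with g h3
  exact h3 (Set.mem_univ g)

/-- Shanks' law for small sieves -/
theorem t_small (hMA : S_MA) (hUPP : S_UPP) (hCRU : S_CRU) (hLOW : S_LOW) (hDET : S_DET) :
    ∀ z : ℕ → ℕ, Monotone z → Small z →
    ∀ {Ω : Type} [mΩ : MeasurableSpace Ω] (μ : Measure Ω) [IsProbabilityMeasure μ]
      (ℱ : Filtration ℕ mΩ) (S : ℕ → Set Ω), IsModel μ ℱ S z →
      ∀ᵐ ω ∂μ, Tendsto (fun g : ℕ => Real.log (pS {k | ω ∈ S k} g) / √(g : ℝ)) atTop (𝓝 1) := by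
  intro z hmono hsmall Ω mΩ μ _ ℱ S hM
  have h1 : ∀ k : ℕ, ∀ᵐ ω ∂μ, ∀ᶠ n : ℕ in atTop,
      ∃ m ∈ Ioc n (n + ⌊(1 + 1 / ((k : ℝ) + 1)) * Real.log n ^ 2⌋₊), ω ∈ S m := by
    intro k
    exact hUPP μ ℱ S z hM hmono hsmall _ (by
      have : 0 < 1 / ((k : ℝ) + 1) := by positivity
      linarith)
  have h2 : ∀ k : ℕ, ∀ᵐ ω ∂μ, ∀ᶠ g : ℕ in atTop, ∃ a : ℕ, XX (1 + 1 / ((k : ℝ) + 1)) g ≤ 2 * a ∧
      a + g ≤ XX (1 + 1 / ((k : ℝ) + 1)) g ∧ ∀ m ∈ Ioc a (a + g), ω ∉ S m := by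
    intro k
    have hk : 0 < 1 / ((k : ℝ) + 1) := by positivity
    exact hLOW μ ℱ S z hM (small_log hsmall) 1 _ one_pos (by linarith) (by nlinarith)
      (hMA z hmono hsmall _ (by linarith))
  have h3 := hCRU μ ℱ S z hM hmono (small_log hsmall)
  filter_upwards [ae_all_iff.2 h1, ae_all_iff.2 h2, h3] with ω g1 g2 g3
  exact (hDET {k | ω ∈ S k} g3).2 g2 g1

theorem t_MAIN2 (hMA : S_MA) (hIRR : S_IRR) (hARB : S_ARB2) (hUPP : S_UPP) (hCRU : S_CRU) (hLOW : S_LOW2)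
    (hDET : S_DET) (hDET2 : S_DET2) (hSCA : S_SCA) : S_MAIN2 := by
  intro ε hε z hmono hz Ω mΩ μ _ ℱ S hM
  have hl : Tendsto (fun n : ℕ => Real.log (n : ℝ)) atTop atTop :=
    Real.tendsto_log_atTop.comp tendsto_natCast_atTop_atTop
  have hzl : ∀ᶠ n : ℕ in atTop, (z n : ℝ) ≤ Real.log n := by
    filter_upwards [hz, hl.eventually_ge_atTop 1] with n h h1
    calc (z n : ℝ) ≤ Real.log n ^ (1 - ε) := h
      _ ≤ Real.log n ^ (1 : ℝ) := Real.rpow_le_rpow_of_exponent_le h1 (by linarith)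
      _ = Real.log n := Real.rpow_one _
  have key : ¬ Small z → ∃ c : ℝ, c < 1 ∧ ∀ᵐ ω ∂μ, ∃ᶠ g : ℕ in atTop,
      Real.log (pS {k | ω ∈ S k} g) ≤ c * √(g : ℝ) := by
    intro hns
    obtain ⟨ε0, hε0, hsca⟩ := hSCA z hmono hns
    have he0 : 0 < min ε0 ε := lt_min hε0 hε
    obtain ⟨δ, hδ0, hδ1, hδ⟩ := hARB hIRR (min ε0 ε) he0
    have hz' : ∀ᶠ n : ℕ in atTop, (z n : ℝ) ≤ Real.log n ^ (1 - min ε0 ε) := by
      filter_upwards [hz, hl.eventually_ge_atTop 1] with n h h1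
      exact h.trans (Real.rpow_le_rpow_of_exponent_le h1 (by linarith [min_le_right ε0 ε]))
    have hs0 : 0 < 1 - δ / 2 := by linarith
    have hs1 : √(1 - δ / 2) < 1 := by
      rw [Real.sqrt_lt' one_pos]
      linarith
    have hsp : 0 < √(1 - δ / 2) := Real.sqrt_pos.2 hs0
    refine ⟨(1 + √(1 - δ / 2)) / 2, by linarith, ?_⟩
    have h2 := hLOW μ ℱ S z hM hzl _ (1 - δ) (√(1 - δ / 2)) (by linarith) hsp (by
      rw [Real.sq_sqrt hs0.le]
      linarith) (hδ z hmono hz' _ hsp)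
    have h3 := hCRU μ ℱ S z hM hmono hzl
    have hfr := hsca (min ε0 ε) he0 (min_le_left _ _) (√(1 - δ / 2)) hsp
    filter_upwards [h2, h3] with ω g2 g3
    have g4 := hDET2 {k | ω ∈ S k} g3 _ hsp
    have hl2 : Tendsto (fun n : ℕ => √(n : ℝ)) atTop atTop :=
      Real.tendsto_sqrt_atTop.comp tendsto_natCast_atTop_atTop
    refine (hfr.and_eventually (g2.and (g4.and
      (hl2.eventually_ge_atTop (2 * Real.log 2 / (1 - √(1 - δ / 2))))))).mono ?_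
    rintro g ⟨hA, q1, q2, g6⟩
    have g5 := q2 (q1 hA)
    refine g5.trans ?_
    have hd : 0 < 1 - √(1 - δ / 2) := by linarith
    rw [div_le_iff₀ hd] at g6
    nlinarith
  refine ⟨⟨fun hT => ?_, fun hs => t_small hMA hUPP hCRU (low_of hLOW) hDET z hmono hs μ ℱ S hM⟩, key⟩
  by_contra hns
  obtain ⟨c, hc1, hc⟩ := key hns
  obtain ⟨ω, h1, h2⟩ := (hT.and hc).exists
  have h3 : ∀ᶠ g : ℕ in atTop, (c + 1) / 2 < Real.log (pS {k | ω ∈ S k} g) / √(g : ℝ) :=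
    h1.eventually (lt_mem_nhds (by linarith))
  obtain ⟨g, h4, h5, h6⟩ := (h2.and_eventually (h3.and (eventually_ge_atTop 1))).exists
  have hg : 0 < √(g : ℝ) := Real.sqrt_pos.2 (by exact_mod_cast h6)
  rw [lt_div_iff₀ hg] at h5
  nlinarith

end Pool.Agent.J6H39.RS
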