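import Pool.Agent.J6H39.RS.Fin

/-! # Project RS (helper39): the results in terms of the first element after a run behind a preceding element -/

set_option autoImplicit false

namespace Pool.Agent.J6H39.RS

open MeasureTheory Filter Finset
open scoped Topology

/-- the `m ∈ T` whose predecessor `l ∈ T` satisfies `l + g < m` -/
def Fset (T : Set ℕ) (g : ℕ) : Set ℕ := {m : ℕ | m ∈ T ∧ ∃ l ∈ T, l + g < m ∧ ∀ n, l < n → n < m → n ∉ T}

lemma Fset_eq (T : Set ℕ) {m0 g : ℕ} (h0 : m0 ∈ T) (hg : m0 ≤ g) : Fset T g = DETset T g := by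
  classical
  ext m
  constructor
  · rintro ⟨h1, l, hl, h2, h3⟩
    refine ⟨h1, by omega, fun j hj1 hj2 => h3 j (by omega) hj2⟩
  · rintro ⟨h1, h2, h3⟩
    have hm0 : m0 < m - g := by
      by_contra hcon
      exact h3 m0 (by omega) (by omega) h0
    -- the last element before `m - g`
    have hne : ((range (m - g)).filter (fun j => j ∈ T)).Nonempty :=
      ⟨m0, by rw [mem_filter, mem_range]; exact ⟨hm0, h0⟩⟩
    obtain ⟨l, hl1, hl2⟩ := exists_max_image _ (fun j => j) hne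
    rw [mem_filter, mem_range] at hl1
    refine ⟨h1, l, hl1.2, by omega, fun n hn1 hn2 hn => ?_⟩
    by_cases h : m - g ≤ n
    · exact h3 n h hn2 hn
    · have := hl2 n (by rw [mem_filter, mem_range]; exact ⟨by omega, hn⟩)
      omega

/-- for sets with elements in all intervals `(n, 2 n]` the two versions agree for large `g` -/
lemma first_eq (T : Set ℕ) (hT : ∀ᶠ n : ℕ in atTop, ∃ m ∈ Ioc n (2 * n), m ∈ T) :
    ∀ᶠ g : ℕ in atTop, Fset T g = DETset T g := by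
  obtain ⟨n, m0, -, h0⟩ := hT.exists
  filter_upwards [eventually_ge_atTop m0] with g hg
  exact Fset_eq T h0 hg

theorem not_small' (ε : ℝ) (hε : 0 < ε) (z : ℕ → ℕ) (hmono : Monotone z)
    (hz : ∀ᶠ n : ℕ in atTop, (z n : ℝ) ≤ Real.log n ^ (1 - ε)) (hns : ¬ Small z) :
    ∃ c : ℝ, c < 1 ∧ ∀ {Ω : Type} [mΩ : MeasurableSpace Ω]
    (μ : Measure Ω) [IsProbabilityMeasure μ] (ℱ : Filtration ℕ mΩ) (S : ℕ → Set Ω), IsModel μ ℱ S z →
    ∀ᵐ ω ∂μ, ∃ᶠ g : ℕ in atTop, sInf (Fset {k | ω ∈ S k} g) ∈ Fset {k | ω ∈ S k} g ∧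
      Real.log (sInf (Fset {k | ω ∈ S k} g) : ℕ) ≤ c * √(g : ℝ) := by
  obtain ⟨c, hc, h⟩ := not_small ε hε z hmono hz hns
  refine ⟨c, hc, ?_⟩
  intro Ω mΩ μ _ ℱ S hM
  have hl : Tendsto (fun n : ℕ => Real.log (n : ℝ)) atTop atTop :=
    Real.tendsto_log_atTop.comp tendsto_natCast_atTop_atTop
  have hzl : ∀ᶠ n : ℕ in atTop, (z n : ℝ) ≤ Real.log n := by
    filter_upwards [hz, hl.eventually_ge_atTop 1] with n h h1
    calc (z n : ℝ) ≤ Real.log n ^ (1 - ε) := h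
      _ ≤ Real.log n ^ (1 : ℝ) := Real.rpow_le_rpow_of_exponent_le h1 (by linarith)
      _ = Real.log n := Real.rpow_one _
  filter_upwards [h μ ℱ S hM, cru μ ℱ S z hM hmono hzl] with ω h1 h2
  refine (h1.and_eventually (first_eq {k | ω ∈ S k} h2)).mono ?_
  rintro g ⟨⟨h3, h4⟩, h5⟩
  rw [h5]
  exact ⟨h3, h4⟩

theorem power_case' (ε : ℝ) (hε : 0 < ε) : ∃ c : ℝ, 0 < c ∧ c < 1 ∧ ∀ z : ℕ → ℕ, Monotone z →
    (∀ᶠ n : ℕ in atTop, Real.log n ^ ε ≤ (z n : ℝ) ∧ (z n : ℝ) ≤ Real.log n ^ (1 - ε)) →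
    ∀ {Ω : Type} [mΩ : MeasurableSpace Ω]
    (μ : Measure Ω) [IsProbabilityMeasure μ] (ℱ : Filtration ℕ mΩ) (S : ℕ → Set Ω), IsModel μ ℱ S z →
    ∀ᵐ ω ∂μ, ∀ᶠ g : ℕ in atTop, sInf (Fset {k | ω ∈ S k} g) ∈ Fset {k | ω ∈ S k} g ∧
      Real.log (sInf (Fset {k | ω ∈ S k} g) : ℕ) ≤ c * √(g : ℝ) := by
  obtain ⟨c, hc0, hc, h⟩ := power_case ε hε
  refine ⟨c, hc0, hc, ?_⟩
  intro z hmono hz Ω mΩ μ _ ℱ S hM
  filter_upwards [h z hmono hz μ ℱ S hM, cru μ ℱ S z hM hmono (pow_log hε hz)] with ω h1 h2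
  filter_upwards [h1, first_eq {k | ω ∈ S k} h2] with g h3 h5
  rw [h5]
  exact h3

end Pool.Agent.J6H39.RS
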