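import Pool.Agent.J6H39.RS.Stm2

/-!
# RS-13, SCA: admissible `g` exist at arbitrarily large scales (helper57 for helper39)
-/

set_option autoImplicit false

namespace Pool.Agent.J6H39.RS

open Filter Finset
open scoped Topology

namespace SCA

/-- the scale belonging to `n` -/
noncomputable def gg (c : ℝ) (n : ℕ) : ℕ := ⌈(Real.log (2 * n + 1) / c) ^ 2⌉₊

lemma log_pos' (n : ℕ) : 0 ≤ Real.log (2 * n + 1) := by
  apply Real.log_nonneg
  have : (0 : ℝ) ≤ n := Nat.cast_nonneg n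
  linarith

lemma le_gg (c : ℝ) (n : ℕ) : (Real.log (2 * n + 1) / c) ^ 2 ≤ (gg c n : ℝ) := Nat.le_ceil _

lemma le_xx {c : ℝ} (hc : 0 < c) (n : ℕ) : n ≤ XX c (gg c n) / 2 := by
  rw [Nat.le_div_iff_mul_le (by norm_num)]
  unfold XX
  apply Nat.le_floor
  have h1 : Real.log (2 * n + 1) / c ≤ √(gg c n : ℝ) := Real.le_sqrt_of_sq_le (le_gg c n)
  have h2 : Real.log (2 * n + 1) ≤ c * √(gg c n : ℝ) := by
    rw [div_le_iff₀ hc] at h1
    linarith
  have hn : (0 : ℝ) < 2 * n + 1 := by positivity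
  have h3 : (2 * n + 1 : ℝ) ≤ Real.exp (c * √(gg c n : ℝ)) := by
    rw [← Real.exp_log hn]
    exact Real.exp_le_exp.2 h2
  push_cast
  linarith

lemma tendsto_gg {c : ℝ} (hc : 0 < c) : Tendsto (gg c) atTop atTop := by
  have h1 : Tendsto (fun n : ℕ => (2 * (n : ℝ) + 1)) atTop atTop := by
    apply tendsto_atTop_add_const_right
    exact Tendsto.const_mul_atTop (by norm_num) tendsto_natCast_atTop_atTop
  have h2 : Tendsto (fun n : ℕ => (Real.log (2 * n + 1) / c) ^ 2) atTop atTop :=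
    (tendsto_pow_atTop (by norm_num)).comp ((Real.tendsto_log_atTop.comp h1).atTop_div_const hc)
  exact tendsto_nat_ceil_atTop.comp h2

end SCA

open SCA in
theorem t_SCA : S_SCA := by
  intro z hz hns
  unfold Small at hns
  push Not at hns
  obtain ⟨δ0, hδ0, hfr⟩ := hns
  refine ⟨δ0 / 3, by positivity, ?_⟩
  intro ε hε hε0 c hc
  apply (tendsto_gg hc).frequently
  have hL : Tendsto (fun n : ℕ => Real.log n) atTop atTop :=
    Real.tendsto_log_atTop.comp tendsto_natCast_atTop_atTop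
  have hev : ∀ᶠ n : ℕ in atTop, 3 ≤ n ∧ (1 ≤ Real.log n ∧ 4 / c ^ 2 + 2 ≤ Real.log n) := by
    filter_upwards [eventually_ge_atTop 3, hL.eventually_ge_atTop 1,
      hL.eventually_ge_atTop (4 / c ^ 2 + 2)] with n h1 h2 h3
    exact ⟨h1, h2, h3⟩
  refine (hfr.and_eventually hev).mono ?_
  rintro n ⟨hn, hn3, hL1, hL2⟩
  set L := Real.log n with hLdef
  have h3 : (3 : ℝ) ≤ n := by exact_mod_cast hn3
  -- size of `g`
  have hlog : Real.log (2 * n + 1) ≤ 2 * L := by
    have e : 2 * L = Real.log ((n : ℝ) ^ 2) := by rw [Real.log_pow, hLdef]; norm_num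
    rw [e]
    apply Real.log_le_log (by positivity)
    nlinarith
  have hg : (gg c n : ℝ) ≤ L ^ 3 := by
    have h4 : (gg c n : ℝ) < (Real.log (2 * n + 1) / c) ^ 2 + 1 := Nat.ceil_lt_add_one (sq_nonneg _)
    have h5 : (Real.log (2 * n + 1) / c) ^ 2 ≤ 4 / c ^ 2 * L ^ 2 := by
      rw [div_pow, div_mul_eq_mul_div]
      apply div_le_div_of_nonneg_right _ (by positivity)
      have := log_pos' n
      nlinarith
    have h6 : (4 / c ^ 2 + 2) * L ^ 2 ≤ L ^ 3 := by
      have : L ^ 3 = L * L ^ 2 := by ring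
      rw [this]
      exact mul_le_mul_of_nonneg_right hL2 (sq_nonneg _)
    have h7 : 1 ≤ L ^ 2 := one_le_pow₀ hL1
    nlinarith
  have hL0 : (0 : ℝ) ≤ L := by linarith
  calc ((gg c n : ℕ) : ℝ) ^ ε ≤ (L ^ 3) ^ ε :=
        Real.rpow_le_rpow (Nat.cast_nonneg _) hg hε.le
    _ = L ^ (3 * ε) := by
        rw [← Real.rpow_natCast, ← Real.rpow_mul hL0]
        norm_num
    _ ≤ L ^ δ0 := Real.rpow_le_rpow_of_exponent_le hL1 (by linarith)
    _ ≤ z n := hn.le
    _ ≤ z (XX c (gg c n) / 2) := by exact_mod_cast hz (le_xx hc n)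

end Pool.Agent.J6H39.RS
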