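import Mathlib

set_option autoImplicit false

/-!
# Project RS (helper39): Shanks' conjecture in sequential random models with a growing sieve, statements

Target `MP_926cc3_nt`. The integers are decided one after the other; no `m` with a prime factor `q ≤ z(m)` is
chosen; the conditional probability of choosing `m + 1` (without such prime factors) given the past is asymptotic
to `W(z(m + 1)) / log m`, `W(x) = ∏_{q ≤ x} (1 - 1/q)⁻¹`. For nondecreasing `z`: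

(A) `z(n) ≤ (log n)^(o(1))`: almost surely `log p(g) ~ √g`.
(B) `(log n)^ε ≤ z(n) ≤ (log n)^(1-ε)`: there is `c < 1` (depending on `ε` only) such that almost surely
`log p(g) ≤ c √g` for all large `g`. So Shanks' asymptotic law fails.

Everything is elementary except the fundamental lemma of the sieve (`Pool.Agent.TH882.FL.fl1`) and the
asymptotics of the sum of `1/p` over primes `z^E < p ≤ z` (`Pool.Agent.N610.MS`, `Pool.Agent.J6H13.MF.blockz`).
-/

namespace Pool.Agent.J6H39.RS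

open MeasureTheory Filter Finset
open scoped Topology

/-- no prime `q ≤ z m` divides `m` -/
def Rough (z : ℕ → ℕ) (m : ℕ) : Prop := ∀ q : ℕ, q.Prime → q ≤ z m → ¬ q ∣ m

/-- `∏ (1 - 1/q)⁻¹` over the primes `q ≤ x` (the same expression as `Pool.Agent.J6H13.UM.W0`) -/
noncomputable def W (x : ℕ) : ℝ := ∏ q ∈ (Finset.Icc 1 x).filter Nat.Prime, (1 - (q : ℝ)⁻¹)⁻¹

open Classical in
/-- the density of the model at `m` -/
noncomputable def w (z : ℕ → ℕ) (m : ℕ) : ℝ := if Rough z m then W (z m) / Real.log m else 0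

/-- the conditional probability of `S m` given the past of `m` (used for `m ≥ 1` only) -/
noncomputable def q {Ω : Type} [mΩ : MeasurableSpace Ω] (μ : Measure Ω) (ℱ : Filtration ℕ mΩ)
    (S : ℕ → Set Ω) (m : ℕ) : Ω → ℝ := μ[(S m).indicator (fun _ => (1 : ℝ)) | ℱ (m - 1)]

/-- a sequential random model of the primes sieved by the primes `q ≤ z(m)` -/
structure IsModel {Ω : Type} [mΩ : MeasurableSpace Ω] (μ : Measure Ω) (ℱ : Filtration ℕ mΩ)
    (S : ℕ → Set Ω) (z : ℕ → ℕ) : Prop where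
  /-- whether `n` is chosen is known at the time `n` -/
  adapted : ∀ n, MeasurableSet[ℱ n] (S n)
  /-- no `n` with a prime factor `q ≤ z n` is chosen -/
  sieved : ∀ n, ¬ Rough z n → S n = ∅
  /-- the conditional probability of `S (n + 1)` given `ℱ n` is asymptotic to `W (z (n + 1)) / log n`
  along the `n` with `Rough z (n + 1)` -/
  density : ∀ᵐ ω ∂μ, Tendsto (fun n : ℕ =>
    (μ[(S (n + 1)).indicator (fun _ => (1 : ℝ)) | ℱ n]) ω * Real.log n / W (z (n + 1)))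
    (atTop ⊓ 𝓟 {n : ℕ | Rough z (n + 1)}) (𝓝 1)

open Classical in
/-- the number of the `m ∈ (a, a + L]` without prime factors `≤ v` -/
noncomputable def rgh (v a L : ℕ) : ℕ :=
  ((Ioc a (a + L)).filter (fun m => ∀ q : ℕ, q.Prime → q ≤ v → ¬ q ∣ m)).card

/-- the sieve is small: `z(n) ≤ (log n)^(o(1))` -/
def Small (z : ℕ → ℕ) : Prop := ∀ δ : ℝ, 0 < δ → ∀ᶠ n : ℕ in atTop, (z n : ℝ) ≤ Real.log n ^ δ

/-- FLI: the fundamental lemma for intervals, all primes up to `z`, all `z ≥ 0`.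

PROOF. `Pool.Agent.TH882.FL.fl1 1` gives `C0`. Take `b ≥ C0` with `(1/2)^b ≤ δ`, `z0 = C0`,
`M0 = ∏_{p ≤ z0} p`. For each residue class `r` modulo `M0` which is prime to `M0` let `S_r` be the set of the
`m ∈ (a, a + L]` with `m ≡ r (mod M0)`, `A = L / M0`, `P` = primes in `(z0, z]`, `Om p = {0}` (apply `fl1` with
`n % p = 0`), `J` the least natural number with `z ≤ 2 ^ 2 ^ J` (then `2 ^ 2 ^ J ≤ (z+1)^2 + 2`, or so; compare
`JJ`, `JJ_lt`, `JJ_le` of `Pool.Agent.J6H13.UM.Sieve`). The sets `{m ∈ S_r : m ≡ c_p (mod p), p ∈ T}` are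
the members of an interval in one class modulo `M0 ∏_T p` (Chinese remainder theorem), so there are
`L / (M0 ∏_T p) + O(1)` of them, with error at most `1`. Sum over the `φ(M0)` classes `r`; `φ(M0)/M0` times the
product over `z0 < p ≤ z` is `1 / W z` if `z ≥ z0`. If `z < z0`: the number of the `m ∈ (a, a+L]` without prime
factors `≤ z` is `L φ(M)/M + O(M)`, `M = ∏_{p ≤ z} p ≤ M0` (or `P = ∅`, `M0` replaced by `M`), a constant error.
The library contains the same argument for systems of linear forms with an inequality only: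
`Pool.Agent.J6H13.UM.Sieve` (`rough_low`). -/
def S_FLI : Prop := ∀ δ : ℝ, 0 < δ → ∃ C : ℕ, ∀ z a L : ℕ,
  |(rgh z a L : ℝ) - L / W z| ≤ δ * (L / W z) + C * ((z : ℝ) + 1) ^ C

/-- ARA: the mean value of the density in intervals of length `≍ (log n)²`, small sieves.

PROOF (from `S_FLI`). Let `x ↦ z x` take the values `v_1 < ... < v_r` on `(n, n + g]`; by monotonicity the set
where it takes the value `v_i` is an interval `(a_i, a_i + L_i]`, and `r ≤ z(n + g) + 1 ≤ (log n)^(o(1))`. On it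
`w z m = 1_{m rough for v_i} W(v_i) / log m`, and `log m / log n → 1` uniformly. By `S_FLI` (with `δ = η/4`) the
sum of `1_{rough} W(v_i)` over `(a_i, a_i + L_i]` is `L_i` up to `η/4 L_i + C (v_i + 1)^C W(v_i)`, and
`W(v) ≤ C₁ + C₂ log v` (`Pool.Agent.J6H13.UM.W0_bound`; or simply `W(v) ≤ v + 1`). The sum of the errors is at
most `η/4 g + (log n)^(o(1)) ≤ η/2 g`. A proof without splitting into the intervals: induction over the number of
values of `z`, or sum over the values `v ≤ z(n+g)` of the sums over the `m` with `z m = v`. -/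
def S_ARA : Prop := ∀ z : ℕ → ℕ, Monotone z → Small z → ∀ c1 c2 η : ℝ, 0 < c1 → 0 < c2 → 0 < η →
  ∀ᶠ n : ℕ in atTop, ∀ g : ℕ, c1 * Real.log n ^ 2 ≤ g → (g : ℝ) ≤ c2 * Real.log n ^ 2 →
    |∑ m ∈ Ioc n (n + g), w z m - g / Real.log n| ≤ η * (g / Real.log n)

/-- the primes in `(g^(E/k), g^(1/k)]` -/
noncomputable def PP (k : ℕ) (E : ℝ) (g : ℕ) : Finset ℕ :=
  (Ioc ⌊(g : ℝ) ^ (E / k)⌋₊ ⌊(g : ℝ) ^ ((1 : ℝ) / k)⌋₊).filter Nat.Prime

/-- IRR: for odd `k` the integers in `[1, g]` without prime factors in `PP k E g` are rarer than on average.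

PROOF. This is in the library in other words: `Pool.Agent.N610.MS.CNTaux.core` (with `t_BON`, `t_LEG t_BON`), used
with `P = PP k E g`, `σ = (-1)^k = -1`, `y = g`, `Ya = Yb = y` (more precisely `Ya = g`, `Yb = g`), `Yc` = some very
large number, `C = 1`; the hypotheses are checked in `Pool.Agent.J6H13.MF.Cnt` (`cntk`, `blockz`; copy from there)
with `z = g^(1/k)`, `s0 = log (1/E)` small (`≤ 1/32`, `≤ 1/(4)`), `E` so near `1` that `E (k + 1) > k`, so that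
products of `k + 1` members of `P` are `> z^(E (k+1)) > z^k = g`; `(|P| + 1)^k ≤ β g` since `|P| = o(z)`
(`blockz`). Conclusion `2 δ' ≤ -(rel P g - 1)`, `rel P y = V P ⌊y⌋₊ / (y ∏ (1 - 1/p))`. -/
def S_IRR : Prop := ∀ k : ℕ, Odd k → ∃ δ E : ℝ, 0 < δ ∧ δ ≤ 1 ∧ 0 < E ∧ E < 1 ∧ ∀ᶠ g : ℕ in atTop,
  (((Icc 1 g).filter (fun h => ∀ p ∈ PP k E g, ¬ p ∣ h)).card : ℝ) ≤
    (1 - δ) * g * ∏ p ∈ PP k E g, (1 - (p : ℝ)⁻¹)

/-- the end of the search, `X = exp (c √g)` -/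
noncomputable def XX (c : ℝ) (g : ℕ) : ℕ := ⌊Real.exp (c * √(g : ℝ))⌋₊

/-- there are many disjoint intervals `(a, a + g]` between `X/2` and `X = exp (c √g)` in which the density is at
most `κ` times its average -/
def Many (z : ℕ → ℕ) (κ c : ℝ) : Prop := ∀ η : ℝ, 0 < η → ∀ᶠ g : ℕ in atTop, ∃ J : Finset ℕ,
  (∀ a ∈ J, XX c g ≤ 2 * a ∧ a + g ≤ XX c g) ∧
  (∀ a ∈ J, ∀ b ∈ J, a ≠ b → a + g ≤ b ∨ b + g ≤ a) ∧
  (XX c g : ℝ) ^ (1 - η) ≤ (J.card : ℝ) ∧
  ∀ a ∈ J, ∑ m ∈ Ioc a (a + g), w z m ≤ (κ + η) * (g / Real.log (XX c g))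

/-- MA: `Many` with `κ = 1` for small sieves (all intervals).

PROOF. `J` = the `a = ⌈X/2⌉ + j g`, `j < ⌊X / (4 g)⌋`; `log a ≥ log X - log 2` and `log X ≤ c √g`, so that
`S_ARA` applies with `n = a`, `c1 = 1/(2 c²)`, `c2 = 2/c²`, and `g / log a ≤ (1 + o(1)) g / log X`. -/
def S_MA : Prop := ∀ z : ℕ → ℕ, Monotone z → Small z → ∀ c : ℝ, 0 < c → Many z 1 c

/-- ARB: `Many` with some `κ = 1 - δ < 1` for sieves between `(log n)^ε` and `(log n)^(1-ε)`.

PROOF (from `S_IRR`). Let `k` be odd with `2/k < ε`, `δ, E` from `S_IRR`, `P = PP k E g`, `Q = ∏_{p ∈ P} p`. For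
large `g` and `m ≥ X/2 - 1`, `X = XX c g`, we have `z(m) ≥ (log m)^ε ≥ g^(1/k)`, so all `p ∈ P` are `≤ z(m)`. Let
`B = ∏_{p ≤ z(X)} p ≤ 4^{z(X)} = X^(o(1))` (`primorial_le_four_pow`), a multiple of `Q`; `Q > g` (`Q` is at least
the product of many primes `> g^(E/k)`; or use only one of `g` classes of multiples, see below). Consider the
`N ≍ X / (2 B)` blocks `(t B, (t + 1) B]` inside `(X/2, X - g - B)`. All but at most `z(X) + 1` of them have the
property that `z` is constant, `= v`, on `(t B, (t+1) B + g]` (monotone). For such a block and `i ∈ [1, g]` the sum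
of `1_{n + i rough for v} W(v)` over the `n ∈ (t B, (t + 1) B]`, `Q ∣ n`, is zero if `(i, Q) > 1`, and otherwise
`(B/Q) ∏_{p ≤ v, p ∉ P} (1 - 1/p) W(v) = (B/Q) ∏_{p ∈ P} (1 - 1/p)⁻¹` (Chinese remainder theorem: `n + i`
runs through the classes modulo `B` which are `≡ i (mod Q)`; divisibility by the other primes is independent).
Summing over `i ≤ g` and using `S_IRR`: the sum over the multiples `n` of `Q` in the block of
`∑_{i ≤ g} 1_{rough} W(v)` is at most `(1 - δ) g (B/Q)`. Hence at least one `n` of the block, `Q ∣ n`, has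
`∑_{i ≤ g} w z (n + i) ≤ (1 - δ) g / log (X/2) ≤ (1 - δ + o(1)) g / log X`. Take one such `n = a` from every other
block (`t` even, without the exceptional ones); blocks are longer than `2 g` (`B` is divisible by all primes up
to `z(X) ≥ g^(1/k)`; if you do not want to prove `B ≥ g` replace `B` by `B · g`), so the intervals
`(a, a + g]` are disjoint. Number: `≥ X / (10 B g) ≥ X^(1-η)`. (No need for `Q > g`.) -/
def S_ARB : Prop := S_IRR → ∀ ε : ℝ, 0 < ε → ∃ δ : ℝ, 0 < δ ∧ δ < 1 ∧ ∀ z : ℕ → ℕ, Monotone z →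
  (∀ᶠ n : ℕ in atTop, Real.log n ^ ε ≤ (z n : ℝ) ∧ (z n : ℝ) ≤ Real.log n ^ (1 - ε)) →
  ∀ c : ℝ, 0 < c → Many z (1 - δ) c

/-- PU: the probability of choosing nothing in a finite set `I` of times.

PROOF. Induction over `I` (`Finset.induction_on_max`): let `t` be the largest element, `I = I' ∪ {t}`, `G'` the event
`{q ≥ l on I} ∩ {nothing chosen in I'}`, which is (a.e. equal to) a member of `ℱ (t - 1)` (`q m` is
`ℱ (m-1)`-measurable). Then `μ (G' ∩ S(t)ᶜ) = ∫_{G'} (1 - q_t) ≤ (1 - l_t) μ(G')` (`setIntegral_condExp`). -/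
def S_PU : Prop := ∀ {Ω : Type} [mΩ : MeasurableSpace Ω] (μ : Measure Ω) [IsProbabilityMeasure μ]
  (ℱ : Filtration ℕ mΩ) (S : ℕ → Set Ω), (∀ n, MeasurableSet[ℱ n] (S n)) →
  ∀ (I : Finset ℕ) (l : ℕ → ℝ), 0 ∉ I → (∀ m ∈ I, 0 ≤ l m ∧ l m ≤ 1) →
    μ.real {ω | (∀ m ∈ I, l m ≤ q μ ℱ S m ω) ∧ ∀ m ∈ I, ω ∉ S m} ≤ ∏ m ∈ I, (1 - l m)

/-- PL: the probability that all of many disjoint intervals contain a chosen integer.

PROOF. One interval `(s, t]`, `t = s + g`: let `Y ≥ 0` be bounded and `ℱ s`-measurable, `G_n` (`s ≤ n ≤ t`) the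
event that `q_m ≤ u_m` for all `m` in question which are `≤ n + 1` (and `≤ t`) — an event of `ℱ n` —,
`θ_n = ∏_{n < m ≤ t} (1 - u_m)`, and `N_n` the event that nothing is chosen in `(s, n]`. Then
`D_n = ∫_{G_n} Y (1 - θ_n 1_{N_n})` is nonincreasing in `n`: given `ℱ (n-1)`, on `N_{n-1}` the event `N_n` has
probability `1 - q_n ≥ 1 - u_n` on `G_{n-1}`, so the conditional expectation of `1 - θ_n 1_{N_n}` is
`1 - θ_n (1 - q_n) 1_{N_{n-1}} ≤ 1 - θ_{n-1} 1_{N_{n-1}}`; and `G_n ⊆ G_{n-1}`, integrand `≥ 0`. So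
`∫_{G_t} Y 1_{something chosen in (s,t]} = D_t ≤ D_s = (1 - θ_s) ∫_{G_s} Y`. Then induction over the intervals
(`Finset.induction_on_max` over `J`), `Y` = indicator of: all earlier intervals are hit and `q ≤ u` on them. -/
def S_PL : Prop := ∀ {Ω : Type} [mΩ : MeasurableSpace Ω] (μ : Measure Ω) [IsProbabilityMeasure μ]
  (ℱ : Filtration ℕ mΩ) (S : ℕ → Set Ω), (∀ n, MeasurableSet[ℱ n] (S n)) →
  ∀ (J : Finset ℕ) (g : ℕ) (u : ℕ → ℝ), (∀ m, 0 ≤ u m ∧ u m ≤ 1) →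
    (∀ a ∈ J, ∀ b ∈ J, a ≠ b → a + g ≤ b ∨ b + g ≤ a) →
    μ.real {ω | (∀ a ∈ J, ∀ m ∈ Ioc a (a + g), q μ ℱ S m ω ≤ u m) ∧
        ∀ a ∈ J, ∃ m ∈ Ioc a (a + g), ω ∈ S m} ≤
      ∏ a ∈ J, (1 - ∏ m ∈ Ioc a (a + g), (1 - u m))

/-- RB: the conditional probabilities follow the densities.

PROOF. For almost all `ω`: from `IsModel.density`, `q μ ℱ S (n+1) ω log n / W (z (n+1))` is within `η/2` of `1`
for large `n` with `Rough z (n+1)`, and `log (n+1) / log n → 1`; for the other `n`, `S (n+1) = ∅` and `w = 0`, and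
`q = μ[0 | ..] = 0` almost everywhere (countably many `n`). -/
def S_RB : Prop := ∀ {Ω : Type} [mΩ : MeasurableSpace Ω] (μ : Measure Ω) [IsProbabilityMeasure μ]
  (ℱ : Filtration ℕ mΩ) (S : ℕ → Set Ω) (z : ℕ → ℕ), IsModel μ ℱ S z → ∀ η : ℝ, 0 < η → η < 1 →
  ∀ᵐ ω ∂μ, ∀ᶠ m : ℕ in atTop, (1 - η) * w z m ≤ q μ ℱ S m ω ∧ q μ ℱ S m ω ≤ (1 + η) * w z m

/-- UPP: all runs of integers which are not chosen are short (small sieves).

PROOF (from `S_ARA`, `S_PU`, `S_RB`). WLOG `c ≤ 2`, `c = 1 + δ`. `h n = ⌊c (log n)²⌋₊`. Let `l m = (1 - δ/8) w z m`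
(it is in `[0,1]` for large `m`, since `W (z m) ≤ z m + 1` is small compared with `log m`), `G_N` the event
that `l m ≤ q_m` for all `m > N`; by `S_RB` the union of the `G_N` has probability one. For fixed `N` and `n ≥ N`,
by `S_PU` and `S_ARA`, `P(G_N ∩ {nothing chosen in (n, n + h n]}) ≤ ∏ (1 - l m) ≤ exp (- ∑ l m) ≤
exp (-(1 - δ/8)(1 - δ/8) h n / log n) ≤ n^(-(1 + δ/4))` for large `n`, which is summable; Borel-Cantelli
(`MeasureTheory.measure_setOf_frequently_eq_zero` or `ae_eventually_notMem`). -/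
def S_UPP : Prop := ∀ {Ω : Type} [mΩ : MeasurableSpace Ω] (μ : Measure Ω) [IsProbabilityMeasure μ]
  (ℱ : Filtration ℕ mΩ) (S : ℕ → Set Ω) (z : ℕ → ℕ), IsModel μ ℱ S z → Monotone z → Small z →
  ∀ c : ℝ, 1 < c → ∀ᵐ ω ∂μ, ∀ᶠ n : ℕ in atTop, ∃ m ∈ Ioc n (n + ⌊c * Real.log n ^ 2⌋₊), ω ∈ S m

/-- CRU: a crude bound for the runs, larger sieves.

PROOF (from `S_FLI`, `S_PU`, `S_RB`). As for `S_UPP` with the interval `(n, 2 n]`: `z` takes at most `z (2n) + 1 ≤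
2 log n` values there, so it is constant on an interval `(a, a + L] ⊆ (n, 2n]` with `L ≥ n / (3 log n)`; by `S_FLI`
(with `δ = 1/2`) at least `L / (2 W(z a)) - C (z + 1)^C ≥ n / (log n)^3` integers in it are rough, each with
`w z m ≥ 1 / log (2 n)`; so `∑_{n < m ≤ 2n} w z m ≥ √n` and the probability of choosing nothing is
`≤ exp (-√n / 2)`, summable. (`W v ≤ v + 1`. `l m = w z m / 2`, in `[0,1]` for large `m` since
`W (z m) ≤ C₁ + C₂ log (z m)`, `Pool.Agent.J6H13.UM.W0_bound`.) -/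
def S_CRU : Prop := ∀ {Ω : Type} [mΩ : MeasurableSpace Ω] (μ : Measure Ω) [IsProbabilityMeasure μ]
  (ℱ : Filtration ℕ mΩ) (S : ℕ → Set Ω) (z : ℕ → ℕ), IsModel μ ℱ S z → Monotone z →
  (∀ᶠ n : ℕ in atTop, (z n : ℝ) ≤ Real.log n) →
  ∀ᵐ ω ∂μ, ∀ᶠ n : ℕ in atTop, ∃ m ∈ Ioc n (2 * n), ω ∈ S m

/-- LOW: there are long runs of integers which are not chosen.

PROOF (from `S_PL`, `S_RB`). Let `κ < c²`, `X = XX c g`, `η > 0` small. `u m = min 1 ((1 + η) w z m)`; `w z m → 0`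
(`W v ≤ C₁ + C₂ log v`, `z m ≤ log m`), so `1 - u m ≥ exp (-(1 + η) u m)` for large `m`. With `J` from
`Many z κ c`: for `a ∈ J` the product `∏_{a < m ≤ a + g} (1 - u m) ≥ exp (-(1 + η)² (κ + η) g / log X)`, and
`log X ≥ c √g - 1`, so it is at least `exp (-(1 + η)² (κ + η) (√g / c) (1 + η)) =: θ` for large `g`. The
probability that all intervals are hit and `q_m ≤ u_m` for all `m ≥ X/2` is at most
`(1 - θ)^|J| ≤ exp (-θ |J|)`, `|J| ≥ X^(1-η) ≥ exp ((1 - 2η) c √g)`. If `η` is small, `(1 - 2 η) c > (1 + η)³ (κ +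
η) / c`, so `θ |J| ≥ exp (η' √g) ≥ 2 log g` for large `g`: summable over `g`; Borel-Cantelli on each event
`G_N = {q_m ≤ u_m for all m ≥ N}`, whose union has probability one by `S_RB` (`q ≤ 1` a.e. too). -/
def S_LOW : Prop := ∀ {Ω : Type} [mΩ : MeasurableSpace Ω] (μ : Measure Ω) [IsProbabilityMeasure μ]
  (ℱ : Filtration ℕ mΩ) (S : ℕ → Set Ω) (z : ℕ → ℕ), IsModel μ ℱ S z →
  (∀ᶠ n : ℕ in atTop, (z n : ℝ) ≤ Real.log n) → ∀ κ c : ℝ, 0 < κ → 0 < c → κ < c ^ 2 → Many z κ c →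
  ∀ᵐ ω ∂μ, ∀ᶠ g : ℕ in atTop, ∃ a : ℕ, XX c g ≤ 2 * a ∧ a + g ≤ XX c g ∧
    ∀ m ∈ Ioc a (a + g), ω ∉ S m

/-- the first chosen integer which is preceded by at least `g` integers that are not chosen -/
noncomputable def pS (S : Set ℕ) (g : ℕ) : ℕ := sInf {m | m ∈ S ∧ g < m ∧ ∀ j : ℕ, m - g ≤ j → j < m → j ∉ S}

/-- DET: the deterministic part, law of Shanks.

PROOF. (1) Let `c > 1` and `T = ` a set such that for large `g` there is an empty run `(a, a + g]` with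
`XX c g ≤ 2 a`, `a + g ≤ XX c g`, and every `(n, 2 n]`, `n` large, contains a member. Then the least member
`m > a + g` is `≤ 2 (a + g) ≤ 2 XX c g` and (as `m` is the least member after the run) the `g` predecessors of
`m` are not members, `g < m`; so `pS T g ≤ 2 exp (c √g)` and `log (pS T g) ≤ c √g + log 2`.
(2) If for every `c = 1 + 1/(k+1)` and all large `n` the interval `(n, n + ⌊c (log n)²⌋]` contains a member, let `m = pS T g`
(the set is nonempty by (1), `Nat.sInf_mem`). The interval `(n, n + g]`, `n = m - g - 1`, contains no member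
(`m > g`). If `n ≤ N0` (`N0` fixed such that the hypothesis holds for all `n ≥ N0`), then
`(N0, N0 + ⌊c (log N0)²⌋]` is inside `(n, n + g]` for large `g`, contradiction. So `n > N0` and
`g < ⌊c (log n)²⌋ + 1`, hence `g ≤ c (log m)²`, `log m ≥ √(g/c)`. -/
def S_DET : Prop := ∀ T : Set ℕ, (∀ᶠ n : ℕ in atTop, ∃ m ∈ Ioc n (2 * n), m ∈ T) →
  (∀ c : ℝ, 0 < c → (∀ᶠ g : ℕ in atTop, ∃ a : ℕ, XX c g ≤ 2 * a ∧ a + g ≤ XX c g ∧
      ∀ m ∈ Ioc a (a + g), m ∉ T) →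
    ∀ᶠ g : ℕ in atTop, Real.log (pS T g) ≤ c * √(g : ℝ) + Real.log 2) ∧
  ((∀ k : ℕ, ∀ᶠ g : ℕ in atTop, ∃ a : ℕ, XX (1 + 1 / ((k : ℝ) + 1)) g ≤ 2 * a ∧
      a + g ≤ XX (1 + 1 / ((k : ℝ) + 1)) g ∧ ∀ m ∈ Ioc a (a + g), m ∉ T) →
    (∀ k : ℕ, ∀ᶠ n : ℕ in atTop, ∃ m ∈ Ioc n (n + ⌊(1 + 1 / ((k : ℝ) + 1)) * Real.log n ^ 2⌋₊), m ∈ T) →
    Tendsto (fun g : ℕ => Real.log (pS T g) / √(g : ℝ)) atTop (𝓝 1))

/-- MAIN: the final theorem (assembly by helper39). -/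
def S_MAIN : Prop :=
  (∀ z : ℕ → ℕ, Monotone z → Small z →
    ∀ {Ω : Type} [mΩ : MeasurableSpace Ω] (μ : Measure Ω) [IsProbabilityMeasure μ]
      (ℱ : Filtration ℕ mΩ) (S : ℕ → Set Ω), IsModel μ ℱ S z →
      ∀ᵐ ω ∂μ, Tendsto (fun g : ℕ => Real.log (pS {k | ω ∈ S k} g) / √(g : ℝ)) atTop (𝓝 1)) ∧
  ∀ ε : ℝ, 0 < ε → ∃ c : ℝ, 0 < c ∧ c < 1 ∧ ∀ z : ℕ → ℕ, Monotone z →
    (∀ᶠ n : ℕ in atTop, Real.log n ^ ε ≤ (z n : ℝ) ∧ (z n : ℝ) ≤ Real.log n ^ (1 - ε)) →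
    ∀ {Ω : Type} [mΩ : MeasurableSpace Ω] (μ : Measure Ω) [IsProbabilityMeasure μ]
      (ℱ : Filtration ℕ mΩ) (S : ℕ → Set Ω), IsModel μ ℱ S z →
      ∀ᵐ ω ∂μ, ∀ᶠ g : ℕ in atTop, Real.log (pS {k | ω ∈ S k} g) ≤ c * √(g : ℝ)

end Pool.Agent.J6H39.RS
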